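import Mathlib

/-!
Pure subgroups of finitely generated abelian groups are retracts.
-/

namespace Pool.Agent.Poly

theorem retract_of_pure {A : Type*} [CommGroup A] [Group.FG A] (H : Subgroup A)
    (hpure : ∀ n : ℕ, 1 ≤ n → ∀ x : A, x ^ n ∈ H → x ∈ H) :
    ∃ ρ : A →* H, ∀ h : H, ρ h = h := by
  let S : Submodule ℤ (Additive A) := AddSubgroup.toIntSubmodule (Subgroup.toAddSubgroup H)
  have hS : ∀ x : A, Additive.ofMul x ∈ S ↔ x ∈ H := fun x => Iff.rfl
  have hfin : Module.Finite ℤ (Additive A) := Module.Finite.iff_addGroup_fg.2 inferInstance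
  have htf : Module.IsTorsionFree ℤ (Additive A ⧸ S) := by
    constructor
    intro n hn
    have hn0 : n ≠ 0 := hn.ne_zero
    intro x y hxy
    simp only at hxy
    rw [← sub_eq_zero, ← smul_sub] at hxy
    rw [← sub_eq_zero]
    obtain ⟨z, hz⟩ := Submodule.mkQ_surjective S (x - y)
    rw [← hz] at hxy ⊢
    rw [← map_smul] at hxy
    have h1 : n • z ∈ S := by
      rwa [Submodule.mkQ_apply, Submodule.Quotient.mk_eq_zero] at hxy
    rw [Submodule.mkQ_apply, Submodule.Quotient.mk_eq_zero]
    have h2 : (n.natAbs : ℤ) • z ∈ S := by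
      rcases Int.natAbs_eq n with h | h
      · rw [← h]; exact h1
      · have : (n.natAbs : ℤ) = -n := by omega
        rw [this, neg_smul]
        exact S.neg_mem h1
    have h3 : (Additive.toMul z) ^ n.natAbs ∈ H := by
      rw [natCast_zsmul] at h2
      exact h2
    exact hpure n.natAbs (Int.natAbs_pos.2 hn0) _ h3
  have hfree : Module.Free ℤ (Additive A ⧸ S) := inferInstance
  obtain ⟨s, hs⟩ := Module.projective_lifting_property S.mkQ LinearMap.id
    (Submodule.mkQ_surjective S)
  have hs' : ∀ x, S.mkQ (s x) = x := fun x => DFunLike.congr_fun hs x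
  let r : Additive A →ₗ[ℤ] Additive A := LinearMap.id - s.comp S.mkQ
  have hr : ∀ x, r x ∈ S := by
    intro x
    rw [← Submodule.Quotient.mk_eq_zero, ← Submodule.mkQ_apply]
    simp only [r, LinearMap.sub_apply, LinearMap.id_apply, LinearMap.comp_apply, map_sub, hs',
      sub_self]
  have hr2 : ∀ x ∈ S, r x = x := by
    intro x hx
    have : S.mkQ x = 0 := by rwa [Submodule.mkQ_apply, Submodule.Quotient.mk_eq_zero]
    simp only [r, LinearMap.sub_apply, LinearMap.id_apply, LinearMap.comp_apply, this, map_zero,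
      sub_zero]
  refine ⟨(AddMonoidHom.toMultiplicative r.toAddMonoidHom).codRestrict H (fun x => hr x), ?_⟩
  intro h
  apply Subtype.ext
  exact hr2 (Additive.ofMul (h : A)) h.2

end Pool.Agent.Poly
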