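import Mathlib

/-!
Filtrations of groups by homomorphisms to units of power series rings over noncommutative rings.
-/

open PowerSeries
open scoped commutatorElement

namespace Pool.Agent.Poly

variable {Λ : Type*} [Ring Λ]

/-- all coefficients below `k` vanish -/
def Low (k : ℕ) (φ : Λ⟦X⟧) : Prop := ∀ i < k, coeff i φ = 0

lemma low_zero (φ : Λ⟦X⟧) : Low 0 φ := fun i hi => absurd hi (Nat.not_lt_zero i)

lemma Low.mono {k l : ℕ} (h : k ≤ l) {φ : Λ⟦X⟧} (hφ : Low l φ) : Low k φ :=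
  fun i hi => hφ i (lt_of_lt_of_le hi h)

lemma Low.add {k : ℕ} {φ ψ : Λ⟦X⟧} (h1 : Low k φ) (h2 : Low k ψ) : Low k (φ + ψ) := by
  intro i hi
  rw [map_add, h1 i hi, h2 i hi, add_zero]

lemma Low.neg {k : ℕ} {φ : Λ⟦X⟧} (h1 : Low k φ) : Low k (-φ) := by
  intro i hi
  rw [map_neg, h1 i hi, neg_zero]

lemma Low.sub {k : ℕ} {φ ψ : Λ⟦X⟧} (h1 : Low k φ) (h2 : Low k ψ) : Low k (φ - ψ) := by
  rw [sub_eq_add_neg]; exact h1.add h2.neg

lemma Low.mul {k l : ℕ} {φ ψ : Λ⟦X⟧} (h1 : Low k φ) (h2 : Low l ψ) : Low (k + l) (φ * ψ) := by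
  intro i hi
  rw [coeff_mul]
  apply Finset.sum_eq_zero
  rintro ⟨a, b⟩ hab
  rw [Finset.HasAntidiagonal.mem_antidiagonal] at hab
  simp only at hab ⊢
  rcases lt_or_ge a k with h | h
  · rw [h1 a h, zero_mul]
  · rw [h2 b (by omega), mul_zero]

lemma coeff_mul_low {k l : ℕ} {φ ψ : Λ⟦X⟧} (h1 : Low k φ) (h2 : Low l ψ) :
    coeff (k + l) (φ * ψ) = coeff k φ * coeff l ψ := by
  rw [coeff_mul]
  rw [Finset.sum_eq_single (k, l)]
  · rintro ⟨a, b⟩ hab hne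
    rw [Finset.HasAntidiagonal.mem_antidiagonal] at hab
    simp only at hab ⊢
    rcases lt_or_ge a k with h | h
    · rw [h1 a h, zero_mul]
    · have : b < l := by
        rcases Nat.lt_or_ge b l with hb | hb
        · exact hb
        · exfalso
          apply hne
          have : a = k := by omega
          have : b = l := by omega
          simp [*]
      rw [h2 b this, mul_zero]
  · intro h
    exfalso
    apply h
    rw [Finset.HasAntidiagonal.mem_antidiagonal]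

lemma Low.mul_right {k : ℕ} {φ : Λ⟦X⟧} (h1 : Low k φ) (ψ : Λ⟦X⟧) : Low k (φ * ψ) := by
  have := h1.mul (low_zero ψ)
  simpa using this

lemma Low.mul_left {k : ℕ} {φ : Λ⟦X⟧} (h1 : Low k φ) (ψ : Λ⟦X⟧) : Low k (ψ * φ) := by
  have := (low_zero ψ).mul h1
  simpa using this

variable {G : Type*} [Group G]

/-- the filtration of `G` by the order of `m g - 1` -/
def E (m : G →* Λ⟦X⟧ˣ) (k : ℕ) : Subgroup G where
  carrier := {g | Low k ((m g : Λ⟦X⟧) - 1)}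
  one_mem' := by
    intro i hi
    simp
  mul_mem' := by
    intro g h hg hh
    have e : ((m (g * h) : Λ⟦X⟧) - 1) = ((m g : Λ⟦X⟧) - 1) * (m h : Λ⟦X⟧) + ((m h : Λ⟦X⟧) - 1) := by
      rw [map_mul, Units.val_mul]; noncomm_ring
    show Low k _
    rw [e]
    exact (Low.mul_right hg _).add hh
  inv_mem' := by
    intro g hg
    have e : ((m g⁻¹ : Λ⟦X⟧) - 1) = -(((m g : Λ⟦X⟧) - 1) * (m g⁻¹ : Λ⟦X⟧)) := by
      rw [sub_mul, one_mul, ← Units.val_mul, ← map_mul, mul_inv_cancel, map_one, Units.val_one]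
      noncomm_ring
    show Low k _
    rw [e]
    exact (Low.mul_right hg _).neg

lemma mem_E {m : G →* Λ⟦X⟧ˣ} {k : ℕ} {g : G} : g ∈ E m k ↔ Low k ((m g : Λ⟦X⟧) - 1) := Iff.rfl

lemma E_zero (m : G →* Λ⟦X⟧ˣ) : E m 0 = ⊤ := by
  ext g
  simp [mem_E, low_zero]

lemma E_anti (m : G →* Λ⟦X⟧ˣ) : Antitone (E m) := by
  intro k l h g hg
  exact Low.mono h hg

/-- the symbol of `g` in degree `k` -/
noncomputable def sym (m : G →* Λ⟦X⟧ˣ) (k : ℕ) (g : G) : Λ := coeff k ((m g : Λ⟦X⟧) - 1)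

lemma mem_E_succ {m : G →* Λ⟦X⟧ˣ} {k : ℕ} {g : G} : g ∈ E m (k + 1) ↔ g ∈ E m k ∧ sym m k g = 0 := by
  constructor
  · intro h
    exact ⟨E_anti m (Nat.le_succ k) h, h k (Nat.lt_succ_self k)⟩
  · rintro ⟨h1, h2⟩ i hi
    rcases Nat.lt_succ_iff_lt_or_eq.1 hi with h | h
    · exact h1 i h
    · subst h; exact h2

lemma sym_one (m : G →* Λ⟦X⟧ˣ) (k : ℕ) : sym m k 1 = 0 := by
  simp [sym]

lemma sym_mul {m : G →* Λ⟦X⟧ˣ} {k : ℕ} (hk : 1 ≤ k) {g h : G} (hg : g ∈ E m k) (hh : h ∈ E m k) :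
    sym m k (g * h) = sym m k g + sym m k h := by
  unfold sym
  have e : ((m (g * h) : Λ⟦X⟧) - 1) = ((m g : Λ⟦X⟧) - 1) * ((m h : Λ⟦X⟧) - 1) +
      ((m g : Λ⟦X⟧) - 1) + ((m h : Λ⟦X⟧) - 1) := by
    rw [map_mul, Units.val_mul]; noncomm_ring
  rw [e, map_add, map_add]
  have h1 : coeff k (((m g : Λ⟦X⟧) - 1) * ((m h : Λ⟦X⟧) - 1)) = 0 :=
    (Low.mul hg hh) k (by omega)
  rw [h1, zero_add]

lemma sym_inv {m : G →* Λ⟦X⟧ˣ} {k : ℕ} (hk : 1 ≤ k) {g : G} (hg : g ∈ E m k) :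
    sym m k g⁻¹ = -sym m k g := by
  have h := sym_mul hk hg ((E m k).inv_mem hg)
  rw [mul_inv_cancel, sym_one] at h
  exact (neg_eq_of_add_eq_zero_right h.symm).symm

lemma comm_mem_E {m : G →* Λ⟦X⟧ˣ} {i j : ℕ} {g h : G} (hg : g ∈ E m i) (hh : h ∈ E m j) :
    ⁅g, h⁆ ∈ E m (i + j) := by
  have e : ((m ⁅g, h⁆ : Λ⟦X⟧) - 1) = (((m g : Λ⟦X⟧) - 1) * ((m h : Λ⟦X⟧) - 1) -
      ((m h : Λ⟦X⟧) - 1) * ((m g : Λ⟦X⟧) - 1)) * (m (h * g)⁻¹ : Λ⟦X⟧) := by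
    have e1 : (m ⁅g, h⁆ : Λ⟦X⟧) = (m g : Λ⟦X⟧) * (m h : Λ⟦X⟧) * (m (h * g)⁻¹ : Λ⟦X⟧) := by
      rw [← Units.val_mul, ← Units.val_mul, ← map_mul, ← map_mul, commutatorElement_def]
      congr 2
      group
    have e2 : (1 : Λ⟦X⟧) = (m h : Λ⟦X⟧) * (m g : Λ⟦X⟧) * (m (h * g)⁻¹ : Λ⟦X⟧) := by
      rw [← Units.val_mul, ← Units.val_mul, ← map_mul, ← map_mul, mul_inv_cancel, map_one,
        Units.val_one]
    rw [e1]
    nth_rewrite 1 [e2]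
    noncomm_ring
  rw [mem_E, e]
  apply Low.mul_right
  apply Low.sub
  · exact Low.mul hg hh
  · rw [add_comm]; exact Low.mul hh hg

lemma sym_comm {m : G →* Λ⟦X⟧ˣ} {i j : ℕ} (hi : 1 ≤ i) (hj : 1 ≤ j) {g h : G} (hg : g ∈ E m i)
    (hh : h ∈ E m j) :
    sym m (i + j) ⁅g, h⁆ = sym m i g * sym m j h - sym m j h * sym m i g := by
  have e : ((m ⁅g, h⁆ : Λ⟦X⟧) - 1) = (((m g : Λ⟦X⟧) - 1) * ((m h : Λ⟦X⟧) - 1) -
      ((m h : Λ⟦X⟧) - 1) * ((m g : Λ⟦X⟧) - 1)) * (m (h * g)⁻¹ : Λ⟦X⟧) := by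
    have e1 : (m ⁅g, h⁆ : Λ⟦X⟧) = (m g : Λ⟦X⟧) * (m h : Λ⟦X⟧) * (m (h * g)⁻¹ : Λ⟦X⟧) := by
      rw [← Units.val_mul, ← Units.val_mul, ← map_mul, ← map_mul, commutatorElement_def]
      congr 2
      group
    have e2 : (1 : Λ⟦X⟧) = (m h : Λ⟦X⟧) * (m g : Λ⟦X⟧) * (m (h * g)⁻¹ : Λ⟦X⟧) := by
      rw [← Units.val_mul, ← Units.val_mul, ← map_mul, ← map_mul, mul_inv_cancel, map_one,
        Units.val_one]
    rw [e1]
    nth_rewrite 1 [e2]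
    noncomm_ring
  unfold sym
  rw [e]
  have hlow : Low (i + j) (((m g : Λ⟦X⟧) - 1) * ((m h : Λ⟦X⟧) - 1) -
      ((m h : Λ⟦X⟧) - 1) * ((m g : Λ⟦X⟧) - 1)) := by
    apply Low.sub
    · exact Low.mul hg hh
    · rw [add_comm]; exact Low.mul hh hg
  have h0 := coeff_mul_low hlow (low_zero (m (h * g)⁻¹ : Λ⟦X⟧))
  rw [add_zero] at h0
  rw [h0, map_sub, coeff_mul_low hg hh]
  have h1 : coeff (i + j) (((m h : Λ⟦X⟧) - 1) * ((m g : Λ⟦X⟧) - 1)) =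
      coeff j ((m h : Λ⟦X⟧) - 1) * coeff i ((m g : Λ⟦X⟧) - 1) := by
    rw [add_comm i j]; exact coeff_mul_low hh hg
  rw [h1]
  have hinv : (h * g)⁻¹ ∈ E m 1 :=
    (E m 1).inv_mem ((E m 1).mul_mem (E_anti m hj hh) (E_anti m hi hg))
  have h2 : coeff 0 ((m (h * g)⁻¹ : Λ⟦X⟧)) = 1 := by
    have := hinv 0 (by norm_num)
    rw [map_sub, sub_eq_zero] at this
    rw [this]; simp
  rw [h2, mul_one]

/-- A filtration of a group with `⁅Φ i, Φ j⁆ ≤ Φ (i + j)` for positive `i`, `j`. -/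
structure NS (G : Type*) [Group G] where
  Φ : ℕ → Subgroup G
  anti : ∀ i j, 1 ≤ i → i ≤ j → Φ j ≤ Φ i
  comm : ∀ i j, 1 ≤ i → 1 ≤ j → ∀ g ∈ Φ i, ∀ h ∈ Φ j, ⁅g, h⁆ ∈ Φ (i + j)

/-- the filtration given by `m` -/
def NS.ofE (m : G →* Λ⟦X⟧ˣ) : NS G where
  Φ := E m
  anti := fun _ _ _ h => E_anti m h
  comm := fun _ _ _ _ _ hg _ hh => comm_mem_E hg hh

/-- the preimage of a filtration -/
def NS.comap {H : Type*} [Group H] (f : G →* H) (N : NS H) : NS G where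
  Φ := fun i => (N.Φ i).comap f
  anti := fun i j hi hij => Subgroup.comap_mono (N.anti i j hi hij)
  comm := fun i j hi hj g hg h hh => by
    rw [Subgroup.mem_comap] at *
    rw [map_commutatorElement]
    exact N.comm i j hi hj _ hg _ hh

/-- the smallest filtration of a free group with the generator `z` in degree `wt z` -/
def Gam {Z : Type*} (wt : Z → ℕ) (k : ℕ) : Subgroup (FreeGroup Z) :=
  ⨅ (N : {N : NS (FreeGroup Z) // ∀ z, FreeGroup.of z ∈ N.Φ (wt z)}), N.1.Φ k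

lemma mem_Gam {Z : Type*} {wt : Z → ℕ} {k : ℕ} {g : FreeGroup Z} :
    g ∈ Gam wt k ↔ ∀ N : NS (FreeGroup Z), (∀ z, FreeGroup.of z ∈ N.Φ (wt z)) → g ∈ N.Φ k := by
  unfold Gam
  rw [Subgroup.mem_iInf]
  exact ⟨fun h N hN => h ⟨N, hN⟩, fun h N => h N.1 N.2⟩

/-- `Gam` as a filtration -/
def NS.gam {Z : Type*} (wt : Z → ℕ) : NS (FreeGroup Z) where
  Φ := Gam wt
  anti := fun i j hi hij g hg => by
    rw [mem_Gam] at *
    exact fun N hN => N.anti i j hi hij (hg N hN)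
  comm := fun i j hi hj g hg h hh => by
    rw [mem_Gam] at *
    exact fun N hN => N.comm i j hi hj g (hg N hN) h (hh N hN)

lemma of_mem_Gam {Z : Type*} (wt : Z → ℕ) (z : Z) : FreeGroup.of z ∈ Gam wt (wt z) := by
  rw [mem_Gam]
  exact fun N hN => hN z

lemma Gam_le {Z : Type*} {wt : Z → ℕ} (N : NS (FreeGroup Z))
    (hN : ∀ z, FreeGroup.of z ∈ N.Φ (wt z)) (k : ℕ) : Gam wt k ≤ N.Φ k :=
  fun _ hg => mem_Gam.1 hg N hN

/-- if the generators lie in a subgroup it is everything -/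
lemma eq_top_of_gens {Z : Type*} {H : Subgroup (FreeGroup Z)} (h : ∀ z, FreeGroup.of z ∈ H) :
    H = ⊤ := by
  rw [eq_top_iff, ← FreeGroup.closure_range_of, Subgroup.closure_le]
  rintro _ ⟨z, rfl⟩
  exact h z

lemma Gam_eq_top {Z : Type*} {wt : Z → ℕ} {k : ℕ} (hk : 1 ≤ k) (h : ∀ z, k ≤ wt z) :
    Gam wt k = ⊤ :=
  eq_top_of_gens fun z => (NS.gam wt).anti k (wt z) hk (h z) (of_mem_Gam wt z)

lemma map_Gam {Z : Type*} {wt : Z → ℕ} {H : Type*} [Group H] (f : FreeGroup Z →* H) (N : NS H)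
    (hN : ∀ z, f (FreeGroup.of z) ∈ N.Φ (wt z)) {k : ℕ} {g : FreeGroup Z} (hg : g ∈ Gam wt k) :
    f g ∈ N.Φ k :=
  Gam_le (N.comap f) hN k hg

end Pool.Agent.Poly
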