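import Mathlib
import Pool.Agent.Lib_helper1.Poly.PS

/-!
The Magnus map and the symbol lemma.
-/

open PowerSeries
open scoped commutatorElement

namespace Pool.Agent.Poly

/-- a power series with constant coefficient one as a unit -/
noncomputable def mkU {Λ : Type*} [Ring Λ] (φ : Λ⟦X⟧) (h : constantCoeff φ = 1) : Λ⟦X⟧ˣ where
  val := φ
  inv := invOfUnit φ 1
  val_inv := mul_invOfUnit φ 1 (by simpa using h)
  inv_val := invOfUnit_mul φ 1 (by simpa using h)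

lemma const_one {Λ : Type*} [Ring Λ] {w : ℕ} (hw : 1 ≤ w) (a : Λ) :
    constantCoeff ((1 : Λ⟦X⟧) + X ^ w * C a) = 1 := by
  rw [map_add, map_one, map_mul, map_pow, constantCoeff_X, zero_pow (by omega), zero_mul, add_zero]

/-- the Magnus map with `z ↦ 1 + a z X ^ (wt z)` -/
noncomputable def mag {Λ : Type*} [Ring Λ] {Z : Type*} (wt : Z → ℕ) (h : ∀ z, 1 ≤ wt z)
    (a : Z → Λ) : FreeGroup Z →* Λ⟦X⟧ˣ :=
  FreeGroup.lift fun z => mkU (1 + X ^ (wt z) * C (a z)) (const_one (h z) _)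

section

variable {Λ : Type*} [Ring Λ] {Z : Type*} (wt : Z → ℕ) (h : ∀ z, 1 ≤ wt z) (a : Z → Λ)

lemma mag_of (z : Z) : ((mag wt h a (FreeGroup.of z) : Λ⟦X⟧ˣ) : Λ⟦X⟧) - 1 = X ^ (wt z) * C (a z) := by
  unfold mag
  rw [FreeGroup.lift_apply_of]
  show (1 + X ^ (wt z) * C (a z)) - 1 = _
  rw [add_sub_cancel_left]

lemma of_mem_E (z : Z) : FreeGroup.of z ∈ E (mag wt h a) (wt z) := by
  intro i hi
  rw [mag_of, coeff_X_pow_mul', if_neg (by omega)]

lemma sym_of (z : Z) : sym (mag wt h a) (wt z) (FreeGroup.of z) = a z := by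
  unfold sym
  rw [mag_of, coeff_X_pow_mul', if_pos le_rfl, Nat.sub_self]
  simp

lemma sym_of_ne (z : Z) {k : ℕ} (hk : k ≠ wt z) : sym (mag wt h a) k (FreeGroup.of z) = 0 := by
  unfold sym
  rw [mag_of, coeff_X_pow_mul']
  split_ifs with h1
  · rw [coeff_C, if_neg (by omega)]
  · rfl

lemma Gam_le_E {Λ : Type*} [Ring Λ] (m : FreeGroup Z →* Λ⟦X⟧ˣ)
    (hm : ∀ z, FreeGroup.of z ∈ E m (wt z)) (k : ℕ) : Gam wt k ≤ E m k :=
  Gam_le (NS.ofE m) hm k

end

/-- the free ring on a type -/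
def FR (Z : Type*) : Type _ := FreeAlgebra ℤ Z

noncomputable instance (Z : Type*) : Ring (FR Z) := inferInstanceAs (Ring (FreeAlgebra ℤ Z))

/-- generators of the free ring -/
noncomputable def FR.ι {Z : Type*} (z : Z) : FR Z := FreeAlgebra.ι ℤ z

/-- universal property of the free ring -/
noncomputable def FR.lift {Z Λ : Type*} [Ring Λ] (f : Z → Λ) : FR Z →+* Λ :=
  (FreeAlgebra.lift ℤ f).toRingHom

lemma FR.lift_ι {Z Λ : Type*} [Ring Λ] (f : Z → Λ) (z : Z) : FR.lift f (FR.ι z) = f z :=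
  FreeAlgebra.lift_ι_apply f z

lemma FR.hom_ext {Z Λ : Type*} [Ring Λ] {f g : FR Z →+* Λ} (h : ∀ z, f (FR.ι z) = g (FR.ι z)) :
    f = g := by
  let f' : FreeAlgebra ℤ Z →ₐ[ℤ] Λ := RingHom.toIntAlgHom (R := FreeAlgebra ℤ Z) f
  let g' : FreeAlgebra ℤ Z →ₐ[ℤ] Λ := RingHom.toIntAlgHom (R := FreeAlgebra ℤ Z) g
  have : f' = g' := by
    apply FreeAlgebra.hom_ext
    ext z
    exact h z
  ext t
  exact congrArg (fun k => k t) this

/-- the universal Magnus map -/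
noncomputable abbrev magT {Z : Type*} (wt : Z → ℕ) (h : ∀ z, 1 ≤ wt z) :
    FreeGroup Z →* (FR Z)⟦X⟧ˣ := mag wt h FR.ι

section Sym

variable {Λ : Type*} [Ring Λ] {Z : Type*} (wt : Z → ℕ) (h : ∀ z, 1 ≤ wt z)
  (m : FreeGroup Z →* Λ⟦X⟧ˣ)

/-- the induced map on symbols -/
noncomputable def symHom : FR Z →+* Λ :=
  FR.lift fun z => sym m (wt z) (FreeGroup.of z)

/-- elements on which the symbol of `m` is computed by the universal symbol -/
noncomputable def SG (k : ℕ) (hk : 1 ≤ k) : Subgroup (FreeGroup Z) where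
  carrier := {g | g ∈ E (magT wt h) k ∧ g ∈ E m k ∧ sym m k g = symHom wt m (sym (magT wt h) k g)}
  one_mem' := ⟨Subgroup.one_mem _, Subgroup.one_mem _, by rw [sym_one, sym_one, map_zero]⟩
  mul_mem' := by
    rintro a b ⟨ha1, ha2, ha3⟩ ⟨hb1, hb2, hb3⟩
    refine ⟨Subgroup.mul_mem _ ha1 hb1, Subgroup.mul_mem _ ha2 hb2, ?_⟩
    rw [sym_mul hk ha2 hb2, sym_mul hk ha1 hb1, map_add, ha3, hb3]
  inv_mem' := by
    rintro a ⟨ha1, ha2, ha3⟩
    refine ⟨Subgroup.inv_mem _ ha1, Subgroup.inv_mem _ ha2, ?_⟩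
    rw [sym_inv hk ha2, sym_inv hk ha1, map_neg, ha3]

/-- the filtration used in the symbol lemma -/
noncomputable def NSsym : NS (FreeGroup Z) where
  Φ k := if hk : 1 ≤ k then SG wt h m k hk else ⊤
  anti := by
    intro i j hi hij g hg
    rw [dif_pos (hi.trans hij)] at hg
    rw [dif_pos hi]
    obtain ⟨h1, h2, h3⟩ := hg
    rcases Nat.eq_or_lt_of_le hij with e | hlt
    · subst e
      exact ⟨h1, h2, h3⟩
    · refine ⟨E_anti _ hij h1, E_anti _ hij h2, ?_⟩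
      have e1 : sym m i g = 0 := h2 i hlt
      have e2 : sym (magT wt h) i g = 0 := h1 i hlt
      rw [e1, e2, map_zero]
  comm := by
    intro i j hi hj g hg k hk
    rw [dif_pos hi] at hg
    rw [dif_pos hj] at hk
    rw [dif_pos (by omega)]
    obtain ⟨h1, h2, h3⟩ := hg
    obtain ⟨k1, k2, k3⟩ := hk
    refine ⟨comm_mem_E h1 k1, comm_mem_E h2 k2, ?_⟩
    rw [sym_comm hi hj h2 k2, sym_comm hi hj h1 k1, map_sub, map_mul, map_mul, h3, k3]

theorem sym_Gam (hm : ∀ z, FreeGroup.of z ∈ E m (wt z)) {k : ℕ} (hk : 1 ≤ k) {g : FreeGroup Z}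
    (hg : g ∈ Gam wt k) :
    g ∈ E m k ∧ sym m k g = symHom wt m (sym (magT wt h) k g) := by
  have key : g ∈ (NSsym wt h m).Φ k := by
    apply Gam_le (NSsym wt h m) _ k hg
    intro z
    show FreeGroup.of z ∈ (if hk : 1 ≤ wt z then SG wt h m (wt z) hk else ⊤)
    rw [dif_pos (h z)]
    refine ⟨of_mem_E wt h _ z, hm z, ?_⟩
    rw [sym_of]
    unfold symHom
    rw [FR.lift_ι]
  have e : (NSsym wt h m).Φ k = SG wt h m k hk := dif_pos hk
  rw [e] at key
  exact key.2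

end Sym

end Pool.Agent.Poly
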