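import Mathlib
import Pool.Agent.Lib_helper1.Poly.Mag

/-!
Injectivity of the map of free rings given by linearly independent linear forms.
-/

namespace Pool.Agent.Poly

/-- the free ring on `Y` as a monoid ring -/
abbrev FM (Y : Type*) := MonoidAlgebra ℤ (FreeMonoid Y)

/-- the linear elements -/
noncomputable def lin {Y : Type*} : (Y →₀ ℤ) →+ FM Y :=
  Finsupp.liftAddHom fun y => MonoidAlgebra.singleAddHom (FreeMonoid.of y)

lemma lin_single {Y : Type*} (y : Y) (n : ℤ) :
    lin (Finsupp.single y n) = MonoidAlgebra.single (FreeMonoid.of y) n := by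
  unfold lin
  rw [Finsupp.liftAddHom_apply_single]
  rfl

/-- the ring homomorphism with `b ↦ lin (w b)` -/
noncomputable def phi {B Y : Type*} (w : B → (Y →₀ ℤ)) : FR B →+* FM Y :=
  FR.lift fun b => lin (w b)

lemma phi_ι {B Y : Type*} (w : B → (Y →₀ ℤ)) (b : B) : phi w (FR.ι b) = lin (w b) := by
  unfold phi
  rw [FR.lift_ι]

/-- the rational free ring -/
abbrev FMQ (Y : Type*) := MonoidAlgebra ℚ (FreeMonoid Y)

/-- linear elements in the rational free ring -/
noncomputable def linQ {B : Type*} : (B →₀ ℚ) →+ FMQ B :=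
  Finsupp.liftAddHom fun y => MonoidAlgebra.singleAddHom (FreeMonoid.of y)

lemma linQ_single {Y : Type*} (y : Y) (n : ℚ) :
    linQ (Finsupp.single y n) = MonoidAlgebra.single (FreeMonoid.of y) n := by
  unfold linQ
  rw [Finsupp.liftAddHom_apply_single]
  rfl

/-- rational version of an integral vector -/
noncomputable def toQ {Y : Type*} : (Y →₀ ℤ) →+ (Y →₀ ℚ) :=
  Finsupp.mapRange.addMonoidHom (Int.castAddHom ℚ)

lemma toQ_single {Y : Type*} (y : Y) (n : ℤ) :
    toQ (Finsupp.single y n) = Finsupp.single y (n : ℚ) := by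
  unfold toQ
  simp

lemma toQ_injective {Y : Type*} : Function.Injective (toQ : (Y →₀ ℤ) →+ (Y →₀ ℚ)) := by
  unfold toQ
  intro a b h
  apply Finsupp.mapRange_injective (Int.castAddHom ℚ) (map_zero _) _ h
  intro a b h
  simpa using h

/-- ring homomorphism given by a ℚ-linear map of linear forms -/
noncomputable def psi {B Y : Type*} (r : (Y →₀ ℚ) →ₗ[ℚ] (B →₀ ℚ)) : FM Y →+* FMQ B :=
  MonoidAlgebra.liftNCRingHom (Int.castRingHom _)
    (FreeMonoid.lift fun y => linQ (r (Finsupp.single y 1))) (fun n _ => by simp)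

lemma psi_single {B Y : Type*} (r : (Y →₀ ℚ) →ₗ[ℚ] (B →₀ ℚ)) (y : Y) (n : ℤ) :
    psi r (MonoidAlgebra.single (FreeMonoid.of y) n) = linQ (r (toQ (Finsupp.single y n))) := by
  unfold psi
  rw [MonoidAlgebra.liftNCRingHom_single, FreeMonoid.lift_eval_of, toQ_single]
  have : (Finsupp.single y (n : ℚ)) = n • Finsupp.single y (1 : ℚ) := by
    rw [Finsupp.smul_single]; simp
  rw [this, map_zsmul, map_zsmul]
  simp

lemma psi_lin {B Y : Type*} (r : (Y →₀ ℚ) →ₗ[ℚ] (B →₀ ℚ)) (v : Y →₀ ℤ) :
    psi r (lin v) = linQ (r (toQ v)) := by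
  have : (psi r).toAddMonoidHom.comp lin =
      (linQ.comp r.toAddMonoidHom).comp toQ := by
    apply Finsupp.addHom_ext
    intro y n
    show psi r (lin (Finsupp.single y n)) = linQ (r (toQ (Finsupp.single y n)))
    rw [lin_single, psi_single]
  exact DFunLike.congr_fun this v

/-- the standard embedding -/
noncomputable def emb {B : Type*} : FR B →+* FMQ B :=
  (MonoidAlgebra.mapRingHom (FreeMonoid B) (Int.castRingHom ℚ)).comp
    (FreeAlgebra.equivMonoidAlgebraFreeMonoid (R := ℤ) (X := B)).toRingEquiv.toRingHom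

lemma emb_ι {B : Type*} (b : B) : emb (FR.ι b) = linQ (Finsupp.single b 1) := by
  rw [linQ_single]
  show MonoidAlgebra.mapRingHom (FreeMonoid B) (Int.castRingHom ℚ)
    (FreeAlgebra.equivMonoidAlgebraFreeMonoid (FreeAlgebra.ι ℤ b)) = _
  have : FreeAlgebra.equivMonoidAlgebraFreeMonoid (FreeAlgebra.ι ℤ b) =
      MonoidAlgebra.single (FreeMonoid.of b) (1 : ℤ) := by
    simp [FreeAlgebra.equivMonoidAlgebraFreeMonoid]
  rw [this]
  ext m
  rw [MonoidAlgebra.coeff_mapRingHom]
  classical
  rw [MonoidAlgebra.coeff_single, MonoidAlgebra.coeff_single, Finsupp.single_apply,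
    Finsupp.single_apply]
  split_ifs <;> simp

lemma emb_injective {B : Type*} : Function.Injective (emb : FR B →+* FMQ B) := by
  unfold emb
  rw [RingHom.coe_comp]
  apply Function.Injective.comp
  · intro x y h
    ext m
    have := congrArg (fun z : FMQ B => z.coeff m) h
    simp only [MonoidAlgebra.coeff_mapRingHom] at this
    simpa using this
  · exact (FreeAlgebra.equivMonoidAlgebraFreeMonoid (R := ℤ) (X := B)).injective

theorem phi_injective {B Y : Type*} (w : B → (Y →₀ ℤ)) (hw : LinearIndependent ℤ w) :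
    Function.Injective (phi w) := by
  -- independence over ℚ
  let T : (Y →₀ ℤ) →ₗ[ℤ] (Y →₀ ℚ) := toQ.toIntLinearMap
  have hwQ : LinearIndependent ℤ (fun b => toQ (w b)) := by
    have := hw.map' T (LinearMap.ker_eq_bot_of_injective (by
      intro a b h
      exact toQ_injective h))
    exact this
  have hwQ' : LinearIndependent ℚ (fun b => toQ (w b)) :=
    LinearIndependent.localization ℚ (nonZeroDivisors ℤ) hwQ
  have hinj : LinearMap.ker (Finsupp.linearCombination ℚ (fun b => toQ (w b))) = ⊥ :=
    LinearMap.ker_eq_bot_of_injective hwQ'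
  obtain ⟨r, hr⟩ := LinearMap.exists_leftInverse_of_injective _ hinj
  have hr' : ∀ b, r (toQ (w b)) = Finsupp.single b 1 := by
    intro b
    have := DFunLike.congr_fun hr (Finsupp.single b 1)
    rw [LinearMap.comp_apply, Finsupp.linearCombination_single, one_smul] at this
    simpa using this
  have hcomp : (psi r).comp (phi w) = emb := by
    apply FR.hom_ext
    intro b
    rw [RingHom.comp_apply, phi_ι, psi_lin, hr', emb_ι]
  have : Function.Injective ((psi r).comp (phi w)) := by
    rw [hcomp]; exact emb_injective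
  rw [RingHom.coe_comp] at this
  exact this.of_comp

end Pool.Agent.Poly
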