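import Mathlib

/-!
The Magnus embedding (Fox derivatives) for quotients of free groups.
-/

open scoped commutatorElement

namespace Pool.Agent.Poly

section Fox

variable {X Q : Type*} [Group Q]

/-- left multiplication on the free module `ℤ[Q]^X`, written as `Q × X →₀ ℤ` -/
noncomputable def act (q : Q) : (Q × X →₀ ℤ) →+ (Q × X →₀ ℤ) :=
  Finsupp.mapDomain.addMonoidHom (fun y => (q * y.1, y.2))

lemma act_single (q p : Q) (x : X) (n : ℤ) :
    act q (Finsupp.single (p, x) n) = Finsupp.single (q * p, x) n := by
  unfold act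
  simp [Finsupp.mapDomain_single]

lemma act_one (v : Q × X →₀ ℤ) : act 1 v = v := by
  unfold act
  simp only [one_mul, Finsupp.mapDomain.addMonoidHom_apply]
  exact Finsupp.mapDomain_id

lemma act_mul (q p : Q) (v : Q × X →₀ ℤ) : act (q * p) v = act q (act p v) := by
  unfold act
  simp only [Finsupp.mapDomain.addMonoidHom_apply]
  rw [← Finsupp.mapDomain_comp]
  congr 1
  funext y
  simp [mul_assoc]

/-- the affine action of the free group on `ℤ[Q]^X` -/
noncomputable def aff (π : FreeGroup X →* Q) : FreeGroup X →* Equiv.Perm (Q × X →₀ ℤ) :=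
  FreeGroup.lift fun x =>
    { toFun := fun v => Finsupp.single (1, x) 1 + act (π (FreeGroup.of x)) v
      invFun := fun v => act (π (FreeGroup.of x))⁻¹ (v - Finsupp.single (1, x) 1)
      left_inv := fun v => by
        simp only
        rw [add_sub_cancel_left, ← act_mul, inv_mul_cancel, act_one]
      right_inv := fun v => by
        simp only
        rw [← act_mul, mul_inv_cancel, act_one, add_sub_cancel] }

/-- the vector of Fox derivatives -/
noncomputable def D (π : FreeGroup X →* Q) (f : FreeGroup X) : Q × X →₀ ℤ := aff π f 0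

lemma aff_eq (π : FreeGroup X →* Q) (f : FreeGroup X) :
    ∀ v, aff π f v = D π f + act (π f) v := by
  induction f using FreeGroup.induction_on with
  | C1 => intro v; unfold D; simp [act_one]
  | of x =>
    intro v
    unfold D aff
    rw [FreeGroup.lift_apply_of]
    simp
  | inv_of x h =>
    intro v
    unfold D at *
    rw [map_inv, Equiv.Perm.inv_eq_iff_eq]
    have e0 : aff π (FreeGroup.of x) ((aff π (FreeGroup.of x))⁻¹ 0) = 0 := by
      rw [← Equiv.Perm.mul_apply, mul_inv_cancel, Equiv.Perm.one_apply]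
    rw [h, map_add, map_inv, ← act_mul, mul_inv_cancel, act_one, ← add_assoc, ← h, e0, zero_add]
  | mul a b ha hb =>
    intro v
    unfold D at *
    rw [map_mul, Equiv.Perm.mul_apply, Equiv.Perm.mul_apply, hb, ha, ha (aff π b 0), map_mul,
      act_mul, map_add, add_assoc]

lemma D_mul (π : FreeGroup X →* Q) (f g : FreeGroup X) :
    D π (f * g) = D π f + act (π f) (D π g) := by
  unfold D
  rw [map_mul, Equiv.Perm.mul_apply, aff_eq π f]
  rfl

lemma D_of (π : FreeGroup X →* Q) (x : X) : D π (FreeGroup.of x) = Finsupp.single (1, x) 1 := by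
  unfold D aff
  rw [FreeGroup.lift_apply_of]
  simp

lemma D_one (π : FreeGroup X →* Q) : D π 1 = 0 := by
  unfold D
  simp

lemma D_inv (π : FreeGroup X →* Q) (f : FreeGroup X) : D π f⁻¹ = -act (π f)⁻¹ (D π f) := by
  have h := D_mul π f⁻¹ f
  rw [inv_mul_cancel, D_one, map_inv] at h
  exact eq_neg_of_add_eq_zero_left h.symm

lemma D_conj (π : FreeGroup X →* Q) (f s : FreeGroup X) (hs : π s = 1) :
    D π (f * s * f⁻¹) = act (π f) (D π s) := by
  rw [D_mul, D_mul, D_inv, map_mul, hs, mul_one, map_neg, ← act_mul, mul_inv_cancel, act_one]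
  abel

lemma D_comm (π : FreeGroup X →* Q) (f s : FreeGroup X) (hs : π s = 1) :
    D π ⁅f, s⁆ = act (π f) (D π s) - D π s := by
  rw [commutatorElement_def, D_mul, D_conj π f s hs, D_inv]
  have : π (f * s * f⁻¹) = 1 := by rw [map_mul, map_mul, hs, mul_one, ← map_mul, mul_inv_cancel, map_one]
  rw [this, hs, inv_one, act_one, act_one]
  abel

/-- the element of the kernel used in the proof of the Magnus embedding -/
noncomputable def mElt (π : FreeGroup X →* Q) (hπ : Function.Surjective π) (q : Q)
    (f : FreeGroup X) : π.ker :=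
  ⟨Function.surjInv hπ q * f * (Function.surjInv hπ (q * π f))⁻¹, by
    rw [MonoidHom.mem_ker, map_mul, map_mul, map_inv, Function.surjInv_eq hπ,
      Function.surjInv_eq hπ, mul_inv_cancel]⟩

lemma mElt_mul (π : FreeGroup X →* Q) (hπ : Function.Surjective π) (q : Q)
    (f g : FreeGroup X) : mElt π hπ q (f * g) = mElt π hπ q f * mElt π hπ (q * π f) g := by
  apply Subtype.ext
  simp only [mElt, Subgroup.coe_mul]
  rw [map_mul, mul_assoc q]
  group

lemma mElt_one (π : FreeGroup X →* Q) (hπ : Function.Surjective π) (q : Q) :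
    mElt π hπ q 1 = 1 := by
  apply Subtype.ext
  simp [mElt]

/-- the functional used in the proof of the Magnus embedding -/
noncomputable def mTh (π : FreeGroup X →* Q) (hπ : Function.Surjective π) :
    (Q × X →₀ ℤ) →+ Additive (Abelianization π.ker) :=
  Finsupp.liftAddHom fun y =>
    zmultiplesHom _ (Additive.ofMul (Abelianization.of (mElt π hπ y.1 (FreeGroup.of y.2))))

lemma mTh_D (π : FreeGroup X →* Q) (hπ : Function.Surjective π) (f : FreeGroup X) : ∀ q,
    mTh π hπ (act q (D π f)) = Additive.ofMul (Abelianization.of (mElt π hπ q f)) := by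
  induction f using FreeGroup.induction_on with
  | C1 => intro q; rw [D_one, map_zero, map_zero, mElt_one, map_one]; rfl
  | of x =>
    intro q
    rw [D_of, act_single, mul_one]
    unfold mTh
    rw [Finsupp.liftAddHom_apply_single]
    simp
  | inv_of x h =>
    intro q
    have h1 := h (q * π (FreeGroup.of x)⁻¹)
    have h2 : mElt π hπ q ((FreeGroup.of x)⁻¹ * FreeGroup.of x) = 1 := by
      rw [inv_mul_cancel, mElt_one]
    rw [mElt_mul] at h2
    have h3 := eq_inv_of_mul_eq_one_left h2
    rw [h3, map_inv, ofMul_inv, ← h1, D_inv, map_neg, map_neg, act_mul, map_inv]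
  | mul a b ha hb =>
    intro q
    rw [D_mul, map_add, map_add, ha, ← act_mul, hb, mElt_mul, map_mul, ofMul_mul]

/-- The Magnus embedding: an element of the kernel with vanishing Fox derivatives is in the
commutator subgroup of the kernel. -/
theorem mem_comm_of_D_eq_zero (π : FreeGroup X →* Q) (hπ : Function.Surjective π)
    {s : FreeGroup X} (hs : s ∈ π.ker) (h : D π s = 0) : s ∈ ⁅π.ker, π.ker⁆ := by
  have h1 := mTh_D π hπ s 1
  rw [act_one, h, map_zero] at h1
  have h2 : Abelianization.of (mElt π hπ 1 s) = 1 := by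
    have := congrArg Additive.toMul h1
    simpa using this.symm
  have h3 : mElt π hπ 1 s ∈ commutator π.ker := by
    rw [← Abelianization.ker_of, MonoidHom.mem_ker]
    exact h2
  have h4 : ((mElt π hπ 1 s : π.ker) : FreeGroup X) ∈ ⁅π.ker, π.ker⁆ := by
    have := Subgroup.mem_map_of_mem π.ker.subtype h3
    rw [map_commutator_eq] at this
    simpa using this
  have hs' : π s = 1 := hs
  have h5 : ((mElt π hπ 1 s : π.ker) : FreeGroup X) =
      Function.surjInv hπ 1 * s * (Function.surjInv hπ 1)⁻¹ := by
    simp [mElt, hs']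
  rw [h5] at h4
  have : (⁅π.ker, π.ker⁆ : Subgroup (FreeGroup X)).Normal := inferInstance
  have h6 := this.conj_mem _ h4 (Function.surjInv hπ 1)⁻¹
  have e : (Function.surjInv hπ 1)⁻¹ * (Function.surjInv hπ 1 * s * (Function.surjInv hπ 1)⁻¹) *
      (Function.surjInv hπ 1)⁻¹⁻¹ = s := by group
  rw [e] at h6
  exact h6

/-- `D` is additive on the kernel -/
noncomputable def DS (π : FreeGroup X →* Q) : π.ker →* Multiplicative (Q × X →₀ ℤ) where
  toFun s := Multiplicative.ofAdd (D π s)
  map_one' := by simp [D_one]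
  map_mul' a b := by
    rw [Subgroup.coe_mul, D_mul, a.2, act_one, ofAdd_add]

end Fox

end Pool.Agent.Poly
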