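import Mathlib
import Pool.Agent.Lib_helper1.Poly.Mag

/-!
Elimination of one generator, and the theorem that the Magnus filtration of a free group with
finitely many weighted generators is the smallest filtration.
-/

open PowerSeries
open scoped commutatorElement Pointwise

namespace Pool.Agent.Poly

/-- iterated bracket `[a, [a, ..., [a, b]]]` -/
def adk {Λ : Type*} [Ring Λ] (a b : Λ) : ℕ → Λ
  | 0 => b
  | k + 1 => a * adk a b k - adk a b k * a

lemma map_adk {Λ Λ' : Type*} [Ring Λ] [Ring Λ'] (f : Λ →+* Λ') (a b : Λ) (k : ℕ) :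
    f (adk a b k) = adk (f a) (f b) k := by
  induction k with
  | zero => rfl
  | succ k ih => simp only [adk, map_sub, map_mul, ih]

section Elim

variable {Z : Type*} (wt : Z → ℕ) (h : ∀ z, 1 ≤ wt z) (x : Z) (c : ℕ)

/-- new generators -/
abbrev Yp : Type _ := {z : Z // z ≠ x} × Fin (c + 1)

/-- new weights -/
def wtp (p : Yp x c) : ℕ := wt p.1.1 + p.2.1 * wt x

include h in
lemma wtp_pos (p : Yp x c) : 1 ≤ wtp wt x c p := by
  unfold wtp
  have := h p.1.1
  omega

/-- iterated commutators -/
def yk (y : Z) : ℕ → FreeGroup Z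
  | 0 => FreeGroup.of y
  | k + 1 => ⁅FreeGroup.of x, yk y k⁆

include h in
lemma yk_mem (y : Z) (k : ℕ) : yk x y k ∈ Gam wt (wt y + k * wt x) := by
  induction k with
  | zero =>
    simp only [Nat.zero_mul, Nat.add_zero]
    exact of_mem_Gam wt y
  | succ k ih =>
    have hy := h y
    have := (NS.gam wt).comm (wt x) (wt y + k * wt x) (h x) (by omega) _ (of_mem_Gam wt x) _ ih
    have e : wt x + (wt y + k * wt x) = wt y + (k + 1) * wt x := by ring
    rw [e] at this
    exact this

lemma sym_yk (y : Z) (k : ℕ) : sym (magT wt h) (wt y + k * wt x) (yk x y k) =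
    adk (FR.ι x) (FR.ι y) k := by
  induction k with
  | zero =>
    simp only [Nat.zero_mul, Nat.add_zero]
    exact sym_of wt h _ y
  | succ k ih =>
    have hy := h y
    have hmem := Gam_le_E wt (magT wt h) (of_mem_E wt h _) _ (yk_mem wt h x y k)
    have := sym_comm (m := magT wt h) (h x) (by omega : 1 ≤ wt y + k * wt x)
      (of_mem_E wt h _ x) hmem
    rw [sym_of, ih] at this
    have e : wt x + (wt y + k * wt x) = wt y + (k + 1) * wt x := by ring
    rw [e] at this
    exact this

/-- the map from the free group on the new generators -/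
def eta : FreeGroup (Yp x c) →* FreeGroup Z := FreeGroup.lift fun p => yk x p.1.1 p.2.1

lemma eta_of (p : Yp x c) : eta x c (FreeGroup.of p) = yk x p.1.1 p.2.1 := by
  unfold eta
  rw [FreeGroup.lift_apply_of]

/-- image of generators under the derivation -/
noncomputable def dgen (p : Yp x c) : FR (Yp x c) :=
  if hlt : p.2.1 + 1 < c + 1 then FR.ι (p.1, ⟨p.2.1 + 1, hlt⟩) else 0

/-- auxiliary homomorphism defining the derivation -/
noncomputable def dHom : FR (Yp x c) →+* TrivSqZeroExt (FR (Yp x c)) (FR (Yp x c)) :=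
  FR.lift fun p => TrivSqZeroExt.inl (FR.ι p) + TrivSqZeroExt.inr (dgen x c p)

lemma dHom_ι (p : Yp x c) : dHom x c (FR.ι p) =
    TrivSqZeroExt.inl (FR.ι p) + TrivSqZeroExt.inr (dgen x c p) := by
  unfold dHom
  rw [FR.lift_ι]

lemma fst_dHom (t : FR (Yp x c)) : (dHom x c t).fst = t := by
  let F : TrivSqZeroExt (FR (Yp x c)) (FR (Yp x c)) →+* FR (Yp x c) :=
    { toFun := TrivSqZeroExt.fst
      map_one' := rfl
      map_mul' := fun _ _ => rfl
      map_zero' := rfl
      map_add' := fun _ _ => rfl }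
  have : F.comp (dHom x c) = RingHom.id _ := by
    apply FR.hom_ext
    intro p
    rw [RingHom.comp_apply, dHom_ι]
    show (TrivSqZeroExt.inl (FR.ι p) + TrivSqZeroExt.inr (dgen x c p)).fst = FR.ι p
    simp
  exact congrArg (fun f => f t) this

/-- the derivation as an additive map -/
noncomputable def dd : AddMonoid.End (FR (Yp x c)) where
  toFun t := (dHom x c t).snd
  map_add' a b := by rw [map_add]; rfl
  map_zero' := by rw [map_zero]; rfl

lemma dd_mul (p : Yp x c) (t : FR (Yp x c)) :
    dd x c (FR.ι p * t) = FR.ι p * dd x c t + dgen x c p * t := by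
  show (dHom x c (FR.ι p * t)).snd = _
  rw [map_mul, TrivSqZeroExt.snd_mul, fst_dHom, fst_dHom, dHom_ι]
  simp
  rfl

/-- left multiplication -/
def lm (Λ : Type*) [Ring Λ] : Λ →+* AddMonoid.End Λ := Module.toAddMonoidEnd Λ Λ

lemma lm_apply {Λ : Type*} [Ring Λ] (a b : Λ) : lm Λ a b = a * b := rfl

open Classical in
/-- representation of the free ring on the old generators -/
noncomputable def rho : FR Z →+* AddMonoid.End (FR (Yp x c)) :=
  FR.lift fun z => if hz : z = x then dd x c else lm _ (FR.ι ((⟨z, hz⟩, 0) : Yp x c))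

lemma rho_x : rho x c (FR.ι x) = dd x c := by
  unfold rho
  rw [FR.lift_ι, dif_pos rfl]

lemma rho_y (y : {z : Z // z ≠ x}) : rho x c (FR.ι y.1) = lm _ (FR.ι ((y, 0) : Yp x c)) := by
  unfold rho
  rw [FR.lift_ι, dif_neg y.2]

lemma rho_adk (y : {z : Z // z ≠ x}) (k : ℕ) (hk : k < c + 1) :
    rho x c (adk (FR.ι x) (FR.ι y.1) k) = lm _ (FR.ι ((y, ⟨k, hk⟩) : Yp x c)) := by
  induction k with
  | zero => exact rho_y x c y
  | succ k ih =>
    have ih' := ih (by omega)
    simp only [adk]
    rw [map_sub, map_mul, map_mul, ih', rho_x]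
    ext t
    show dd x c (FR.ι ((y, ⟨k, by omega⟩) : Yp x c) * t) -
      FR.ι ((y, ⟨k, by omega⟩) : Yp x c) * dd x c t =
      FR.ι ((y, ⟨k + 1, hk⟩) : Yp x c) * t
    rw [dd_mul, add_sub_cancel_left]
    unfold dgen
    rw [dif_pos hk]

lemma symHom_inj : Function.Injective
    (symHom (wtp wt x c) ((magT wt h).comp (eta x c))) := by
  have key : (rho x c).comp (symHom (wtp wt x c) ((magT wt h).comp (eta x c))) =
      lm (FR (Yp x c)) := by
    apply FR.hom_ext
    intro p
    rw [RingHom.comp_apply]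
    unfold symHom
    rw [FR.lift_ι]
    have e : sym ((magT wt h).comp (eta x c)) (wtp wt x c p) (FreeGroup.of p) =
        adk (FR.ι x) (FR.ι p.1.1) p.2.1 := by
      have := sym_yk wt h x p.1.1 p.2.1
      unfold sym at this ⊢
      rw [MonoidHom.comp_apply, eta_of]
      exact this
    rw [e, rho_adk x c p.1 p.2.1 p.2.2]
  intro s t hst
  have h1 : (rho x c).comp (symHom (wtp wt x c) ((magT wt h).comp (eta x c))) s =
      (rho x c).comp (symHom (wtp wt x c) ((magT wt h).comp (eta x c))) t := by
    rw [RingHom.comp_apply, RingHom.comp_apply, hst]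
  rw [key] at h1
  have h2 : lm (FR (Yp x c)) s 1 = lm (FR (Yp x c)) t 1 := by rw [h1]
  rw [lm_apply, lm_apply, mul_one, mul_one] at h2
  exact h2

include h in
lemma Gam_normal (k : ℕ) (hk : 1 ≤ k) : (Gam wt k).Normal := by
  constructor
  intro g hg u
  have hu : u ∈ Gam wt 1 := by
    rw [Gam_eq_top le_rfl h]
    trivial
  have h1 := (NS.gam wt).comm 1 k le_rfl hk u hu g hg
  have h2 := (NS.gam wt).anti k (1 + k) hk (by omega) h1
  have e : u * g * u⁻¹ = ⁅u, g⁆ * g := by
    rw [commutatorElement_def]; group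
  rw [e]
  exact Subgroup.mul_mem _ h2 hg

/-- everything of the form `η(h) γ` -/
def Khat : Subgroup (FreeGroup Z) := (eta x c).range ⊔ Gam wt (c + 1)

lemma yk_mem_Khat (y : Z) (hy : y ≠ x) (k : ℕ) (hk : k < c + 1) : yk x y k ∈ Khat wt x c := by
  apply Subgroup.mem_sup_left
  exact ⟨FreeGroup.of (⟨y, hy⟩, ⟨k, hk⟩), eta_of x c _⟩

include h in
lemma yk_top_mem (y : Z) : yk x y (c + 1) ∈ Gam wt (c + 1) := by
  have h1 := yk_mem wt h x y (c + 1)
  refine (NS.gam wt).anti (c + 1) _ (by omega) ?_ h1
  have := h y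
  have := h x
  nlinarith

include h in
lemma conj_yk (y : Z) (hy : y ≠ x) (k : ℕ) (hk : k < c + 1) :
    FreeGroup.of x * yk x y k * (FreeGroup.of x)⁻¹ ∈ Khat wt x c := by
  have e : FreeGroup.of x * yk x y k * (FreeGroup.of x)⁻¹ = yk x y (k + 1) * yk x y k := by
    simp only [yk, commutatorElement_def]; group
  rw [e]
  apply Subgroup.mul_mem _ _ (yk_mem_Khat wt x c y hy k hk)
  rcases Nat.lt_or_ge (k + 1) (c + 1) with h1 | h1
  · exact yk_mem_Khat wt x c y hy _ h1
  · have : k + 1 = c + 1 := by omega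
    rw [this]
    exact Subgroup.mem_sup_right (yk_top_mem wt h x c y)

include h in
lemma conj_inv_yk (y : Z) (hy : y ≠ x) (j : ℕ) (hj : j ≤ c + 1) :
    (FreeGroup.of x)⁻¹ * yk x y (c + 1 - j) * (FreeGroup.of x) ∈ Khat wt x c := by
  induction j with
  | zero =>
    apply Subgroup.mem_sup_right
    have := (Gam_normal wt h (c + 1) (by omega)).conj_mem _ (yk_top_mem wt h x c y)
      (FreeGroup.of x)⁻¹
    simpa using this
  | succ j ih =>
    have ih' := ih (by omega)
    have e : (FreeGroup.of x)⁻¹ * yk x y (c + 1 - (j + 1)) * (FreeGroup.of x) =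
        ((FreeGroup.of x)⁻¹ * yk x y (c + 1 - j) * (FreeGroup.of x))⁻¹ *
          yk x y (c + 1 - (j + 1)) := by
      have e1 : c + 1 - j = (c + 1 - (j + 1)) + 1 := by omega
      rw [e1]
      simp only [yk, commutatorElement_def]
      group
    rw [e]
    exact Subgroup.mul_mem _ (Subgroup.inv_mem _ ih')
      (yk_mem_Khat wt x c y hy _ (by omega))

include h in
lemma conj_Khat {g : FreeGroup Z} (hg : g ∈ Khat wt x c) :
    FreeGroup.of x * g * (FreeGroup.of x)⁻¹ ∈ Khat wt x c := by
  have hle : Khat wt x c ≤ (Khat wt x c).comap (MulAut.conj (FreeGroup.of x)).toMonoidHom := by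
    unfold Khat
    apply sup_le
    · rintro _ ⟨u, rfl⟩
      rw [Subgroup.mem_comap]
      have : ∀ u, ((MulAut.conj (FreeGroup.of x)).toMonoidHom.comp (eta x c)) u ∈
          Khat wt x c := by
        have htop : (Khat wt x c).comap
            ((MulAut.conj (FreeGroup.of x)).toMonoidHom.comp (eta x c)) = ⊤ := by
          apply eq_top_of_gens
          intro p
          rw [Subgroup.mem_comap, MonoidHom.comp_apply, eta_of]
          exact conj_yk wt h x c p.1.1 p.1.2 p.2.1 p.2.2
        intro u
        have : u ∈ (⊤ : Subgroup (FreeGroup (Yp x c))) := trivial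
        rw [← htop] at this
        exact this
      exact this u
    · intro g hg
      rw [Subgroup.mem_comap]
      apply Subgroup.mem_sup_right
      exact (Gam_normal wt h (c + 1) (by omega)).conj_mem _ hg _
  exact hle hg

include h in
lemma conj_inv_Khat {g : FreeGroup Z} (hg : g ∈ Khat wt x c) :
    (FreeGroup.of x)⁻¹ * g * (FreeGroup.of x) ∈ Khat wt x c := by
  have hle : Khat wt x c ≤ (Khat wt x c).comap (MulAut.conj (FreeGroup.of x)⁻¹).toMonoidHom := by
    unfold Khat
    apply sup_le
    · rintro _ ⟨u, rfl⟩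
      rw [Subgroup.mem_comap]
      have : ∀ u, ((MulAut.conj (FreeGroup.of x)⁻¹).toMonoidHom.comp (eta x c)) u ∈
          Khat wt x c := by
        have htop : (Khat wt x c).comap
            ((MulAut.conj (FreeGroup.of x)⁻¹).toMonoidHom.comp (eta x c)) = ⊤ := by
          apply eq_top_of_gens
          intro p
          rw [Subgroup.mem_comap, MonoidHom.comp_apply, eta_of]
          have := conj_inv_yk wt h x c p.1.1 p.1.2 (c + 1 - p.2.1) (by omega)
          have e : c + 1 - (c + 1 - p.2.1) = p.2.1 := by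
            have := p.2.2
            omega
          rw [e] at this
          simpa using this
        intro u
        have : u ∈ (⊤ : Subgroup (FreeGroup (Yp x c))) := trivial
        rw [← htop] at this
        exact this
      exact this u
    · intro g hg
      rw [Subgroup.mem_comap]
      apply Subgroup.mem_sup_right
      exact (Gam_normal wt h (c + 1) (by omega)).conj_mem _ hg _
  have := hle hg
  rw [Subgroup.mem_comap] at this
  simpa using this

include h in
/-- every element is a power of `x` times an element of `Khat` -/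
lemma decomp (g : FreeGroup Z) : ∃ i : ℤ, ∃ κ ∈ Khat wt x c, g = FreeGroup.of x ^ i * κ := by
  induction g using FreeGroup.induction_on with
  | C1 => exact ⟨0, 1, Subgroup.one_mem _, by simp⟩
  | of z =>
    by_cases hz : z = x
    · subst hz
      exact ⟨1, 1, Subgroup.one_mem _, by simp⟩
    · exact ⟨0, FreeGroup.of z, yk_mem_Khat wt x c z hz 0 (by omega), by simp⟩
  | inv_of z _ =>
    by_cases hz : z = x
    · subst hz
      exact ⟨-1, 1, Subgroup.one_mem _, by simp⟩
    · refine ⟨0, (FreeGroup.of z)⁻¹, Subgroup.inv_mem _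
        (yk_mem_Khat wt x c z hz 0 (by omega)), by simp⟩
  | mul a b ha hb =>
    obtain ⟨i, κ, hκ, rfl⟩ := ha
    obtain ⟨j, κ', hκ', rfl⟩ := hb
    refine ⟨i + j, ((FreeGroup.of x ^ j)⁻¹ * κ * FreeGroup.of x ^ j) * κ', ?_, ?_⟩
    · apply Subgroup.mul_mem _ _ hκ'
      induction j using Int.induction_on with
      | zero => simpa using hκ
      | succ n ih =>
        have := conj_inv_Khat wt h x c ih
        have e : (FreeGroup.of x ^ ((n : ℤ) + 1))⁻¹ * κ * FreeGroup.of x ^ ((n : ℤ) + 1) =
            (FreeGroup.of x)⁻¹ * ((FreeGroup.of x ^ (n : ℤ))⁻¹ * κ * FreeGroup.of x ^ (n : ℤ)) *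
              FreeGroup.of x := by
          group
        rw [e]; exact this
      | pred n ih =>
        have := conj_Khat wt h x c ih
        have e : (FreeGroup.of x ^ (-(n : ℤ) - 1))⁻¹ * κ * FreeGroup.of x ^ (-(n : ℤ) - 1) =
            (FreeGroup.of x) * ((FreeGroup.of x ^ (-(n : ℤ)))⁻¹ * κ *
              FreeGroup.of x ^ (-(n : ℤ))) * (FreeGroup.of x)⁻¹ := by
          group
        rw [e]; exact this
    · rw [zpow_add]; group

/-- the comparison of the two filtrations in degrees at most `c + 1` -/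
def MWp {Z : Type*} (wt : Z → ℕ) (h : ∀ z, 1 ≤ wt z) (c : ℕ) : Prop :=
  ∀ k, 1 ≤ k → k ≤ c + 1 → E (magT wt h) k ≤ Gam wt k

open Classical in
/-- exponent sum of `x` -/
noncomputable def expx : FreeGroup Z →* Multiplicative ℤ :=
  FreeGroup.lift fun z => if z = x then Multiplicative.ofAdd 1 else 1

open Classical in
/-- evaluation reading the coefficient of `x` -/
noncomputable def evx : FR Z →+* ℤ := FR.lift fun z => if z = x then 1 else 0

lemma evx_sym (hmin : ∀ z, wt x ≤ wt z) (g : FreeGroup Z) :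
    evx x (sym (magT wt h) (wt x) g) = Multiplicative.toAdd (expx x g) := by
  have htop : E (magT wt h) (wt x) = ⊤ := by
    apply eq_top_of_gens
    intro z
    exact E_anti _ (hmin z) (of_mem_E wt h _ z)
  have hmem : ∀ g, g ∈ E (magT wt h) (wt x) := by
    intro g; rw [htop]; trivial
  have hof : ∀ z, evx x (sym (magT wt h) (wt x) (FreeGroup.of z)) =
      Multiplicative.toAdd (expx x (FreeGroup.of z)) := by
    intro z
    unfold expx
    rw [FreeGroup.lift_apply_of]
    by_cases hz : z = x
    · subst hz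
      rw [sym_of, if_pos rfl]
      unfold evx
      rw [FR.lift_ι, if_pos rfl]
      rfl
    · rw [if_neg hz]
      by_cases hw : wt x = wt z
      · rw [hw, sym_of]
        unfold evx
        rw [FR.lift_ι, if_neg hz]
        rfl
      · rw [sym_of_ne wt h _ z hw, map_zero]
        rfl
  induction g using FreeGroup.induction_on with
  | C1 => rw [sym_one, map_zero, map_one]; rfl
  | of z => exact hof z
  | inv_of z _ => rw [sym_inv (h x) (hmem _), map_neg, hof, map_inv]; rfl
  | mul a b ha hb => rw [sym_mul (h x) (hmem _) (hmem _), map_add, ha, hb, map_mul]; rfl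

include h in
lemma Khat_le (hmin : ∀ z, wt x ≤ wt z) (hc : wt x ≤ c) : Khat wt x c ≤ (expx x).ker := by
  unfold Khat
  apply sup_le
  · rintro _ ⟨u, rfl⟩
    rw [MonoidHom.mem_ker]
    have : (expx x).comp (eta x c) = 1 := by
      apply FreeGroup.ext_hom
      intro p
      rw [MonoidHom.comp_apply, eta_of, MonoidHom.one_apply]
      rcases Nat.eq_zero_or_pos p.2.1 with h0 | h0
      · rw [h0]
        show expx x (FreeGroup.of p.1.1) = 1
        unfold expx
        rw [FreeGroup.lift_apply_of, if_neg p.1.2]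
      · obtain ⟨k, hk⟩ : ∃ k, p.2.1 = k + 1 := ⟨p.2.1 - 1, by omega⟩
        rw [hk]
        show expx x ⁅FreeGroup.of x, yk x p.1.1 k⁆ = 1
        rw [map_commutatorElement, commutatorElement_eq_one_iff_mul_comm]
        exact mul_comm _ _
    have := congrArg (fun f => f u) this
    exact this
  · intro g hg
    rw [MonoidHom.mem_ker]
    have h1 := Gam_le_E wt (magT wt h) (of_mem_E wt h _) _ hg
    have h2 : sym (magT wt h) (wt x) g = 0 := h1 (wt x) (by omega)
    have h3 := evx_sym wt h x hmin g
    rw [h2, map_zero] at h3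
    exact (Multiplicative.toAdd.injective h3.symm)

theorem elim_step (hmin : ∀ z, wt x ≤ wt z) (hc : wt x ≤ c)
    (IH : MWp (wtp wt x c) (wtp_pos wt h x c) c) : MWp wt h c := by
  intro k hk1 hk2 g hg
  rcases Nat.lt_or_ge (wt x) k with hlt | hge
  swap
  · rw [Gam_eq_top hk1 (fun z => hge.trans (hmin z))]
    trivial
  obtain ⟨i, κ, hκ, rfl⟩ := decomp wt h x c g
  have hexp : expx x (FreeGroup.of x ^ i * κ) = Multiplicative.ofAdd i := by
    rw [map_mul, Khat_le wt h x c hmin hc hκ, mul_one, map_zpow]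
    unfold expx
    rw [FreeGroup.lift_apply_of, if_pos rfl, ← ofAdd_zsmul, smul_eq_mul, mul_one]
  have h1 : sym (magT wt h) (wt x) (FreeGroup.of x ^ i * κ) = 0 := hg (wt x) hlt
  have h2 := evx_sym wt h x hmin (FreeGroup.of x ^ i * κ)
  rw [h1, map_zero, hexp] at h2
  have hi : i = 0 := h2.symm
  subst hi
  rw [zpow_zero, one_mul] at hg ⊢
  have := Gam_normal wt h (c + 1) (by omega)
  have hκ' : κ ∈ ((eta x c).range : Set (FreeGroup Z)) * (Gam wt (c + 1) : Set (FreeGroup Z)) := by
    rw [← Subgroup.mul_normal]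
    exact hκ
  obtain ⟨_, ⟨u, rfl⟩, γ, hγ, rfl⟩ := hκ'
  have hγk : γ ∈ Gam wt k := (NS.gam wt).anti k (c + 1) hk1 hk2 hγ
  have hηu : eta x c u ∈ E (magT wt h) k := by
    have h3 := Gam_le_E wt (magT wt h) (of_mem_E wt h _) _ hγk
    have h4 := (E (magT wt h) k).mul_mem hg ((E (magT wt h) k).inv_mem h3)
    simpa using h4
  have hm : ∀ p, FreeGroup.of p ∈ E ((magT wt h).comp (eta x c)) (wtp wt x c p) := by
    intro p
    have := Gam_le_E wt (magT wt h) (of_mem_E wt h _) _ (yk_mem wt h x p.1.1 p.2.1)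
    intro i hi
    rw [MonoidHom.comp_apply, eta_of]
    exact this i hi
  have hu : ∀ j, 1 ≤ j → j ≤ k → u ∈ E (magT (wtp wt x c) (wtp_pos wt h x c)) j := by
    intro j hj
    induction j, hj using Nat.le_induction with
    | base =>
      intro _
      have : E (magT (wtp wt x c) (wtp_pos wt h x c)) 1 = ⊤ :=
        eq_top_of_gens fun p => E_anti _ (wtp_pos wt h x c p) (of_mem_E _ _ _ p)
      rw [this]; trivial
    | succ j hj ih =>
      intro hjk
      have ihj := ih (by omega)
      rw [mem_E_succ]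
      refine ⟨ihj, ?_⟩
      have hG : u ∈ Gam (wtp wt x c) j := IH j hj (by omega) ihj
      have h5 := (sym_Gam (wtp wt x c) (wtp_pos wt h x c) _ hm hj hG).2
      have h6 : sym ((magT wt h).comp (eta x c)) j u = 0 := hηu j (by omega)
      rw [h6] at h5
      apply symHom_inj wt h x c
      rw [← h5, map_zero]
  have huG : u ∈ Gam (wtp wt x c) k := IH k hk1 hk2 (hu k hk1 le_rfl)
  have hfin : eta x c u ∈ Gam wt k := by
    apply map_Gam (eta x c) (NS.gam wt) _ huG
    intro p
    rw [eta_of]
    exact yk_mem wt h x p.1.1 p.2.1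
  exact Subgroup.mul_mem _ hfin hγk

end Elim

end Pool.Agent.Poly
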