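import Mathlib
import Pool.Agent.Lib_helper1.Poly.Elim

/-!
The theorem of Magnus and Witt: the Magnus filtration of a free group with weighted generators is
the smallest filtration.
-/

open PowerSeries
open scoped commutatorElement

namespace Pool.Agent.Poly

universe u

lemma MW_aux (c : ℕ) : ∀ e : ℕ, ∀ w : ℕ, 1 ≤ w → w + e = c + 1 →
    ∀ (Z : Type u) [Finite Z] (wt : Z → ℕ) (h : ∀ z, 1 ≤ wt z), (∀ z, w ≤ wt z) → MWp wt h c := by
  intro e
  induction e with
  | zero =>
    intro w hw hwc Z _ wt h hmin k hk1 hk2 g _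
    rw [Gam_eq_top hk1 (fun z => hk2.trans (by have := hmin z; omega))]
    trivial
  | succ e ihe =>
    intro w hw hwc
    have inner : ∀ n : ℕ, ∀ (Z : Type u) [Finite Z] (wt : Z → ℕ) (h : ∀ z, 1 ≤ wt z),
        (∀ z, w ≤ wt z) → Nat.card {z // wt z = w} = n → MWp wt h c := by
      intro n
      induction n using Nat.strong_induction_on with
      | _ n ihn =>
        intro Z _ wt h hmin hcard
        by_cases hx : ∃ x, wt x = w
        · obtain ⟨x, hx⟩ := hx
          apply elim_step wt h x c (fun z => by rw [hx]; exact hmin z) (by omega)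
          have hminp : ∀ p, w ≤ wtp wt x c p := by
            intro p
            unfold wtp
            have := hmin p.1.1
            omega
          refine ihn (Nat.card {p // wtp wt x c p = w}) ?_ (Yp x c) (wtp wt x c)
            (wtp_pos wt h x c) hminp rfl
          rw [← hcard]
          -- the injection
          have hp : ∀ p : Yp x c, wtp wt x c p = w → wt p.1.1 = w ∧ p.2.1 = 0 := by
            intro p hp
            unfold wtp at hp
            have h1 := hmin p.1.1
            rw [hx] at hp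
            have h2 : p.2.1 * w = 0 := by omega
            have h3 : p.2.1 = 0 := by
              rcases Nat.mul_eq_zero.1 h2 with h3 | h3
              · exact h3
              · omega
            refine ⟨?_, h3⟩
            rw [h3] at hp
            omega
          let f : {p : Yp x c // wtp wt x c p = w} → {z : Z // wt z = w} :=
            fun p => ⟨p.1.1.1, (hp p.1 p.2).1⟩
          have hf : Function.Injective f := by
            rintro ⟨⟨y, j⟩, hpj⟩ ⟨⟨y', j'⟩, hpj'⟩ hff
            have h1 : y.1 = y'.1 := congrArg (Subtype.val : {z : Z // wt z = w} → Z) hff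
            have h2 := (hp _ hpj).2
            have h3 := (hp _ hpj').2
            simp only at h2 h3
            have h4 : y = y' := Subtype.ext h1
            have h5 : j = j' := Fin.ext (by rw [h2, h3])
            subst h4 h5
            rfl
          have hns : ¬ Function.Surjective f := by
            intro hs
            obtain ⟨p, hp'⟩ := hs ⟨x, hx⟩
            have : p.1.1.1 = x := congrArg Subtype.val hp'
            exact p.1.1.2 this
          have : Fintype {p : Yp x c // wtp wt x c p = w} := Fintype.ofFinite _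
          have : Fintype {z : Z // wt z = w} := Fintype.ofFinite _
          rw [Nat.card_eq_fintype_card, Nat.card_eq_fintype_card]
          exact Fintype.card_lt_of_injective_not_surjective f hf hns
        · push Not at hx
          exact ihe (w + 1) (by omega) (by omega) Z wt h
            (fun z => by have h1 := hmin z; have h2 := hx z; omega)
    intro Z _ wt h hmin
    exact inner _ Z wt h hmin rfl

lemma MW_fin {Z : Type u} [Finite Z] (wt : Z → ℕ) (h : ∀ z, 1 ≤ wt z) {k : ℕ} (hk : 1 ≤ k) :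
    E (magT wt h) k ≤ Gam wt k :=
  MW_aux k k 1 le_rfl (by omega) Z wt h h k hk (by omega)

/-- change of coefficients -/
noncomputable def coef {Λ Λ' : Type*} [Ring Λ] [Ring Λ'] (f : Λ →+* Λ') : Λ⟦X⟧ˣ →* Λ'⟦X⟧ˣ :=
  Units.map (PowerSeries.map f : Λ⟦X⟧ →* Λ'⟦X⟧)

lemma coe_coef {Λ Λ' : Type*} [Ring Λ] [Ring Λ'] (f : Λ →+* Λ') (u : Λ⟦X⟧ˣ) :
    ((coef f u : Λ'⟦X⟧ˣ) : Λ'⟦X⟧) = PowerSeries.map f (u : Λ⟦X⟧) := rfl

lemma sym_coef {Λ Λ' : Type*} [Ring Λ] [Ring Λ'] {G : Type*} [Group G] (f : Λ →+* Λ')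
    (m : G →* Λ⟦X⟧ˣ) (k : ℕ) (g : G) : sym ((coef f).comp m) k g = f (sym m k g) := by
  unfold sym
  rw [MonoidHom.comp_apply, coe_coef, map_sub, map_sub, map_sub, coeff_map]
  congr 1
  rw [coeff_one, coeff_one]
  split_ifs <;> simp

lemma mem_E_iff {Λ : Type*} [Ring Λ] {G : Type*} [Group G] {m : G →* Λ⟦X⟧ˣ} {k : ℕ} {g : G} :
    g ∈ E m k ↔ ∀ i < k, sym m i g = 0 := Iff.rfl

lemma E_coef {Λ Λ' : Type*} [Ring Λ] [Ring Λ'] {G : Type*} [Group G] (f : Λ →+* Λ')
    (m : G →* Λ⟦X⟧ˣ) {k : ℕ} {g : G} (hg : g ∈ E m k) : g ∈ E ((coef f).comp m) k := by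
  rw [mem_E_iff] at *
  intro i hi
  rw [sym_coef, hg i hi, map_zero]

lemma coef_mag {Λ Λ' : Type*} [Ring Λ] [Ring Λ'] (f : Λ →+* Λ') {Z : Type*} (wt : Z → ℕ)
    (h : ∀ z, 1 ≤ wt z) (a : Z → Λ) : (coef f).comp (mag wt h a) = mag wt h (f ∘ a) := by
  apply FreeGroup.ext_hom
  intro z
  apply Units.ext
  rw [MonoidHom.comp_apply, coe_coef]
  have e1 := mag_of wt h a z
  have e2 := mag_of wt h (f ∘ a) z
  rw [sub_eq_iff_eq_add] at e1 e2
  rw [e1, e2, map_add, map_mul, map_pow, map_X, map_C, map_one]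
  rfl

open Classical in
/-- every element of a free group involves finitely many generators -/
lemma exists_finset_support {Z : Type*} (g : FreeGroup Z) : ∃ A : Finset Z,
    g ∈ (FreeGroup.map (Subtype.val : {z // z ∈ A} → Z)).range := by
  have mono : ∀ (A B : Finset Z), A ⊆ B →
      (FreeGroup.map (Subtype.val : {z // z ∈ A} → Z)).range ≤
        (FreeGroup.map (Subtype.val : {z // z ∈ B} → Z)).range := by
    intro A B hAB
    rintro _ ⟨u, rfl⟩
    refine ⟨FreeGroup.map (fun z : {z // z ∈ A} => (⟨z.1, hAB z.2⟩ : {z // z ∈ B})) u, ?_⟩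
    rw [FreeGroup.map.comp]
    rfl
  induction g using FreeGroup.induction_on with
  | C1 => exact ⟨∅, Subgroup.one_mem _⟩
  | of z => exact ⟨{z}, FreeGroup.of ⟨z, by simp⟩, by simp⟩
  | inv_of z h =>
    obtain ⟨A, hA⟩ := h
    exact ⟨A, Subgroup.inv_mem _ hA⟩
  | mul a b ha hb =>
    obtain ⟨A, hA⟩ := ha
    obtain ⟨B, hB⟩ := hb
    exact ⟨A ∪ B, Subgroup.mul_mem _ (mono A _ Finset.subset_union_left hA)
      (mono B _ Finset.subset_union_right hB)⟩

open Classical in
theorem MW {Z : Type u} (wt : Z → ℕ) (h : ∀ z, 1 ≤ wt z) {k : ℕ} (hk : 1 ≤ k) :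
    E (magT wt h) k ≤ Gam wt k := by
  intro g hg
  obtain ⟨A, hA⟩ := exists_finset_support g
  obtain ⟨g', rfl⟩ := hA
  let wtA : {z // z ∈ A} → ℕ := fun z => wt z.1
  let hwA : ∀ z, 1 ≤ wtA z := fun z => h z.1
  let τ : FR Z →+* FR {z // z ∈ A} := FR.lift fun z => if hz : z ∈ A then FR.ι ⟨z, hz⟩ else 0
  have hcomp : (coef τ).comp ((magT wt h).comp (FreeGroup.map Subtype.val)) = magT wtA hwA := by
    rw [← MonoidHom.comp_assoc, coef_mag]
    apply FreeGroup.ext_hom
    intro z
    rw [MonoidHom.comp_apply, FreeGroup.map.of]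
    apply Units.ext
    have e1 := mag_of wt h (τ ∘ FR.ι) z.1
    have e2 := mag_of wtA hwA FR.ι z
    rw [sub_eq_iff_eq_add] at e1 e2
    rw [e1, e2]
    have : (τ ∘ FR.ι) z.1 = FR.ι z := by
      show τ (FR.ι z.1) = FR.ι z
      simp only [τ]
      rw [FR.lift_ι, dif_pos z.2]
    rw [this]
  have hg' : g' ∈ E (magT wtA hwA) k := by
    rw [← hcomp]
    apply E_coef
    exact hg
  have h2 : g' ∈ Gam wtA k := MW_fin wtA hwA hk hg'
  apply map_Gam (FreeGroup.map Subtype.val) (NS.gam wt) _ h2
  intro z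
  rw [FreeGroup.map.of]
  exact of_mem_Gam wt z.1

end Pool.Agent.Poly
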