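import Mathlib
import Pool.Agent.Lib_helper1.Poly.MW

/-!
Lower central series: commutators of its terms, and comparison with the Magnus filtration.
-/

open PowerSeries
open scoped commutatorElement

namespace Pool.Agent.Poly

universe u

variable {G : Type*} [Group G]

/-- `γ_{i+1}(G)` and `γ_{j+1}(G)` have commutator in `γ_{i+j+2}(G)` -/
lemma comm_lcs_top (j : ℕ) : ∀ i : ℕ,
    ⁅(⊤ : Subgroup G).lowerCentralSeries i, (⊤ : Subgroup G).lowerCentralSeries j⁆ ≤
      (⊤ : Subgroup G).lowerCentralSeries (i + j + 1) := by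
  induction j with
  | zero => intro i; exact le_rfl
  | succ j ih =>
    intro i
    set K := (⊤ : Subgroup G).lowerCentralSeries (i + (j + 1) + 1) with hK
    let π := QuotientGroup.mk' K
    have hker : π.ker = K := QuotientGroup.ker_mk' K
    have key : ∀ H : Subgroup G, H.map π = ⊥ ↔ H ≤ K := by
      intro H
      rw [Subgroup.map_eq_bot_iff, hker]
    rw [← key, Subgroup.commutator_comm, Subgroup.map_commutator, Subgroup.lowerCentralSeries_succ,
      Subgroup.map_commutator]
    apply Subgroup.commutator_commutator_eq_bot_of_rotate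
    · rw [← Subgroup.map_commutator, ← Subgroup.map_commutator, key, Subgroup.commutator_comm ⊤,
        ← Subgroup.lowerCentralSeries_succ]
      refine (ih (i + 1)).trans ?_
      rw [hK]
      apply le_of_eq
      congr 1
      ring
    · rw [← Subgroup.map_commutator, ← Subgroup.map_commutator, key]
      refine (Subgroup.commutator_mono (ih i) le_rfl).trans ?_
      rw [← Subgroup.lowerCentralSeries_succ, hK]
      apply le_of_eq
      congr 1

lemma comm_lcs (S : Subgroup G) (i j : ℕ) :
    ⁅S.lowerCentralSeries i, S.lowerCentralSeries j⁆ ≤ S.lowerCentralSeries (i + j + 1) := by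
  rw [← Subgroup.top_subtype_lowerCentralSeries S i, ← Subgroup.top_subtype_lowerCentralSeries S j,
    ← Subgroup.top_subtype_lowerCentralSeries S (i + j + 1), ← Subgroup.map_commutator]
  exact Subgroup.map_mono (comm_lcs_top j i)

/-- the lower central series as a filtration indexed by positive integers -/
def NS.lcs (G : Type*) [Group G] : NS G where
  Φ k := (⊤ : Subgroup G).lowerCentralSeries (k - 1)
  anti := fun i j hi hij => Subgroup.lowerCentralSeries_antitone _ (by omega)
  comm := fun i j hi hj g hg h hh => by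
    have := comm_lcs_top (j - 1) (i - 1) (Subgroup.commutator_mem_commutator hg hh)
    have e : i - 1 + (j - 1) + 1 = i + j - 1 := by omega
    rw [e] at this
    exact this

/-- a filtration starting with the whole group contains the lower central series -/
lemma lcs_le_NS (N : NS G) (h1 : N.Φ 1 = ⊤) (k : ℕ) :
    (⊤ : Subgroup G).lowerCentralSeries k ≤ N.Φ (k + 1) := by
  induction k with
  | zero => rw [zero_add, h1]; exact le_top
  | succ k ih =>
    rw [Subgroup.lowerCentralSeries_succ, Subgroup.commutator_le]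
    intro a ha b _
    exact N.comm (k + 1) 1 (by omega) le_rfl a (ih ha) b (by rw [h1]; trivial)

/-- In a free group the Magnus filtration is the lower central series. -/
theorem magnus_witt {Z : Type u} (k : ℕ) :
    E (magT (fun _ : Z => 1) (fun _ => le_rfl)) (k + 1) ≤
      (⊤ : Subgroup (FreeGroup Z)).lowerCentralSeries k := by
  refine (MW (fun _ : Z => 1) (fun _ => le_rfl) (by omega : 1 ≤ k + 1)).trans ?_
  have := Gam_le (wt := fun _ : Z => 1) (NS.lcs (FreeGroup Z)) (fun z => by
    show _ ∈ (⊤ : Subgroup (FreeGroup Z)).lowerCentralSeries 0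
    rw [Subgroup.lowerCentralSeries_zero]; trivial) (k + 1)
  exact this

/-- symbols of two maps related in degree one are related in all degrees on the lower central
series -/
theorem sym_lcs {Λ Λ' : Type*} [Ring Λ] [Ring Λ'] (m : G →* Λ⟦X⟧ˣ) (m' : G →* Λ'⟦X⟧ˣ)
    (α : Λ →+* Λ') (hm : E m 1 = ⊤) (hm' : E m' 1 = ⊤)
    (h1 : ∀ g, sym m' 1 g = α (sym m 1 g)) (k : ℕ) (g : G)
    (hg : g ∈ (⊤ : Subgroup G).lowerCentralSeries k) :
    g ∈ E m (k + 1) ∧ g ∈ E m' (k + 1) ∧ sym m' (k + 1) g = α (sym m (k + 1) g) := by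
  let SG' : ∀ k : ℕ, 1 ≤ k → Subgroup G := fun k hk =>
    { carrier := {g | g ∈ E m k ∧ g ∈ E m' k ∧ sym m' k g = α (sym m k g)}
      one_mem' := ⟨Subgroup.one_mem _, Subgroup.one_mem _, by rw [sym_one, sym_one, map_zero]⟩
      mul_mem' := by
        rintro a b ⟨ha1, ha2, ha3⟩ ⟨hb1, hb2, hb3⟩
        refine ⟨Subgroup.mul_mem _ ha1 hb1, Subgroup.mul_mem _ ha2 hb2, ?_⟩
        rw [sym_mul hk ha2 hb2, sym_mul hk ha1 hb1, map_add, ha3, hb3]
      inv_mem' := by
        rintro a ⟨ha1, ha2, ha3⟩
        refine ⟨Subgroup.inv_mem _ ha1, Subgroup.inv_mem _ ha2, ?_⟩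
        rw [sym_inv hk ha2, sym_inv hk ha1, map_neg, ha3] }
  let N : NS G :=
    { Φ := fun k => if hk : 1 ≤ k then SG' k hk else ⊤
      anti := by
        intro i j hi hij g hg
        rw [dif_pos (hi.trans hij)] at hg
        rw [dif_pos hi]
        obtain ⟨h1, h2, h3⟩ := hg
        rcases Nat.eq_or_lt_of_le hij with e | hlt
        · subst e
          exact ⟨h1, h2, h3⟩
        · refine ⟨E_anti _ hij h1, E_anti _ hij h2, ?_⟩
          have e1 : sym m' i g = 0 := h2 i hlt
          have e2 : sym m i g = 0 := h1 i hlt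
          rw [e1, e2, map_zero]
      comm := by
        intro i j hi hj g hg k hk
        rw [dif_pos hi] at hg
        rw [dif_pos hj] at hk
        rw [dif_pos (by omega)]
        obtain ⟨h1, h2, h3⟩ := hg
        obtain ⟨k1, k2, k3⟩ := hk
        refine ⟨comm_mem_E h1 k1, comm_mem_E h2 k2, ?_⟩
        rw [sym_comm hi hj h2 k2, sym_comm hi hj h1 k1, map_sub, map_mul, map_mul, h3, k3] }
  have hN1 : N.Φ 1 = ⊤ := by
    rw [eq_top_iff]
    intro g _
    show g ∈ (if hk : 1 ≤ 1 then SG' 1 hk else ⊤)
    rw [dif_pos le_rfl]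
    exact ⟨by rw [hm]; trivial, by rw [hm']; trivial, h1 g⟩
  have hmem := lcs_le_NS N hN1 k hg
  have e : N.Φ (k + 1) = SG' (k + 1) (Nat.le_add_left 1 k) := by
    show (if hk : 1 ≤ k + 1 then SG' (k + 1) hk else ⊤) = _
    rw [dif_pos (Nat.le_add_left 1 k)]
  rw [e] at hmem
  exact hmem

end Pool.Agent.Poly
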