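import Mathlib
import Pool.Agent.Lib_helper1.Poly.Fox
import Pool.Agent.Lib_helper1.Poly.FM
import Pool.Agent.Lib_helper1.Poly.LCS

/-!
The equivariant embedding of the lower central factors of a normal subgroup of a free group into
a free abelian group with permuted basis.
-/

open PowerSeries
open scoped commutatorElement

namespace Pool.Agent.Poly

universe u v w

section

variable {X : Type u} {Q : Type v} [Group Q]

/-- action on the free ring -/
noncomputable def alp (q : Q) : FM (Q × X) →+* FM (Q × X) :=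
  MonoidAlgebra.mapDomainRingHom ℤ (FreeMonoid.map fun y => (q * y.1, y.2))

lemma alp_lin (q : Q) (v : Q × X →₀ ℤ) : alp q (lin v) = lin (act q v) := by
  have : (alp (X := X) q).toAddMonoidHom.comp lin = lin.comp (act q) := by
    apply Finsupp.addHom_ext
    rintro ⟨p, x⟩ n
    show alp q (lin (Finsupp.single (p, x) n)) = lin (act q (Finsupp.single (p, x) n))
    rw [lin_single, act_single, lin_single]
    unfold alp
    simp
  exact DFunLike.congr_fun this v

/-- coefficient at the empty word as a ring homomorphism -/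
noncomputable def eps {Y : Type*} : FM Y →+* ℤ :=
  MonoidAlgebra.liftNCRingHom (RingHom.id ℤ) (FreeMonoid.lift fun _ => 0)
    (fun _ _ => Commute.all _ _)

lemma eps_eq {Y : Type*} (t : FM Y) : eps t = t.coeff 1 := by
  let c1 : FM Y →+ ℤ :=
    { toFun := fun t => t.coeff 1
      map_zero' := rfl
      map_add' := fun a b => by simp }
  have : (eps (Y := Y)).toAddMonoidHom = c1 := by
    apply MonoidAlgebra.addMonoidHom_ext
    intro m n
    show eps (MonoidAlgebra.single m n) = (MonoidAlgebra.single m n).coeff 1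
    unfold eps
    classical
    rw [MonoidAlgebra.liftNCRingHom_single, MonoidAlgebra.coeff_single, Finsupp.single_apply]
    induction m using FreeMonoid.casesOn with
    | one => simp
    | of_mul y m =>
      rw [map_mul, FreeMonoid.lift_eval_of, zero_mul, mul_zero, if_neg]
      intro h
      have := congrArg FreeMonoid.length h
      simp at this
  exact DFunLike.congr_fun this t

lemma eps_lin {Y : Type*} (v : Y →₀ ℤ) : eps (lin v) = 0 := by
  have : (eps (Y := Y)).toAddMonoidHom.comp lin = 0 := by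
    apply Finsupp.addHom_ext
    intro y n
    show eps (lin (Finsupp.single y n)) = 0
    rw [lin_single]
    unfold eps
    rw [MonoidAlgebra.liftNCRingHom_single, FreeMonoid.lift_eval_of, mul_zero]
  exact DFunLike.congr_fun this v

end

/-- the Magnus map of a free group -/
noncomputable abbrev magF (B : Type*) : FreeGroup B →* (FR B)⟦X⟧ˣ :=
  magT (fun _ : B => 1) (fun _ => le_rfl)

lemma E_magF_one (B : Type*) : E (magF B) 1 = ⊤ :=
  eq_top_of_gens fun z => of_mem_E (fun _ : B => 1) (fun _ => le_rfl) FR.ι z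

lemma lcs_le_E {Λ G : Type*} [Ring Λ] [Group G] (m : G →* Λ⟦X⟧ˣ) (h : E m 1 = ⊤) (k : ℕ) :
    (⊤ : Subgroup G).lowerCentralSeries k ≤ E m (k + 1) :=
  lcs_le_NS (NS.ofE m) h k

lemma eps_sym_magF {B : Type*} (k : ℕ) (u : FreeGroup B) :
    (FR.lift (fun _ : B => (0 : ℤ))) (sym (magF B) k u) = 0 := by
  rw [← sym_coef, coef_mag]
  have : mag (fun _ : B => 1) (fun _ => le_rfl) ((FR.lift (fun _ : B => (0 : ℤ))) ∘ FR.ι) = 1 := by
    apply FreeGroup.ext_hom
    intro z
    apply Units.ext
    have e := mag_of (fun _ : B => 1) (fun _ => le_rfl)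
      ((FR.lift (fun _ : B => (0 : ℤ))) ∘ FR.ι) z
    rw [Function.comp_apply, FR.lift_ι, map_zero, mul_zero, sub_eq_zero] at e
    rw [e]
    simp
  rw [this]
  simp [sym]

section

variable {X : Type u} {Q : Type v} [Group Q] (π : FreeGroup X →* Q)
  {B : Type w} (e : π.ker ≃* FreeGroup B)

/-- Fox derivatives of the basis elements of the kernel -/
noncomputable def wB (b : B) : Q × X →₀ ℤ := D π (e.symm (FreeGroup.of b))

lemma wB_indep (hπ : Function.Surjective π) : LinearIndependent ℤ (wB π e) := by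
  rw [linearIndependent_iff]
  intro l hl
  let τ : FreeGroup B →* Multiplicative (B →₀ ℤ) :=
    FreeGroup.lift fun b => Multiplicative.ofAdd (Finsupp.single b 1)
  have hτ : ∀ l : B →₀ ℤ, ∃ u, τ u = Multiplicative.ofAdd l := by
    intro l
    induction l using Finsupp.induction_linear with
    | zero => exact ⟨1, by simp⟩
    | add f g hf hg =>
      obtain ⟨u, hu⟩ := hf
      obtain ⟨v, hv⟩ := hg
      exact ⟨u * v, by rw [map_mul, hu, hv, ofAdd_add]⟩
    | single b n =>
      refine ⟨FreeGroup.of b ^ n, ?_⟩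
      rw [map_zpow]
      simp only [τ]
      rw [FreeGroup.lift_apply_of, ← ofAdd_zsmul, Finsupp.smul_single]
      simp
  obtain ⟨u, hu⟩ := hτ l
  have hcomp : (DS π).comp e.symm.toMonoidHom =
      (AddMonoidHom.toMultiplicative
        (Finsupp.linearCombination ℤ (wB π e)).toAddMonoidHom).comp τ := by
    apply FreeGroup.ext_hom
    intro b
    rw [MonoidHom.comp_apply, MonoidHom.comp_apply]
    simp only [τ]
    rw [FreeGroup.lift_apply_of]
    show Multiplicative.ofAdd (D π (e.symm (FreeGroup.of b))) =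
      Multiplicative.ofAdd (Finsupp.linearCombination ℤ (wB π e) (Finsupp.single b 1))
    rw [Finsupp.linearCombination_single, one_smul]
    rfl
  have h1 : D π (e.symm u) = 0 := by
    have := DFunLike.congr_fun hcomp u
    rw [MonoidHom.comp_apply, MonoidHom.comp_apply, hu] at this
    have h2 : Multiplicative.ofAdd (D π (e.symm u)) =
      Multiplicative.ofAdd (Finsupp.linearCombination ℤ (wB π e) l) := this
    rw [hl] at h2
    exact Multiplicative.ofAdd.injective h2
  have h2 := mem_comm_of_D_eq_zero π hπ (e.symm u).2 h1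
  have h3 : e.symm u ∈ commutator π.ker := by
    have h4 : (commutator π.ker).map π.ker.subtype = ⁅π.ker, π.ker⁆ := by
      rw [map_commutator_eq]; simp
    rw [← h4, Subgroup.mem_map] at h2
    obtain ⟨v, hv, hv'⟩ := h2
    have : v = e.symm u := Subtype.ext hv'
    rwa [← this]
  have h4 := Abelianization.commutator_subset_ker (τ.comp e.toMonoidHom) h3
  rw [MonoidHom.mem_ker, MonoidHom.comp_apply] at h4
  have h5 : τ (e (e.symm u)) = 1 := h4
  rw [MulEquiv.apply_symm_apply, hu] at h5
  exact Multiplicative.ofAdd.injective h5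

/-- the Magnus map on the kernel with values in the free ring on `Q × X` -/
noncomputable def muK : π.ker →* (FM (Q × X))⟦X⟧ˣ :=
  ((coef (phi (wB π e))).comp (magF B)).comp e.toMonoidHom

lemma sym_muK (k : ℕ) (s : π.ker) :
    sym (muK π e) k s = phi (wB π e) (sym (magF B) k (e s)) := by
  have h : sym (muK π e) k s = sym ((coef (phi (wB π e))).comp (magF B)) k (e s) := rfl
  rw [h, sym_coef]

lemma E_muK_one : E (muK π e) 1 = ⊤ := by
  rw [eq_top_iff]
  intro s _
  rw [mem_E_iff]
  intro i hi
  rw [sym_muK]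
  have : e s ∈ E (magF B) 1 := by rw [E_magF_one]; trivial
  rw [mem_E_iff] at this
  rw [this i hi, map_zero]

lemma sym_muK_one (s : π.ker) : sym (muK π e) 1 s = lin (D π s) := by
  rw [sym_muK]
  have key : ∀ u : FreeGroup B, phi (wB π e) (sym (magF B) 1 u) = lin (D π (e.symm u)) := by
    have hE : ∀ u, u ∈ E (magF B) 1 := fun u => by rw [E_magF_one]; trivial
    intro u
    induction u using FreeGroup.induction_on with
    | C1 => rw [sym_one, map_zero, map_one, Subgroup.coe_one, D_one, map_zero]
    | of b =>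
      have := sym_of (fun _ : B => 1) (fun _ => le_rfl) FR.ι b
      rw [this, phi_ι]
      rfl
    | inv_of b h =>
      rw [sym_inv le_rfl (hE _), map_neg, h, map_inv, Subgroup.coe_inv, D_inv,
        (e.symm (FreeGroup.of b)).2, inv_one, act_one, map_neg]
    | mul a b ha hb =>
      rw [sym_mul le_rfl (hE _) (hE _), map_add, ha, hb, map_mul, Subgroup.coe_mul, D_mul,
        (e.symm a).2, act_one, map_add]
  rw [key, MulEquiv.symm_apply_apply]

lemma sym_muK_conj (k : ℕ) (f : FreeGroup X) (s : π.ker)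
    (hs : s ∈ (⊤ : Subgroup π.ker).lowerCentralSeries k) :
    sym (muK π e) (k + 1) (MulAut.conjNormal f s) = alp (π f) (sym (muK π e) (k + 1) s) := by
  have h := sym_lcs (muK π e) ((muK π e).comp (MulAut.conjNormal f : MulAut π.ker).toMonoidHom)
    (alp (π f)) (E_muK_one π e) (by
      rw [eq_top_iff]
      intro g _
      show (MulAut.conjNormal f g) ∈ E (muK π e) 1
      rw [E_muK_one]; trivial) (by
      intro g
      show sym (muK π e) 1 (MulAut.conjNormal f g) = _
      rw [sym_muK_one, sym_muK_one, alp_lin]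
      congr 1
      rw [MulAut.conjNormal_apply, D_conj π f g g.2]) k s hs
  exact h.2.2

lemma sym_muK_eq_zero (hπ : Function.Surjective π) (k : ℕ) (s : π.ker)
    (hs : s ∈ (⊤ : Subgroup π.ker).lowerCentralSeries k) :
    sym (muK π e) (k + 1) s = 0 ↔ s ∈ (⊤ : Subgroup π.ker).lowerCentralSeries (k + 1) := by
  constructor
  · intro h
    rw [sym_muK] at h
    have h1 : sym (magF B) (k + 1) (e s) = 0 := by
      apply phi_injective (wB π e) (wB_indep π e hπ)
      rw [h, map_zero]
    have hmap : ∀ n, ((⊤ : Subgroup π.ker).lowerCentralSeries n).map e.toMonoidHom =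
        (⊤ : Subgroup (FreeGroup B)).lowerCentralSeries n := by
      intro n
      rw [Subgroup.map_lowerCentralSeries]
      congr 1
      exact Subgroup.map_top_of_surjective _ e.surjective
    have h2 : e s ∈ (⊤ : Subgroup (FreeGroup B)).lowerCentralSeries k := by
      rw [← hmap]
      exact Subgroup.mem_map_of_mem _ hs
    have h3 : e s ∈ E (magF B) (k + 2) :=
      mem_E_succ.2 ⟨lcs_le_E _ (E_magF_one B) k h2, h1⟩
    have h4 := magnus_witt (k + 1) h3
    rw [← hmap, Subgroup.mem_map] at h4
    obtain ⟨s', hs', he⟩ := h4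
    have : s' = s := e.injective he
    rwa [← this]
  · intro h
    exact (lcs_le_E _ (E_muK_one π e) (k + 1) h) (k + 1) (Nat.lt_succ_self _)

lemma eps_sym_muK (k : ℕ) (s : π.ker) : (sym (muK π e) k s).coeff 1 = 0 := by
  rw [← eps_eq, sym_muK]
  have : (eps (Y := Q × X)).comp (phi (wB π e)) = FR.lift (fun _ : B => (0 : ℤ)) := by
    apply FR.hom_ext
    intro b
    rw [RingHom.comp_apply, phi_ι, eps_lin, FR.lift_ι]
  rw [← RingHom.comp_apply, this, eps_sym_magF]

end

/-- The equivariant embedding of the lower central factors of a normal subgroup of a free group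
into a free abelian group with permuted basis. -/
theorem core {X : Type u} {Q : Type v} [Group Q] (π : FreeGroup X →* Q)
    (hπ : Function.Surjective π) (k : ℕ) :
    ∃ δ : FreeGroup X → (FreeMonoid (Q × X) →₀ ℤ),
      (∀ a ∈ π.ker.lowerCentralSeries k, ∀ b ∈ π.ker.lowerCentralSeries k,
        δ (a * b) = δ a + δ b) ∧
      (∀ f, ∀ a ∈ π.ker.lowerCentralSeries k, δ (f * a * f⁻¹) =
        (δ a).mapDomain (FreeMonoid.map fun y => (π f * y.1, y.2))) ∧
      (∀ a ∈ π.ker.lowerCentralSeries k, δ a = 0 ↔ a ∈ π.ker.lowerCentralSeries (k + 1)) ∧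
      (∀ a ∈ π.ker.lowerCentralSeries k, δ a 1 = 0) := by
  classical
  have : IsFreeGroup π.ker := subgroupIsFreeOfIsFree π.ker
  let e := IsFreeGroup.toFreeGroup π.ker
  let δ : FreeGroup X → (FreeMonoid (Q × X) →₀ ℤ) := fun f =>
    if h : f ∈ π.ker then (sym (muK π e) (k + 1) ⟨f, h⟩).coeff else 0
  have hle : ∀ n, π.ker.lowerCentralSeries n ≤ π.ker := fun n => by
    have := Subgroup.lowerCentralSeries_antitone π.ker (Nat.zero_le n)
    rwa [Subgroup.lowerCentralSeries_zero] at this
  have hmem : ∀ n, ∀ a (ha : a ∈ π.ker), a ∈ π.ker.lowerCentralSeries n ↔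
      (⟨a, ha⟩ : π.ker) ∈ (⊤ : Subgroup π.ker).lowerCentralSeries n := by
    intro n a ha
    rw [← Subgroup.top_subtype_lowerCentralSeries π.ker n, Subgroup.mem_map]
    constructor
    · rintro ⟨b, hb, hb'⟩
      have : b = ⟨a, ha⟩ := Subtype.ext hb'
      rwa [← this]
    · intro h
      exact ⟨_, h, rfl⟩
  have hδ : ∀ a (ha : a ∈ π.ker), δ a = (sym (muK π e) (k + 1) ⟨a, ha⟩).coeff := by
    intro a ha
    simp only [δ]
    rw [dif_pos ha]
  refine ⟨δ, ?_, ?_, ?_, ?_⟩
  · intro a ha b hb
    have ha' := hle k ha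
    have hb' := hle k hb
    rw [hδ a ha', hδ b hb', hδ (a * b) (Subgroup.mul_mem _ ha' hb')]
    have h1 : (⟨a, ha'⟩ : π.ker) ∈ E (muK π e) (k + 1) :=
      lcs_le_E _ (E_muK_one π e) k ((hmem k a ha').1 ha)
    have h2 : (⟨b, hb'⟩ : π.ker) ∈ E (muK π e) (k + 1) :=
      lcs_le_E _ (E_muK_one π e) k ((hmem k b hb').1 hb)
    have h3 := sym_mul (Nat.le_add_left 1 k) h1 h2
    rw [← MonoidAlgebra.coeff_add, ← h3]
    rfl
  · intro f a ha
    have ha' := hle k ha
    have hn : (π.ker).Normal := inferInstance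
    rw [hδ a ha', hδ _ (hn.conj_mem a ha' f)]
    have h1 := sym_muK_conj π e k f ⟨a, ha'⟩ ((hmem k a ha').1 ha)
    have h2 : (⟨f * a * f⁻¹, hn.conj_mem a ha' f⟩ : π.ker) = MulAut.conjNormal f ⟨a, ha'⟩ := by
      apply Subtype.ext
      rw [MulAut.conjNormal_apply]
    rw [h2, h1]
    unfold alp
    rfl
  · intro a ha
    have ha' := hle k ha
    rw [hδ a ha', hmem (k + 1) a ha', ← sym_muK_eq_zero π e hπ k _ ((hmem k a ha').1 ha)]
    exact MonoidAlgebra.coeff_eq_zero
  · intro a ha
    rw [hδ a (hle k ha)]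
    exact eps_sym_muK π e (k + 1) _

end Pool.Agent.Poly
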