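import Mathlib

/-!
Definitions for the statement of the theorem.
-/

namespace Pool.Agent.Poly

/-- For a subgroup `H` of a group and a sequence `c`: `N₀ = γ₂(H)` and
`N_{i+1} = γ_{c_{i+1}+1}(N_i)`.  (In Mathlib `S.lowerCentralSeries n` is `γ_{n+1}(S)`:
`S.lowerCentralSeries 0 = S` and `S.lowerCentralSeries (n+1) = ⁅S.lowerCentralSeries n, S⁆`.) -/
def polySeries {G : Type*} [Group G] (H : Subgroup G) (c : ℕ → ℕ) : ℕ → Subgroup G
  | 0 => H.lowerCentralSeries 1
  | i + 1 => (polySeries H c i).lowerCentralSeries (c (i + 1))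

instance lowerCentralSeries_normal {G : Type*} [Group G] (S : Subgroup G) [S.Normal] (n : ℕ) :
    (S.lowerCentralSeries n).Normal := by
  induction n with
  | zero => rwa [Subgroup.lowerCentralSeries_zero]
  | succ n ih => rw [Subgroup.lowerCentralSeries_succ]; infer_instance

instance polySeries_normal {G : Type*} [Group G] (H : Subgroup G) [H.Normal] (c : ℕ → ℕ) (i : ℕ) :
    (polySeries H c i).Normal := by
  induction i with
  | zero => unfold polySeries; infer_instance
  | succ i ih => unfold polySeries; infer_instance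

/-- The free polynilpotent group of rank `r` and class `(1, c 1, …, c l)`. -/
abbrev FreePolynilpotent (r : ℕ) (c : ℕ → ℕ) (l : ℕ) : Type :=
  FreeGroup (Fin r) ⧸ polySeries (⊤ : Subgroup (FreeGroup (Fin r))) c l

/-- `H` is a retract of `G`: there is a homomorphism `G → H` which is the identity on `H`. -/
def IsRetract {G : Type*} [Group G] (H : Subgroup G) : Prop :=
  ∃ ρ : G →* H, ∀ h : H, ρ h = h

/-- `H` is algebraically closed in `G`: every finite system of equations `w = 1`, `w ∈ S`, with
`S` a finite subset of `F(x₁, …, xₙ) * H`, that has a solution in `G` has a solution in `H`. -/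
def IsAlgebraicallyClosed {G : Type*} [Group G] (H : Subgroup G) : Prop :=
  ∀ (n : ℕ) (S : Finset (Monoid.Coprod (FreeGroup (Fin n)) H)),
    (∃ g : Fin n → G, ∀ w ∈ S, Monoid.Coprod.lift (FreeGroup.lift g) H.subtype w = 1) →
    ∃ g : Fin n → H, ∀ w ∈ S, Monoid.Coprod.lift (FreeGroup.lift g) (MonoidHom.id H) w = 1

/-- `H` is verbally closed in `G`: every equation `w(x₁, …, xₙ) = h` with `w` a word and `h ∈ H`
that has a solution in `G` has a solution in `H`. -/
def IsVerballyClosed {G : Type*} [Group G] (H : Subgroup G) : Prop :=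
  ∀ (n : ℕ) (w : FreeGroup (Fin n)) (h : H),
    (∃ g : Fin n → G, FreeGroup.lift g w = h) → ∃ g : Fin n → H, FreeGroup.lift g w = h

end Pool.Agent.Poly
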