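import Mathlib

/-!
Følner sets for solvable groups and the Ore condition for group rings.
-/

open Filter Topology

namespace Pool.Agent.Poly

/-- the (right) Følner property -/
def Fol (G : Type*) [Group G] : Prop :=
  ∀ (S : Finset G) (n : ℕ), ∃ Ω Ω' : Finset G, Ω.Nonempty ∧ (∀ x ∈ Ω, ∀ s ∈ S, x * s ∈ Ω') ∧
    n * Ω'.card ≤ (n + 1) * Ω.card

open Classical in
theorem Fol.of_comm (A : Type*) [CommGroup A] : Fol A := by
  intro S n
  let P : (k : ℕ) → (S → Fin (k + 1)) → A := fun k φ => ∏ s : S, (s : A) ^ (φ s : ℕ)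
  let B : ℕ → Finset A := fun k => Finset.univ.image (P k)
  have hBcard : ∀ k, (B k).card ≤ (k + 1) ^ S.card := by
    intro k
    refine Finset.card_image_le.trans ?_
    simp
  have hBS : ∀ k, ∀ x ∈ B k, ∀ s ∈ S, x * s ∈ B (k + 1) := by
    intro k x hx s hs
    simp only [B, Finset.mem_image, Finset.mem_univ, true_and] at hx ⊢
    obtain ⟨φ, rfl⟩ := hx
    refine ⟨fun t => if t = ⟨s, hs⟩ then ⟨φ t + 1, by have := (φ t).2; omega⟩ else
      ⟨φ t, by have := (φ t).2; omega⟩, ?_⟩
    simp only [P]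
    rw [← Finset.prod_erase_mul _ _ (Finset.mem_univ (⟨s, hs⟩ : S)),
      ← Finset.prod_erase_mul _ _ (Finset.mem_univ (⟨s, hs⟩ : S)), mul_assoc]
    congr 1
    · apply Finset.prod_congr rfl
      intro t ht
      rw [if_neg (Finset.ne_of_mem_erase ht)]
    · rw [if_pos rfl, pow_succ]
  have hne : ∀ k, (B k).Nonempty := by
    intro k
    simp only [B]
    exact Finset.Nonempty.image Finset.univ_nonempty _
  by_contra hcon
  push Not at hcon
  have hgrow : ∀ k, (n + 1) * (B k).card < n * (B (k + 1)).card := fun k =>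
    hcon (B k) (B (k + 1)) (hne k) (hBS k)
  have hn : 0 < n := by
    rcases Nat.eq_zero_or_pos n with h | h
    · have := hgrow 0
      rw [h] at this
      simp at this
    · exact h
  have hnR : (0 : ℝ) < n := by exact_mod_cast hn
  set c : ℝ := (n + 1) / n with hc
  have hc1 : 1 < c := by
    rw [hc, lt_div_iff₀ hnR]
    linarith
  have hlow : ∀ k, c ^ k ≤ (B k).card := by
    intro k
    induction k with
    | zero =>
      rw [pow_zero]
      exact_mod_cast (hne 0).card_pos
    | succ k ih =>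
      have h1 : ((n : ℝ) + 1) * (B k).card ≤ n * (B (k + 1)).card := by
        exact_mod_cast (hgrow k).le
      have h2 : c * (B k).card ≤ (B (k + 1)).card := by
        rw [hc, div_mul_eq_mul_div, div_le_iff₀ hnR]
        linarith
      calc c ^ (k + 1) = c * c ^ k := by ring
        _ ≤ c * (B k).card := by
          apply mul_le_mul_of_nonneg_left ih
          linarith
        _ ≤ _ := h2
  have hlim := tendsto_pow_const_div_const_pow_of_one_lt S.card hc1
  have hev := (hlim.comp (tendsto_add_atTop_nat 1)).eventually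
    (gt_mem_nhds (show (0 : ℝ) < 1 / c by positivity))
  obtain ⟨k, hk⟩ := hev.exists
  have hk' : (((k + 1 : ℕ) : ℝ)) ^ S.card / c ^ (k + 1) < 1 / c := hk
  have h1 : (((k + 1 : ℕ) : ℝ)) ^ S.card < c ^ k := by
    rw [div_lt_div_iff₀ (by positivity) (by positivity), pow_succ] at hk'
    have hcp : 0 < c := by linarith
    have : (((k + 1 : ℕ) : ℝ)) ^ S.card * c < c ^ k * c := by linarith
    exact lt_of_mul_lt_mul_right this hcp.le
  have h2 : ((B k).card : ℝ) ≤ (((k + 1 : ℕ) : ℝ)) ^ S.card := by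
    exact_mod_cast hBcard k
  have := hlow k
  linarith

open Classical in
theorem Fol.ext {G Γ : Type*} [Group G] [Group Γ] (p : G →* Γ) (hp : Function.Surjective p)
    (hΓ : Fol Γ) (hK : Fol p.ker) : Fol G := by
  intro S n
  rcases Nat.eq_zero_or_pos n with hn | hn
  · subst hn
    exact ⟨{1}, Finset.image (fun s => 1 * s) S, by simp, fun x hx s hs => by
      rw [Finset.mem_singleton] at hx
      rw [hx]
      exact Finset.mem_image_of_mem _ hs, by simp⟩
  obtain ⟨ΩΓ, ΩΓ', hΓ1, hΓ2, hΓ3⟩ := hΓ (S.image p) (3 * n)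
  let σ : Γ → G := Function.surjInv hp
  have hσ : ∀ t, p (σ t) = t := Function.surjInv_eq hp
  let cc : Γ × G → p.ker := fun y => ⟨σ y.1 * y.2 * (σ (y.1 * p y.2))⁻¹, by
    rw [MonoidHom.mem_ker, map_mul, map_mul, map_inv, hσ, hσ, mul_inv_cancel]⟩
  obtain ⟨ΩA, ΩA', hA1, hA2, hA3⟩ := hK ((ΩΓ ×ˢ S).image cc) (3 * n)
  let j : p.ker × Γ → G := fun y => y.1 * σ y.2
  have hj : Function.Injective j := by
    rintro ⟨a, t⟩ ⟨a', t'⟩ h
    have h' : (a : G) * σ t = a' * σ t' := h
    have ht : t = t' := by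
      have := congrArg p h'
      rw [map_mul, map_mul, a.2, a'.2, one_mul, one_mul, hσ, hσ] at this
      exact this
    subst ht
    have := mul_right_cancel h'
    rw [Prod.mk.injEq]
    exact ⟨Subtype.ext this, rfl⟩
  refine ⟨(ΩA ×ˢ ΩΓ).image j, (ΩA' ×ˢ ΩΓ').image j, ?_, ?_, ?_⟩
  · exact (hA1.product hΓ1).image _
  · intro x hx s hs
    rw [Finset.mem_image] at hx ⊢
    obtain ⟨⟨a, t⟩, hat, rfl⟩ := hx
    rw [Finset.mem_product] at hat
    refine ⟨⟨a * cc (t, s), t * p s⟩, ?_, ?_⟩
    · rw [Finset.mem_product]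
      exact ⟨hA2 a hat.1 _ (Finset.mem_image_of_mem _ (Finset.mem_product.2 ⟨hat.2, hs⟩)),
        hΓ2 t hat.2 _ (Finset.mem_image_of_mem _ hs)⟩
    · simp only [j, cc, Subgroup.coe_mul]
      group
  · rw [Finset.card_image_of_injective _ hj, Finset.card_image_of_injective _ hj,
      Finset.card_product, Finset.card_product]
    have h1 := Nat.mul_le_mul hA3 hΓ3
    have h2 : 9 * n * (n * (ΩA'.card * ΩΓ'.card)) ≤ 9 * n * ((n + 1) * (ΩA.card * ΩΓ.card)) := by
      calc 9 * n * (n * (ΩA'.card * ΩΓ'.card)) = 3 * n * ΩA'.card * (3 * n * ΩΓ'.card) := by ring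
        _ ≤ (3 * n + 1) * ΩA.card * ((3 * n + 1) * ΩΓ.card) := h1
        _ = ((3 * n + 1) * (3 * n + 1)) * (ΩA.card * ΩΓ.card) := by ring
        _ ≤ (9 * n * (n + 1)) * (ΩA.card * ΩΓ.card) := by
          apply Nat.mul_le_mul_right
          nlinarith
        _ = _ := by ring
    exact Nat.le_of_mul_le_mul_left h2 (by omega)

/-- an element of the group ring with support in `Ω` -/
noncomputable def ofFun {G : Type*} (Ω : Finset G) : (Ω → ℤ) →ₗ[ℤ] MonoidAlgebra ℤ G where
  toFun f := ∑ x : Ω, MonoidAlgebra.single (x : G) (f x)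
  map_add' f g := by
    rw [← Finset.sum_add_distrib]
    apply Finset.sum_congr rfl
    intro x _
    rw [Pi.add_apply, MonoidAlgebra.single_add]
  map_smul' n f := by
    rw [Finset.smul_sum]
    apply Finset.sum_congr rfl
    intro x _
    simp

lemma ofFun_coeff {G : Type*} (Ω : Finset G) (f : Ω → ℤ) (x : Ω) :
    (ofFun Ω f).coeff x = f x := by
  classical
  show (∑ x : Ω, MonoidAlgebra.single (x : G) (f x)).coeff x = f x
  rw [MonoidAlgebra.coeff_sum, Finset.sum_apply', Finset.sum_eq_single x]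
  · simp
  · intro y _ hy
    rw [MonoidAlgebra.coeff_single, Finsupp.single_apply, if_neg]
    intro h
    exact hy (Subtype.ext h)
  · intro h
    exact absurd (Finset.mem_univ _) h

lemma ofFun_mul_coeff {G : Type*} [Group G] (Ω : Finset G) (f : Ω → ℤ) (α : MonoidAlgebra ℤ G)
    (g : G) (h : ∀ x ∈ Ω, x⁻¹ * g ∉ α.coeff.support) : (ofFun Ω f * α).coeff g = 0 := by
  show ((∑ x : Ω, MonoidAlgebra.single (x : G) (f x)) * α).coeff g = 0
  rw [Finset.sum_mul, MonoidAlgebra.coeff_sum, Finset.sum_apply']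
  apply Finset.sum_eq_zero
  intro x _
  rw [MonoidAlgebra.coeff_single_mul_apply]
  have := h x x.2
  rw [Finsupp.notMem_support_iff] at this
  rw [this, mul_zero]

open Classical in
/-- the Ore condition -/
theorem Fol.ore {G : Type*} [Group G] (hG : Fol G) (α β : MonoidAlgebra ℤ G) :
    ∃ p q : MonoidAlgebra ℤ G, (p ≠ 0 ∨ q ≠ 0) ∧ p * α + q * β = 0 := by
  obtain ⟨Ω, Ω', h1, h2, h3⟩ := hG (α.coeff.support ∪ β.coeff.support) 2
  let T : ((Ω ⊕ Ω) → ℤ) →ₗ[ℤ] (Ω' → ℤ) :=
    { toFun := fun f y =>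
        (ofFun Ω (f ∘ Sum.inl) * α + ofFun Ω (f ∘ Sum.inr) * β).coeff y
      map_add' := by
        intro f g
        funext y
        have e1 : (f + g) ∘ (Sum.inl : Ω → Ω ⊕ Ω) = f ∘ Sum.inl + g ∘ Sum.inl := rfl
        have e2 : (f + g) ∘ (Sum.inr : Ω → Ω ⊕ Ω) = f ∘ Sum.inr + g ∘ Sum.inr := rfl
        simp only [e1, e2, map_add, add_mul, MonoidAlgebra.coeff_add, Finsupp.add_apply,
          Pi.add_apply]
        ring
      map_smul' := by
        intro n f
        funext y
        have e1 : (n • f) ∘ (Sum.inl : Ω → Ω ⊕ Ω) = n • (f ∘ Sum.inl) := rfl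
        have e2 : (n • f) ∘ (Sum.inr : Ω → Ω ⊕ Ω) = n • (f ∘ Sum.inr) := rfl
        simp only [e1, e2, map_smul, smul_mul_assoc, MonoidAlgebra.coeff_add,
          MonoidAlgebra.coeff_smul, Finsupp.add_apply, Finsupp.smul_apply, Pi.smul_apply,
          smul_add, RingHom.id_apply] }
  have hT : ¬ Function.Injective T := by
    intro hinj
    have := card_le_of_injective ℤ T hinj
    rw [Fintype.card_sum, Fintype.card_coe, Fintype.card_coe] at this
    have := h1.card_pos
    omega
  have hT' : ∃ f, T f = 0 ∧ f ≠ 0 := by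
    by_contra hcon
    push Not at hcon
    apply hT
    exact (injective_iff_map_eq_zero T).2 hcon
  obtain ⟨f, hf, hf0⟩ := hT'
  refine ⟨ofFun Ω (f ∘ Sum.inl), ofFun Ω (f ∘ Sum.inr), ?_, ?_⟩
  · by_contra hcon
    push Not at hcon
    obtain ⟨c1, c2⟩ := hcon
    apply hf0
    funext y
    rcases y with x | x
    · have := ofFun_coeff Ω (f ∘ Sum.inl) x
      rw [c1] at this
      exact this.symm
    · have := ofFun_coeff Ω (f ∘ Sum.inr) x
      rw [c2] at this
      exact this.symm
  · ext g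
    by_cases hg : g ∈ Ω'
    · exact congrFun hf ⟨g, hg⟩
    · rw [MonoidAlgebra.coeff_add, Finsupp.add_apply, ofFun_mul_coeff, ofFun_mul_coeff]
      · simp
      · intro x hx hxs
        apply hg
        have := h2 x hx _ (Finset.mem_union_right _ hxs)
        rwa [mul_inv_cancel_left] at this
      · intro x hx hxs
        apply hg
        have := h2 x hx _ (Finset.mem_union_left _ hxs)
        rwa [mul_inv_cancel_left] at this

end Pool.Agent.Poly
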