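import Mathlib
import Pool.Agent.Lib_helper1.Poly.Fol

/-!
Groups with unique products, unique roots, a gap property for powers and Følner sets.
-/

namespace Pool.Agent.Poly

/-- the class of groups used in the proof -/
structure Good (G : Type*) [Group G] : Prop where
  up : UniqueProds G
  roots : ∀ m : ℕ, 1 ≤ m → ∀ z a : G, z ^ m = a ^ m → z = a
  gap : ∀ a c : G, c ≠ 1 → ∃ m0 : ℕ, ∀ m ≥ m0, ∀ z : G, z ^ m ≠ a ^ m * c
  fol : Fol G

section escape

variable {G Y : Type*} [Group G] [MulAction G Y]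

lemma escape (g : G) (y : Y) (U : Finset Y) (hy : y ∈ U) (h : ∀ n : ℕ, 1 ≤ n → g ^ n • y ≠ y) :
    ∃ j : ℕ, g ^ j • y ∈ U ∧ g ^ (j + 1) • y ∉ U := by
  by_contra hcon
  push Not at hcon
  have hall : ∀ j : ℕ, g ^ j • y ∈ U := by
    intro j
    induction j with
    | zero => simpa using hy
    | succ j ih => exact hcon j ih
  have hinj : Function.Injective (fun j : ℕ => (⟨g ^ j • y, hall j⟩ : U)) := by
    intro i j hij
    have hij' : g ^ i • y = g ^ j • y := congrArg Subtype.val hij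
    rcases lt_trichotomy i j with hlt | heq | hlt
    · exfalso
      apply h (j - i) (by omega)
      have : g ^ j = g ^ i * g ^ (j - i) := by rw [← pow_add]; congr 1; omega
      rw [this, mul_smul] at hij'
      exact (smul_left_cancel _ hij').symm
    · exact heq
    · exfalso
      apply h (i - j) (by omega)
      have : g ^ i = g ^ j * g ^ (i - j) := by rw [← pow_add]; congr 1; omega
      rw [this, mul_smul] at hij'
      exact smul_left_cancel _ hij'
  exact not_injective_infinite_finite _ hinj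

/-- the action on finitely supported functions -/
noncomputable def sg (g : G) : (Y →₀ ℤ) →+ (Y →₀ ℤ) :=
  Finsupp.mapDomain.addMonoidHom (g • ·)

lemma sg_apply (g : G) (v : Y →₀ ℤ) (y : Y) : sg g v (g • y) = v y := by
  unfold sg
  rw [Finsupp.mapDomain.addMonoidHom_apply]
  exact Finsupp.mapDomain_apply (MulAction.injective g) v y

lemma sg_mul (g h : G) (v : Y →₀ ℤ) : sg (g * h) v = sg g (sg h v) := by
  unfold sg
  simp only [Finsupp.mapDomain.addMonoidHom_apply]
  rw [← Finsupp.mapDomain_comp]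
  congr 1
  funext y
  simp [mul_smul]

lemma sg_one (v : Y →₀ ℤ) : sg (1 : G) v = v := by
  unfold sg
  simp only [Finsupp.mapDomain.addMonoidHom_apply, one_smul]
  exact Finsupp.mapDomain_id

lemma sg_triv (g : G) (h : ∀ y : Y, g • y = y) (v : Y →₀ ℤ) : sg g v = v := by
  unfold sg
  simp only [Finsupp.mapDomain.addMonoidHom_apply, h]
  exact Finsupp.mapDomain_id

end escape

/-- the data needed for the extension theorem -/
structure ExtData {G Γ Y : Type*} [Group G] [Group Γ] [MulAction G Y] (p : G →* Γ)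
    (δ : G → (Y →₀ ℤ)) : Prop where
  mul : ∀ a b, p a = 1 → p b = 1 → δ (a * b) = δ a + δ b
  conj : ∀ g a, p a = 1 → δ (g * a * g⁻¹) = sg g (δ a)
  inj : ∀ a, p a = 1 → δ a = 0 → a = 1
  per : ∀ a, p a = 1 → ∀ y ∈ (δ a).support, ∀ g : G, ∀ n : ℕ, 1 ≤ n → g ^ n • y = y →
    ∀ y' : Y, g • y' = y'

namespace ExtData

variable {G Γ Y : Type*} [Group G] [Group Γ] [MulAction G Y] {p : G →* Γ} {δ : G → (Y →₀ ℤ)}

lemma δ_one (h : ExtData p δ) : δ 1 = 0 := by
  have := h.mul 1 1 (map_one p) (map_one p)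
  rw [mul_one] at this
  exact left_eq_add.1 this

lemma δ_inv (h : ExtData p δ) (a : G) (ha : p a = 1) : δ a⁻¹ = -δ a := by
  have := h.mul a a⁻¹ ha (by rw [map_inv, ha, inv_one])
  rw [mul_inv_cancel, h.δ_one] at this
  exact (neg_eq_of_add_eq_zero_right this.symm).symm

lemma inj' (h : ExtData p δ) (a b : G) (ha : p a = 1) (hb : p b = 1) (hab : δ a = δ b) :
    a = b := by
  have hb' : p b⁻¹ = 1 := by rw [map_inv, hb, inv_one]
  have := h.inj (a * b⁻¹) (by rw [map_mul, ha, hb', one_mul]) (by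
    rw [h.mul a b⁻¹ ha hb', h.δ_inv b hb, hab, add_neg_cancel])
  exact mul_inv_eq_one.1 this

lemma comm (h : ExtData p δ) (a b : G) (ha : p a = 1) (hb : p b = 1) : a * b = b * a := by
  apply h.inj' _ _ (by rw [map_mul, ha, hb, one_mul]) (by rw [map_mul, ha, hb, one_mul])
  rw [h.mul a b ha hb, h.mul b a hb ha, add_comm]

lemma uniqueProds (h : ExtData p δ) (hΓ : UniqueProds Γ) : UniqueProds G where
  uniqueMul_of_nonempty := by
    classical
    intro A B hA hB
    obtain ⟨x0, hx0, y0, hy0, hu⟩ := hΓ.uniqueMul_of_nonempty (hA.image p) (hB.image p)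
    obtain ⟨a1, ha1, hpa1⟩ := Finset.mem_image.1 hx0
    obtain ⟨b1, hb1, hpb1⟩ := Finset.mem_image.1 hy0
    let A0 := A.filter (fun a => p a = x0)
    let B0 := B.filter (fun b => p b = y0)
    have hA0 : ∀ a ∈ A0, p (a1⁻¹ * a) = 1 := by
      intro a ha
      rw [map_mul, map_inv, hpa1, (Finset.mem_filter.1 ha).2, inv_mul_cancel]
    have hB0 : ∀ b ∈ B0, p (b * b1⁻¹) = 1 := by
      intro b hb
      rw [map_mul, map_inv, hpb1, (Finset.mem_filter.1 hb).2, mul_inv_cancel]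
    have hne1 : (A0.image fun a => δ (a1⁻¹ * a)).Nonempty :=
      ⟨_, Finset.mem_image_of_mem _ (Finset.mem_filter.2 ⟨ha1, hpa1⟩)⟩
    have hne2 : (B0.image fun b => δ (b * b1⁻¹)).Nonempty :=
      ⟨_, Finset.mem_image_of_mem _ (Finset.mem_filter.2 ⟨hb1, hpb1⟩)⟩
    have hU : UniqueSums (Y →₀ ℤ) := inferInstance
    obtain ⟨α0, hα0, β0, hβ0, huu⟩ := hU.uniqueAdd_of_nonempty hne1 hne2
    obtain ⟨a0, ha0, rfl⟩ := Finset.mem_image.1 hα0
    obtain ⟨b0, hb0, rfl⟩ := Finset.mem_image.1 hβ0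
    refine ⟨a0, (Finset.mem_filter.1 ha0).1, b0, (Finset.mem_filter.1 hb0).1, ?_⟩
    refine UniqueMul.of_image_filter (p : G →ₙ* Γ) (aH := x0) (bH := y0)
      (Finset.mem_filter.1 ha0).2 (Finset.mem_filter.1 hb0).2 hu ?_
    intro a b ha hb hab
    have hsum : δ (a1⁻¹ * a) + δ (b * b1⁻¹) = δ (a1⁻¹ * a0) + δ (b0 * b1⁻¹) := by
      rw [← h.mul _ _ (hA0 a ha) (hB0 b hb), ← h.mul _ _ (hA0 a0 ha0) (hB0 b0 hb0)]
      congr 1
      calc a1⁻¹ * a * (b * b1⁻¹) = a1⁻¹ * (a * b) * b1⁻¹ := by group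
        _ = a1⁻¹ * (a0 * b0) * b1⁻¹ := by rw [hab]
        _ = _ := by group
    obtain ⟨h1, h2⟩ := huu (Finset.mem_image_of_mem _ ha) (Finset.mem_image_of_mem _ hb) hsum
    have h3 := h.inj' _ _ (hA0 a ha) (hA0 a0 ha0) h1
    have h4 := h.inj' _ _ (hB0 b hb) (hB0 b0 hb0) h2
    exact ⟨mul_left_cancel h3, mul_right_cancel h4⟩

/-- the correction terms in the powers of `a * u` -/
def sm (a u : G) : ℕ → G
  | 0 => 1
  | m + 1 => a⁻¹ * sm a u m * a * u

lemma pow_sm (a u : G) (m : ℕ) : (a * u) ^ m = a ^ m * sm a u m := by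
  induction m with
  | zero => simp [sm]
  | succ m ih =>
    rw [pow_succ, ih, pow_succ]
    simp only [sm]
    group

lemma p_sm (a u : G) (hu : p u = 1) (m : ℕ) : p (sm a u m) = 1 := by
  induction m with
  | zero => simp [sm]
  | succ m ih =>
    simp only [sm]
    rw [map_mul, map_mul, map_mul, ih, hu, mul_one, mul_one, ← map_mul, inv_mul_cancel, map_one]

lemma δ_sm_succ (h : ExtData p δ) (a u : G) (hu : p u = 1) (m : ℕ) :
    δ (sm a u (m + 1)) = sg a⁻¹ (δ (sm a u m)) + δ u := by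
  simp only [sm]
  have hp := p_sm (p := p) a u hu m
  rw [h.mul _ _ (by rw [map_mul, map_mul, hp, mul_one, ← map_mul, inv_mul_cancel, map_one]) hu]
  congr 1
  have := h.conj a⁻¹ (sm a u m) hp
  rwa [inv_inv] at this

lemma δ_sm_succ' (h : ExtData p δ) (a u : G) (hu : p u = 1) (m : ℕ) :
    δ (sm a u (m + 1)) = δ (sm a u m) + sg (a⁻¹ ^ m) (δ u) := by
  induction m with
  | zero =>
    rw [h.δ_sm_succ a u hu, pow_zero, sg_one]
    simp only [sm]
    rw [h.δ_one, map_zero]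
  | succ m ih =>
    rw [h.δ_sm_succ a u hu (m + 1), ih, map_add, ← sg_mul, ← pow_succ']
    rw [add_right_comm, ← h.δ_sm_succ a u hu m, ih]

/-- the key pointwise relation -/
lemma key (h : ExtData p δ) (a u : G) (hu : p u = 1) (m : ℕ) (y : Y) :
    δ u y - δ u (a ^ m • y) = δ (sm a u m) y - δ (sm a u m) (a • y) := by
  have h1 := (h.δ_sm_succ a u hu m).symm.trans (h.δ_sm_succ' a u hu m)
  have h2 := DFunLike.congr_fun h1 y
  rw [Finsupp.add_apply, Finsupp.add_apply] at h2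
  have e1 : sg a⁻¹ (δ (sm a u m)) y = δ (sm a u m) (a • y) := by
    have := sg_apply a⁻¹ (δ (sm a u m)) (a • y)
    rwa [inv_smul_smul] at this
  have e2 : sg (a⁻¹ ^ m) (δ u) y = δ u (a ^ m • y) := by
    have := sg_apply (a⁻¹ ^ m) (δ u) (a ^ m • y)
    rw [inv_pow, inv_smul_smul] at this
    rw [inv_pow, this]
  rw [e1, e2] at h2
  linarith

lemma δ_sm_triv (h : ExtData p δ) (a u : G) (hu : p u = 1) (ha : ∀ y : Y, a • y = y) (m : ℕ) :
    δ (sm a u m) = m • δ u := by
  have ha' : ∀ y : Y, a⁻¹ • y = y := fun y => by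
    rw [inv_smul_eq_iff, ha]
  induction m with
  | zero => simp [sm, h.δ_one]
  | succ m ih => rw [h.δ_sm_succ a u hu, sg_triv _ ha', ih, succ_nsmul]

/-- no fixed points in the nontrivial case -/
lemma nper (h : ExtData p δ) {a : G} (ha : ¬ ∀ y : Y, a • y = y) (b : G) (hb : p b = 1) (y : Y)
    (hy : y ∈ (δ b).support) (n : ℕ) (hn : 1 ≤ n) : a ^ n • y ≠ y :=
  fun hh => ha (h.per b hb y hy a n hn hh)

/-- two far away points of the support of a difference -/
lemma far (h : ExtData p δ) {a : G} (ha : ¬ ∀ y : Y, a • y = y) (u : G) (hu : p u = 1)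
    (hu1 : u ≠ 1) (m : ℕ) (hm : 1 ≤ m) : ∃ y y' : Y, ∃ k : ℕ, m ≤ k ∧ y = a ^ k • y' ∧
      δ (sm a u m) y ≠ δ (sm a u m) (a • y) ∧ δ (sm a u m) y' ≠ δ (sm a u m) (a • y') := by
  have hδu : δ u ≠ 0 := fun h0 => hu1 (h.inj u hu h0)
  obtain ⟨y0, hy0⟩ := Finsupp.support_nonempty_iff.2 hδu
  obtain ⟨i, hi1, hi2⟩ := escape (a ^ m) y0 (δ u).support hy0 (by
    intro n hn
    rw [← pow_mul]
    exact h.nper ha u hu y0 hy0 _ (Nat.mul_pos hm hn))
  obtain ⟨j, hj1, hj2⟩ := escape (a ^ m)⁻¹ y0 (δ u).support hy0 (by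
    intro n hn hh
    rw [inv_pow, inv_smul_eq_iff, ← pow_mul] at hh
    exact h.nper ha u hu y0 hy0 _ (Nat.mul_pos hm hn) hh.symm)
  refine ⟨(a ^ m) ^ i • y0, (a ^ m)⁻¹ ^ (j + 1) • y0, m * (i + j + 1), ?_, ?_, ?_, ?_⟩
  · exact Nat.le_mul_of_pos_right m (by omega)
  · rw [smul_smul]
    congr 1
    rw [inv_pow, eq_mul_inv_iff_mul_eq, ← pow_mul, ← pow_mul, ← pow_add]
    congr 1
    ring
  · have hk := h.key a u hu m ((a ^ m) ^ i • y0)
    rw [smul_smul (a ^ m), ← pow_succ'] at hk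
    rw [Finsupp.notMem_support_iff.1 hi2, sub_zero] at hk
    intro he
    rw [he, sub_self] at hk
    exact (Finsupp.mem_support_iff.1 hi1) hk
  · have hk := h.key a u hu m ((a ^ m)⁻¹ ^ (j + 1) • y0)
    rw [Finsupp.notMem_support_iff.1 hj2] at hk
    have e : a ^ m • (a ^ m)⁻¹ ^ (j + 1) • y0 = (a ^ m)⁻¹ ^ j • y0 := by
      rw [pow_succ', mul_smul, smul_inv_smul]
    rw [e] at hk
    intro he
    rw [he, sub_self, zero_sub, neg_eq_zero] at hk
    exact (Finsupp.mem_support_iff.1 hj1) hk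

lemma roots (h : ExtData p δ) (hΓ : ∀ m : ℕ, 1 ≤ m → ∀ z a : Γ, z ^ m = a ^ m → z = a) :
    ∀ m : ℕ, 1 ≤ m → ∀ z a : G, z ^ m = a ^ m → z = a := by
  intro m hm z a hza
  have hp : p z = p a := hΓ m hm _ _ (by rw [← map_pow, hza, map_pow])
  have hu : p (a⁻¹ * z) = 1 := by rw [map_mul, map_inv, hp, inv_mul_cancel]
  have hz : a * (a⁻¹ * z) = z := mul_inv_cancel_left a z
  have hs : sm a (a⁻¹ * z) m = 1 := by
    have := pow_sm a (a⁻¹ * z) m
    rw [hz, hza] at this
    exact (left_eq_mul.1 this)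
  by_contra hne
  have hu1 : a⁻¹ * z ≠ 1 := fun h0 => hne (inv_mul_eq_one.1 h0).symm
  by_cases ha : ∀ y : Y, a • y = y
  · have := h.δ_sm_triv a _ hu ha m
    rw [hs, h.δ_one] at this
    have h0 : δ (a⁻¹ * z) = 0 := by
      have h1 : (m : ℤ) • δ (a⁻¹ * z) = 0 := by rw [natCast_zsmul]; exact this.symm
      rcases smul_eq_zero.1 h1 with h2 | h2
      · exfalso; omega
      · exact h2
    exact hu1 (h.inj _ hu h0)
  · obtain ⟨y, y', k, _, _, h3, _⟩ := h.far ha _ hu hu1 m hm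
    rw [hs, h.δ_one] at h3
    exact h3 rfl

lemma gap (h : ExtData p δ) (hr : ∀ m : ℕ, 1 ≤ m → ∀ z a : Γ, z ^ m = a ^ m → z = a)
    (hΓ : ∀ a c : Γ, c ≠ 1 → ∃ m0 : ℕ, ∀ m ≥ m0, ∀ z : Γ, z ^ m ≠ a ^ m * c) :
    ∀ a c : G, c ≠ 1 → ∃ m0 : ℕ, ∀ m ≥ m0, ∀ z : G, z ^ m ≠ a ^ m * c := by
  intro a c hc
  by_cases hpc : p c = 1
  swap
  · obtain ⟨m0, hm0⟩ := hΓ (p a) (p c) hpc
    refine ⟨m0, fun m hm z hz => hm0 m hm (p z) ?_⟩
    rw [← map_pow, hz, map_mul, map_pow]
  -- reduction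
  have hred : ∀ m : ℕ, 1 ≤ m → ∀ z : G, z ^ m = a ^ m * c →
      p (a⁻¹ * z) = 1 ∧ sm a (a⁻¹ * z) m = c ∧ a⁻¹ * z ≠ 1 := by
    intro m hm z hz
    have hp : p z = p a := hr m hm _ _ (by rw [← map_pow, hz, map_mul, hpc, mul_one, map_pow])
    have hu : p (a⁻¹ * z) = 1 := by rw [map_mul, map_inv, hp, inv_mul_cancel]
    refine ⟨hu, ?_, ?_⟩
    · have := pow_sm a (a⁻¹ * z) m
      rw [mul_inv_cancel_left, hz] at this
      exact (mul_left_cancel this).symm
    · intro h0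
      have : z = a := (inv_mul_eq_one.1 h0).symm
      rw [this] at hz
      exact hc (left_eq_mul.1 hz)
  have hδc : δ c ≠ 0 := fun h0 => hc (h.inj c hpc h0)
  by_cases ha : ∀ y : Y, a • y = y
  · obtain ⟨y, hy⟩ := Finsupp.support_nonempty_iff.2 hδc
    refine ⟨(δ c y).natAbs + 1, fun m hm z hz => ?_⟩
    obtain ⟨h1, h2, _⟩ := hred m (by omega) z hz
    have h3 := h.δ_sm_triv a _ h1 ha m
    rw [h2] at h3
    have h4 := DFunLike.congr_fun h3 y
    rw [Finsupp.smul_apply, nsmul_eq_mul] at h4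
    have h5 : (m : ℤ) ∣ δ c y := ⟨_, h4⟩
    have h6 := Nat.le_of_dvd (Int.natAbs_pos.2 (Finsupp.mem_support_iff.1 hy))
      (Int.natCast_dvd.1 h5)
    omega
  · -- finitely many distances
    let W : Set Y := {y | δ c y ≠ δ c (a • y)}
    have hWsub : W ⊆ (δ c).support ∪ (fun y => a⁻¹ • y) '' (δ c).support := by
      intro y hy
      by_cases h1 : δ c y = 0
      · right
        refine ⟨a • y, ?_, inv_smul_smul a y⟩
        rw [Finset.mem_coe, Finsupp.mem_support_iff]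
        intro h2
        exact hy (by rw [h1, h2])
      · left
        rw [Finset.mem_coe, Finsupp.mem_support_iff]
        exact h1
    have hWfin : W.Finite :=
      ((Finset.finite_toSet _).union ((Finset.finite_toSet _).image _)).subset hWsub
    have hWper : ∀ y ∈ W, ∀ n : ℕ, 1 ≤ n → a ^ n • y ≠ y := by
      intro y hy n hn hh
      rcases hWsub hy with h1 | ⟨y1, h1, rfl⟩
      · exact h.nper ha c hpc y (Finset.mem_coe.1 h1) n hn hh
      · apply h.nper ha c hpc y1 (Finset.mem_coe.1 h1) n hn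
        rw [smul_smul, ← (Commute.pow_self a n).inv_right.eq.symm, mul_smul] at hh
        exact smul_left_cancel _ hh
    have hfin : {k : ℕ | ∃ y' ∈ W, ∃ y ∈ W, y = a ^ k • y'}.Finite := by
      have : {k : ℕ | ∃ y' ∈ W, ∃ y ∈ W, y = a ^ k • y'} =
          ⋃ y' ∈ W, ⋃ y ∈ W, {k : ℕ | y = a ^ k • y'} := by
        ext k
        simp
      rw [this]
      refine hWfin.biUnion fun y' hy' => hWfin.biUnion fun y _ => ?_
      apply Set.Subsingleton.finite
      intro i hi j hj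
      have hij : a ^ i • y' = a ^ j • y' := by
        rw [Set.mem_ofPred_eq] at hi hj
        rw [← hi, ← hj]
      rcases lt_trichotomy i j with hlt | heq | hlt
      · exfalso
        apply hWper y' hy' (j - i) (by omega)
        have : a ^ j = a ^ i * a ^ (j - i) := by rw [← pow_add]; congr 1; omega
        rw [this, mul_smul] at hij
        exact (smul_left_cancel _ hij).symm
      · exact heq
      · exfalso
        apply hWper y' hy' (i - j) (by omega)
        have : a ^ i = a ^ j * a ^ (i - j) := by rw [← pow_add]; congr 1; omega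
        rw [this, mul_smul] at hij
        exact smul_left_cancel _ hij
    obtain ⟨M, hM⟩ := hfin.bddAbove
    refine ⟨M + 1, fun m hm z hz => ?_⟩
    obtain ⟨h1, h2, h3⟩ := hred m (by omega) z hz
    obtain ⟨y, y', k, hk, hyy, hW1, hW2⟩ := h.far ha _ h1 h3 m (by omega)
    rw [h2] at hW1 hW2
    have : k ≤ M := hM ⟨y', hW2, y, hW1, hyy⟩
    omega

theorem good (h : ExtData p δ) (hp : Function.Surjective p) (hΓ : Good Γ) : Good G where
  up := h.uniqueProds hΓ.up
  roots := h.roots hΓ.roots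
  gap := h.gap hΓ.roots hΓ.gap
  fol := by
    apply Fol.ext p hp hΓ.fol
    let _ : CommGroup p.ker := { (inferInstance : Group p.ker) with
      mul_comm := fun a b => Subtype.ext (h.comm a b a.2 b.2) }
    exact Fol.of_comm p.ker

end ExtData

end Pool.Agent.Poly
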