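import Mathlib
import Pool.Agent.Lib_helper1.Poly.Defs
import Pool.Agent.Lib_helper1.Poly.Core
import Pool.Agent.Lib_helper1.Poly.Good

/-!
The free polynilpotent groups are good.
-/

open scoped commutatorElement

namespace Pool.Agent.Poly

universe u

lemma Good.of_subsingleton (G : Type*) [Group G] [Subsingleton G] : Good G where
  up := ⟨fun {A B} hA hB => by
    obtain ⟨a, ha⟩ := hA
    obtain ⟨b, hb⟩ := hB
    exact ⟨a, ha, b, hb, UniqueMul.of_subsingleton⟩⟩
  roots := fun _ _ z a _ => Subsingleton.elim z a
  gap := fun _ c hc => absurd (Subsingleton.elim c 1) hc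
  fol := fun _ n => ⟨{1}, {1}, by simp, fun x _ s _ => by
    rw [Finset.mem_singleton]; exact Subsingleton.elim _ _, by simp⟩

/-- the projection between quotients -/
def pr {F : Type*} [Group F] {A B : Subgroup F} [A.Normal] [B.Normal] (h : B ≤ A) :
    F ⧸ B →* F ⧸ A := QuotientGroup.map B A (MonoidHom.id F) h

lemma pr_mk {F : Type*} [Group F] {A B : Subgroup F} [A.Normal] [B.Normal] (h : B ≤ A) (f : F) :
    pr h (QuotientGroup.mk f : F ⧸ B) = (QuotientGroup.mk f : F ⧸ A) := rfl

lemma pr_surjective {F : Type*} [Group F] {A B : Subgroup F} [A.Normal] [B.Normal] (h : B ≤ A) :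
    Function.Surjective (pr h) := by
  intro x
  obtain ⟨f, rfl⟩ := QuotientGroup.mk_surjective x
  exact ⟨QuotientGroup.mk f, rfl⟩

lemma good_step {X : Type u} (S : Subgroup (FreeGroup X)) [S.Normal]
    (hS : Good (FreeGroup X ⧸ S)) (k : ℕ) : Good (FreeGroup X ⧸ S.lowerCentralSeries k) := by
  induction k with
  | zero => exact hS
  | succ k ih =>
    obtain ⟨δ, h1, h2, h3, h4⟩ := core (QuotientGroup.mk' S) (QuotientGroup.mk'_surjective S) k
    rw [QuotientGroup.ker_mk'] at h1 h2 h3 h4
    set A := S.lowerCentralSeries k with hA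
    set B := S.lowerCentralSeries (k + 1) with hB
    have hBA : B ≤ A := Subgroup.lowerCentralSeries_antitone S (Nat.le_succ k)
    have hBS : B ≤ S := Subgroup.lowerCentralSeries_le_self S (k + 1)
    let Y := FreeMonoid ((FreeGroup X ⧸ S) × X)
    let _ : MulAction (FreeGroup X ⧸ B) Y :=
      { smul := fun g w => FreeMonoid.map (fun y => (pr hBS g * y.1, y.2)) w
        one_smul := fun w => by
          show FreeMonoid.map (fun y => (pr hBS 1 * y.1, y.2)) w = w
          simp only [map_one, one_mul]
          exact DFunLike.congr_fun FreeMonoid.map_id w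
        mul_smul := fun g g' w => by
          show FreeMonoid.map (fun y => (pr hBS (g * g') * y.1, y.2)) w =
            FreeMonoid.map (fun y => (pr hBS g * y.1, y.2))
              (FreeMonoid.map (fun y => (pr hBS g' * y.1, y.2)) w)
          rw [FreeMonoid.map_map]
          congr 2
          funext y
          simp [mul_assoc] }
    have hsmul : ∀ (g : FreeGroup X ⧸ B) (w : Y),
        g • w = FreeMonoid.map (fun y => (pr hBS g * y.1, y.2)) w := fun _ _ => rfl
    let δ' : FreeGroup X ⧸ B → (Y →₀ ℤ) := fun g => δ (Quotient.out g)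
    have hδ' : ∀ f ∈ A, δ' (QuotientGroup.mk f) = δ f := by
      intro f hf
      obtain ⟨b, hb⟩ := QuotientGroup.mk_out_eq_mul B f
      simp only [δ']
      have : Quotient.out (QuotientGroup.mk f : FreeGroup X ⧸ B) = f * b := hb
      rw [this, h1 f hf b (hBA b.2), (h3 b (hBA b.2)).2 b.2, add_zero]
    have hker : ∀ f : FreeGroup X, pr hBA (QuotientGroup.mk f) = 1 ↔ f ∈ A := by
      intro f
      rw [pr_mk, QuotientGroup.eq_one_iff]
    have hE : ExtData (pr hBA) δ' := by
      refine ⟨?_, ?_, ?_, ?_⟩
      · intro a b ha hb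
        obtain ⟨f, rfl⟩ := QuotientGroup.mk_surjective a
        obtain ⟨g, rfl⟩ := QuotientGroup.mk_surjective b
        rw [hker] at ha hb
        rw [← QuotientGroup.mk_mul, hδ' _ ha, hδ' _ hb, hδ' _ (A.mul_mem ha hb), h1 f ha g hb]
      · intro g a ha
        obtain ⟨s, rfl⟩ := QuotientGroup.mk_surjective a
        obtain ⟨f, rfl⟩ := QuotientGroup.mk_surjective g
        rw [hker] at ha
        have hn : A.Normal := inferInstance
        rw [← QuotientGroup.mk_inv, ← QuotientGroup.mk_mul, ← QuotientGroup.mk_mul, hδ' _ ha,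
          hδ' _ (hn.conj_mem s ha f), h2 f s ha]
        rfl
      · intro a ha h0
        obtain ⟨s, rfl⟩ := QuotientGroup.mk_surjective a
        rw [hker] at ha
        rw [hδ' _ ha, h3 s ha] at h0
        exact (QuotientGroup.eq_one_iff s).2 h0
      · intro a ha y hy g n hn hgy
        obtain ⟨s, rfl⟩ := QuotientGroup.mk_surjective a
        rw [hker] at ha
        rw [hδ' _ ha, Finsupp.mem_support_iff] at hy
        have hy1 : y ≠ 1 := by
          rintro rfl
          exact hy (h4 s ha)
        have hg : pr hBS g = 1 := by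
          rw [hsmul] at hgy
          induction y using FreeMonoid.casesOn with
          | one => exact absurd rfl hy1
          | of_mul y0 y' =>
            rw [map_mul, FreeMonoid.map_of] at hgy
            have h5 : FreeMonoid.toList (FreeMonoid.of (pr hBS (g ^ n) * y0.1, y0.2) *
              (FreeMonoid.map (fun y => (pr hBS (g ^ n) * y.1, y.2))) y') =
                FreeMonoid.toList (FreeMonoid.of y0 * y') := congrArg _ hgy
            rw [FreeMonoid.toList_of_mul, FreeMonoid.toList_of_mul, List.cons.injEq] at h5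
            have h6 : pr hBS (g ^ n) * y0.1 = y0.1 := congrArg Prod.fst h5.1
            have h7 : pr hBS (g ^ n) = 1 := mul_eq_right.1 h6
            rw [map_pow] at h7
            exact hS.roots n hn _ 1 (by rw [h7, one_pow])
        intro y'
        rw [hsmul, hg]
        simp only [one_mul]
        exact DFunLike.congr_fun FreeMonoid.map_id y'
    exact hE.good (pr_surjective hBA) ih

theorem good_poly {X : Type u} (c : ℕ → ℕ) (i : ℕ) :
    Good (FreeGroup X ⧸ polySeries (⊤ : Subgroup (FreeGroup X)) c i) := by
  induction i with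
  | zero =>
    have : Subsingleton (FreeGroup X ⧸ (⊤ : Subgroup (FreeGroup X))) :=
      QuotientGroup.subsingleton_quotient_top
    exact good_step ⊤ (Good.of_subsingleton _) 1
  | succ i ih => exact good_step (polySeries ⊤ c i) ih (c (i + 1))

end Pool.Agent.Poly
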