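import Mathlib
import Pool.Agent.Lib_helper1.Poly.Tower

/-!
Fox derivatives on quotients of free groups, with values in group rings.
-/

open scoped commutatorElement

namespace Pool.Agent.Poly

open MonoidAlgebra (single)

section

variable {X Q : Type*} [Group Q]

open Classical in
/-- the `x`-coordinate of a vector of Fox derivatives -/
noncomputable def toRing (x : X) : (Q × X →₀ ℤ) →+ MonoidAlgebra ℤ Q :=
  Finsupp.liftAddHom fun y => if y.2 = x then MonoidAlgebra.singleAddHom y.1 else 0

open Classical in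
lemma toRing_single (x : X) (q : Q) (x' : X) (n : ℤ) :
    toRing x (Finsupp.single (q, x') n) = if x' = x then single q n else 0 := by
  unfold toRing
  rw [Finsupp.liftAddHom_apply_single]
  simp only
  split_ifs <;> rfl

lemma toRing_coeff (x : X) (v : Q × X →₀ ℤ) (q : Q) : (toRing x v).coeff q = v (q, x) := by
  classical
  let c1 : (Q × X →₀ ℤ) →+ ℤ :=
    { toFun := fun v => (toRing x v).coeff q
      map_zero' := by simp
      map_add' := fun a b => by simp }
  let c2 : (Q × X →₀ ℤ) →+ ℤ :=
    { toFun := fun v => v (q, x)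
      map_zero' := by simp
      map_add' := fun a b => by simp }
  have : c1 = c2 := by
    apply Finsupp.addHom_ext
    rintro ⟨p, x'⟩ n
    show (toRing x (Finsupp.single (p, x') n)).coeff q = (Finsupp.single (p, x') n) (q, x)
    rw [toRing_single, Finsupp.single_apply]
    by_cases h1 : x' = x
    · rw [if_pos h1, MonoidAlgebra.coeff_single, Finsupp.single_apply]
      by_cases h2 : p = q
      · rw [if_pos h2, if_pos (by rw [h1, h2])]
      · rw [if_neg h2, if_neg (fun h => h2 (congrArg Prod.fst h))]
    · rw [if_neg h1, if_neg (fun h => h1 (congrArg Prod.snd h))]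
      simp
  exact DFunLike.congr_fun this v

lemma toRing_act (x : X) (q : Q) (v : Q × X →₀ ℤ) :
    toRing x (act q v) = single q 1 * toRing x v := by
  classical
  have : (toRing x).comp (act q) = (AddMonoidHom.mulLeft (single q 1)).comp (toRing x) := by
    apply Finsupp.addHom_ext
    rintro ⟨p, x'⟩ n
    show toRing x (act q (Finsupp.single (p, x') n)) =
      single q 1 * toRing x (Finsupp.single (p, x') n)
    rw [act_single, toRing_single, toRing_single]
    split_ifs
    · rw [MonoidAlgebra.single_mul_single, one_mul]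
    · rw [mul_zero]
  exact DFunLike.congr_fun this v

end

/-- A family of crossed homomorphisms to the group ring, detecting the commutator subgroup of the
kernel. -/
structure Mag {X P Γ : Type*} [Group P] [Group Γ] (π : P →* Γ) (D : X → P → MonoidAlgebra ℤ Γ) :
    Prop where
  mul : ∀ x p q, D x (p * q) = D x p + single (π p) 1 * D x q
  inj : ∀ p, π p = 1 → (∀ x, D x p = 0) → p ∈ ⁅π.ker, π.ker⁆

namespace Mag

variable {X P Γ : Type*} [Group P] [Group Γ] {π : P →* Γ} {D : X → P → MonoidAlgebra ℤ Γ}

lemma one (h : Mag π D) (x : X) : D x 1 = 0 := by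
  have := h.mul x 1 1
  rw [mul_one, map_one, ← MonoidAlgebra.one_def, one_mul] at this
  exact left_eq_add.1 this

lemma inv (h : Mag π D) (x : X) (p : P) : D x p⁻¹ = -(single (π p)⁻¹ 1 * D x p) := by
  have := h.mul x p⁻¹ p
  rw [inv_mul_cancel, h.one, map_inv] at this
  exact eq_neg_of_add_eq_zero_left this.symm

lemma comm (h : Mag π D) (x : X) (p k : P) (hk : π k = 1) :
    D x ⁅p, k⁆ = (single (π p) 1 - 1) * D x k := by
  have e1 : π (p * k * p⁻¹) = 1 := by
    rw [map_mul, map_mul, hk, mul_one, ← map_mul, mul_inv_cancel, map_one]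
  have e2 : π (p * k) = π p := by rw [map_mul, hk, mul_one]
  rw [commutatorElement_def, h.mul x (p * k * p⁻¹) k⁻¹, e1, h.mul x (p * k) p⁻¹, e2, h.mul x p k,
    h.inv, h.inv, hk, inv_one, ← MonoidAlgebra.one_def, one_mul, one_mul, mul_neg, ← mul_assoc,
    MonoidAlgebra.single_mul_single, mul_inv_cancel, one_mul, ← MonoidAlgebra.one_def, one_mul,
    sub_mul, one_mul]
  abel

/-- commutators when the images commute -/
lemma comm' (h : Mag π D) (x : X) (a b : P) (hab : π a * π b = π b * π a) :
    D x ⁅a, b⁆ = (1 - single (π b) 1) * D x a + (single (π a) 1 - 1) * D x b := by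
  have e1 : π (a * b * a⁻¹) = π b := by
    rw [map_mul, map_mul, map_inv, hab, mul_inv_cancel_right]
  rw [commutatorElement_def, h.mul x (a * b * a⁻¹) b⁻¹, e1, h.mul x (a * b) a⁻¹, h.mul x a b,
    h.inv, h.inv, map_mul, mul_neg, ← mul_assoc, MonoidAlgebra.single_mul_single, hab,
    mul_inv_cancel_right, one_mul, mul_neg, ← mul_assoc, MonoidAlgebra.single_mul_single,
    mul_inv_cancel, one_mul, ← MonoidAlgebra.one_def, one_mul]
  noncomm_ring

end Mag

lemma mk_mem_comm {F : Type*} [Group F] {S N : Subgroup F} [S.Normal] [N.Normal] (h : N ≤ S)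
    {s : F} (hs : s ∈ ⁅S, S⁆) :
    (QuotientGroup.mk s : F ⧸ N) ∈ ⁅(pr h).ker, (pr h).ker⁆ := by
  have h1 : S.map (QuotientGroup.mk' N) ≤ (pr h).ker := by
    rintro _ ⟨t, ht, rfl⟩
    rw [MonoidHom.mem_ker]
    show pr h (QuotientGroup.mk t) = 1
    rw [pr_mk, QuotientGroup.eq_one_iff]
    exact ht
  have h2 : (QuotientGroup.mk' N) s ∈ (⁅S, S⁆).map (QuotientGroup.mk' N) :=
    Subgroup.mem_map_of_mem _ hs
  rw [Subgroup.map_commutator] at h2
  exact Subgroup.commutator_mono h1 h1 h2

/-- Fox derivatives on quotients of free groups -/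
theorem exists_mag {X : Type*} {S N : Subgroup (FreeGroup X)} [S.Normal] [N.Normal]
    (h : N ≤ S) (hN : N ≤ ⁅S, S⁆) :
    ∃ D : X → FreeGroup X ⧸ N → MonoidAlgebra ℤ (FreeGroup X ⧸ S), Mag (pr h) D := by
  let π := QuotientGroup.mk' S
  have hπ : Function.Surjective π := QuotientGroup.mk'_surjective S
  have hker : π.ker = S := QuotientGroup.ker_mk' S
  have h0 : ∀ s ∈ ⁅S, S⁆, D π s = 0 := by
    intro s hs
    have h1 : Abelianization.of (⟨s, by rw [hker]; exact Subgroup.commutator_le_left S S hs⟩ : π.ker)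
        = 1 := by
      rw [← MonoidHom.mem_ker, Abelianization.ker_of]
      have h4 : (commutator π.ker).map π.ker.subtype = ⁅π.ker, π.ker⁆ := by
        rw [map_commutator_eq]; simp
      rw [← hker, ← h4, Subgroup.mem_map] at hs
      obtain ⟨v, hv, hv'⟩ := hs
      have : v = ⟨s, by rw [← hv']; exact v.2⟩ := Subtype.ext hv'
      rwa [← this]
    have h2 : (⟨s, by rw [hker]; exact Subgroup.commutator_le_left S S hs⟩ : π.ker) ∈
        commutator π.ker := by
      rwa [← Abelianization.ker_of, MonoidHom.mem_ker]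
    have h3 := Abelianization.commutator_subset_ker (DS π) h2
    rw [MonoidHom.mem_ker] at h3
    exact Multiplicative.ofAdd.injective h3
  let D' : X → FreeGroup X ⧸ N → MonoidAlgebra ℤ (FreeGroup X ⧸ S) :=
    fun x g => toRing x (D π (Quotient.out g))
  have hD' : ∀ x f, D' x (QuotientGroup.mk f) = toRing x (D π f) := by
    intro x f
    obtain ⟨b, hb⟩ := QuotientGroup.mk_out_eq_mul N f
    simp only [D']
    have : Quotient.out (QuotientGroup.mk f : FreeGroup X ⧸ N) = f * b := hb
    rw [this, D_mul, h0 b (hN b.2), map_zero, add_zero]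
  refine ⟨D', ?_, ?_⟩
  · intro x p q
    obtain ⟨f, rfl⟩ := QuotientGroup.mk_surjective p
    obtain ⟨g, rfl⟩ := QuotientGroup.mk_surjective q
    rw [← QuotientGroup.mk_mul, hD', hD', hD', D_mul, map_add, toRing_act]
    rfl
  · intro p hp hall
    obtain ⟨f, rfl⟩ := QuotientGroup.mk_surjective p
    apply mk_mem_comm h
    rw [pr_mk, QuotientGroup.eq_one_iff] at hp
    have h1 : D π f = 0 := by
      ext ⟨q, x⟩
      rw [← toRing_coeff, ← hD', hall]
      rfl
    have := mem_comm_of_D_eq_zero π hπ (by rw [hker]; exact hp) h1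
    rwa [hker] at this

end Pool.Agent.Poly
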