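import Mathlib
import Pool.Agent.Lib_helper1.Poly.MagData

/-!
Exclusion of the case of a cyclic abelianization.
-/

open scoped commutatorElement

namespace Pool.Agent.Poly

open MonoidAlgebra (single)

lemma comm_closure {P : Type*} [Group P] (H M : Subgroup P)
    (hM : ∀ h ∈ H, ∀ m ∈ M, h * m * h⁻¹ ∈ M) (g : P) (S : Set P)
    (hS : Subgroup.closure S ≤ H) (hc : ∀ s ∈ S, ⁅g, s⁆ ∈ M) :
    ∀ h ∈ Subgroup.closure S, ⁅g, h⁆ ∈ M := by
  intro h hh
  induction hh using Subgroup.closure_induction with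
  | mem x hx => exact hc x hx
  | one => rw [commutatorElement_one_right]; exact M.one_mem
  | mul x y hx hy ihx ihy =>
    have e : ⁅g, x * y⁆ = ⁅g, x⁆ * (x * ⁅g, y⁆ * x⁻¹) := by
      simp only [commutatorElement_def]; group
    rw [e]
    exact M.mul_mem ihx (hM x (hS hx) _ ihy)
  | inv x hx ih =>
    have e : ⁅g, x⁻¹⁆ = x⁻¹ * ⁅g, x⁆⁻¹ * x⁻¹⁻¹ := by
      simp only [commutatorElement_def]; group
    rw [e]
    exact hM x⁻¹ (H.inv_mem (hS hx)) _ (M.inv_mem ih)

/-- normal closure argument -/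
lemma comm_le_of {P : Type*} [Group P] (H M : Subgroup P) (a b : P)
    (hH : H = Subgroup.closure {a, b})
    (hM : ∀ h ∈ H, ∀ m ∈ M, h * m * h⁻¹ ∈ M) (hc : ⁅a, b⁆ ∈ M) : ⁅H, H⁆ ≤ M := by
  have hle : Subgroup.closure {a, b} ≤ H := hH.ge
  have h1 : ∀ h ∈ H, ⁅a, h⁆ ∈ M := by
    intro h hh
    rw [hH] at hh
    refine comm_closure H M hM a {a, b} hle ?_ h hh
    rintro s (rfl | rfl)
    · rw [commutatorElement_self]; exact M.one_mem
    · exact hc
  have h2 : ∀ h ∈ H, ⁅b, h⁆ ∈ M := by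
    intro h hh
    rw [hH] at hh
    refine comm_closure H M hM b {a, b} hle ?_ h hh
    rintro s (rfl | rfl)
    · rw [← commutatorElement_inv]; exact M.inv_mem hc
    · rw [commutatorElement_self]; exact M.one_mem
  rw [Subgroup.commutator_le]
  intro g hg h hh
  rw [hH] at hh
  refine comm_closure H M hM g {a, b} hle ?_ h hh
  rintro s (rfl | rfl)
  · rw [← commutatorElement_inv]; exact M.inv_mem (h1 g hg)
  · rw [← commutatorElement_inv]; exact M.inv_mem (h2 g hg)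

lemma comm_cyc {A : Type*} [CommGroup A]
    (hr : ∀ m : ℕ, 1 ≤ m → ∀ z a : A, z ^ m = a ^ m → z = a) (x y : A) (p q : ℤ)
    (hpq : ¬ (p = 0 ∧ q = 0)) (h : x ^ p * y ^ q = 1) :
    ∃ u v i j : ℤ, (x ^ u * y ^ v) ^ i = x ∧ (x ^ u * y ^ v) ^ j = y := by
  obtain ⟨p', hp'⟩ := Int.gcd_dvd_left (a := p) (b := q)
  obtain ⟨q', hq'⟩ := Int.gcd_dvd_right (a := p) (b := q)
  have hd : 1 ≤ Int.gcd p q := by
    rw [Nat.one_le_iff_ne_zero]
    intro h0
    exact hpq (Int.gcd_eq_zero_iff.1 h0)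
  have hd' : ((Int.gcd p q : ℕ) : ℤ) ≠ 0 := by
    have : (1 : ℤ) ≤ (Int.gcd p q : ℕ) := by exact_mod_cast hd
    omega
  -- Bezout
  have hbez : p' * Int.gcdA p q + q' * Int.gcdB p q = 1 := by
    have h2 : ((Int.gcd p q : ℕ) : ℤ) * (p' * Int.gcdA p q + q' * Int.gcdB p q) =
        ((Int.gcd p q : ℕ) : ℤ) * 1 := by
      calc ((Int.gcd p q : ℕ) : ℤ) * (p' * Int.gcdA p q + q' * Int.gcdB p q)
          = (((Int.gcd p q : ℕ) : ℤ) * p') * Int.gcdA p q +
            (((Int.gcd p q : ℕ) : ℤ) * q') * Int.gcdB p q := by ring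
        _ = p * Int.gcdA p q + q * Int.gcdB p q := by rw [← hp', ← hq']
        _ = ((Int.gcd p q : ℕ) : ℤ) := (Int.gcd_eq_gcd_ab p q).symm
        _ = _ := (mul_one _).symm
    exact mul_left_cancel₀ hd' h2
  set u := Int.gcdA p q
  set v := Int.gcdB p q
  have h1 : x ^ p' * y ^ q' = 1 := by
    apply hr (Int.gcd p q) hd
    rw [one_pow, mul_pow, ← zpow_natCast, ← zpow_natCast, ← zpow_mul, ← zpow_mul, mul_comm p',
      mul_comm q', ← hp', ← hq', h]
  have hx : x ^ p' = y ^ (-q') := by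
    rw [zpow_neg]; exact eq_inv_of_mul_eq_one_left h1
  refine ⟨v, -u, q', -p', ?_, ?_⟩
  · calc (x ^ v * y ^ (-u)) ^ q' = x ^ (v * q') * (y ^ (-q')) ^ u := by
          rw [mul_zpow, ← zpow_mul, ← zpow_mul, ← zpow_mul]
          congr 2
          ring
      _ = x ^ (v * q') * (x ^ p') ^ u := by rw [hx]
      _ = x := by
          rw [← zpow_mul, ← zpow_add]
          have : v * q' + p' * u = 1 := by linarith
          rw [this, zpow_one]
  · calc (x ^ v * y ^ (-u)) ^ (-p') = (x ^ p') ^ (-v) * y ^ (u * p') := by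
          rw [mul_zpow, ← zpow_mul, ← zpow_mul, ← zpow_mul]
          congr 2
          · ring
          · ring
      _ = (y ^ (-q')) ^ (-v) * y ^ (u * p') := by rw [hx]
      _ = y := by
          rw [← zpow_mul, ← zpow_add]
          have : -q' * -v + u * p' = 1 := by linarith
          rw [this, zpow_one]

/-- augmentation -/
noncomputable def aug {G : Type*} [Group G] : MonoidAlgebra ℤ G →+* ℤ :=
  MonoidAlgebra.liftNCRingHom (RingHom.id ℤ) (1 : G →* ℤ) (fun _ _ => Commute.all _ _)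

lemma aug_single {G : Type*} [Group G] (g : G) (n : ℤ) : aug (single g n) = n := by
  unfold aug
  rw [MonoidAlgebra.liftNCRingHom_single]
  simp

theorem rank_exclusion {X P Γ : Type*} [Group P] [Group Γ] {π : P →* Γ}
    {D : X → P → MonoidAlgebra ℤ Γ} (hD : Mag π D) (hΓ : Good Γ)
    (hcomm : ∀ x y : Γ, x * y = y * x) (H : Subgroup P) (a b : P)
    (hH : H = Subgroup.closure {a, b})
    (hV1 : ∀ h ∈ H, π h = 1 → h ∈ ⁅H, H⁆)
    (hV2 : ∀ h ∈ H, h ∈ ⁅π.ker, π.ker⁆ → h ∈ ⁅⁅H, H⁆, ⁅H, H⁆⁆)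
    (p q : ℤ) (hpq : ¬ (p = 0 ∧ q = 0)) (hrel : π a ^ p * π b ^ q = 1) :
    ⁅H, H⁆ ≤ ⁅⁅H, H⁆, ⁅H, H⁆⁆ := by
  have ha : a ∈ H := by rw [hH]; exact Subgroup.subset_closure (by simp)
  have hb : b ∈ H := by rw [hH]; exact Subgroup.subset_closure (by simp)
  obtain ⟨u, v, i, j, hi, hj⟩ : ∃ u v i j : ℤ, (π a ^ u * π b ^ v) ^ i = π a ∧
      (π a ^ u * π b ^ v) ^ j = π b := by
    let _ : CommGroup Γ := { (inferInstance : Group Γ) with mul_comm := hcomm }
    exact comm_cyc hΓ.roots (π a) (π b) p q hpq hrel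
  set t := a ^ u * b ^ v with ht
  have htH : t ∈ H := H.mul_mem (H.zpow_mem ha u) (H.zpow_mem hb v)
  have hπt : π t = π a ^ u * π b ^ v := by rw [ht, map_mul, map_zpow, map_zpow]
  rw [← hπt] at hi hj
  set h1 := (t ^ i)⁻¹ * a with hh1
  set h2 := (t ^ j)⁻¹ * b with hh2
  have hπh1 : π h1 = 1 := by rw [hh1, map_mul, map_inv, map_zpow, hi, inv_mul_cancel]
  have hπh2 : π h2 = 1 := by rw [hh2, map_mul, map_inv, map_zpow, hj, inv_mul_cancel]
  have hh1H : h1 ∈ ⁅H, H⁆ := hV1 _ (H.mul_mem (H.inv_mem (H.zpow_mem htH i)) ha) hπh1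
  have hh2H : h2 ∈ ⁅H, H⁆ := hV1 _ (H.mul_mem (H.inv_mem (H.zpow_mem htH j)) hb) hπh2
  -- the multiples of `D κ`
  let κ := ⁅a, b⁆
  have hκπ : π κ = 1 := by
    rw [map_commutatorElement, commutatorElement_eq_one_iff_mul_comm]
    exact hcomm _ _
  let M : Subgroup P :=
    { carrier := {g | π g = 1 ∧ ∃ r : MonoidAlgebra ℤ Γ, ∀ x, D x g = r * D x κ}
      one_mem' := ⟨map_one π, 0, fun x => by rw [hD.one, zero_mul]⟩
      mul_mem' := by
        rintro g g' ⟨h1, r, hr⟩ ⟨h1', r', hr'⟩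
        refine ⟨by rw [map_mul, h1, h1', one_mul], r + r', fun x => ?_⟩
        rw [hD.mul, h1, ← MonoidAlgebra.one_def, one_mul, hr, hr', add_mul]
      inv_mem' := by
        rintro g ⟨h1, r, hr⟩
        refine ⟨by rw [map_inv, h1, inv_one], -r, fun x => ?_⟩
        rw [hD.inv, h1, inv_one, ← MonoidAlgebra.one_def, one_mul, hr, neg_mul] }
  have hMle : ⁅H, H⁆ ≤ M := by
    apply comm_le_of H M a b hH
    · rintro h - m ⟨hm1, r, hr⟩
      have e1 : π (h * m) = π h := by rw [map_mul, hm1, mul_one]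
      refine ⟨by rw [map_mul, e1, map_inv, mul_inv_cancel], single (π h) 1 * r, fun x => ?_⟩
      rw [hD.mul, hD.mul, e1, hD.inv, hr, mul_neg, ← mul_assoc, ← mul_assoc,
        MonoidAlgebra.single_mul_single, mul_inv_cancel, one_mul, ← MonoidAlgebra.one_def, one_mul]
      abel
    · exact ⟨hκπ, 1, fun x => by rw [one_mul]⟩
  obtain ⟨_, r1, hr1⟩ := hMle hh1H
  obtain ⟨_, r2, hr2⟩ := hMle hh2H
  let ρ : MonoidAlgebra ℤ Γ := (1 - single (π b) 1) * (single (π t ^ i) 1 * r1) +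
    (single (π a) 1 - 1) * (single (π t ^ j) 1 * r2)
  have hκ : ∀ x, D x κ = ρ * D x κ := by
    intro x
    have e0 := hD.comm' x (t ^ i) (t ^ j) (hcomm _ _)
    have e0' : ⁅t ^ i, t ^ j⁆ = 1 := by
      rw [commutatorElement_eq_one_iff_mul_comm, ← zpow_add, ← zpow_add, add_comm]
    rw [e0', hD.one, map_zpow, map_zpow, hi, hj] at e0
    have ea : a = t ^ i * h1 := by rw [hh1]; group
    have eb : b = t ^ j * h2 := by rw [hh2]; group
    have e1 : D x a = D x (t ^ i) + single (π t ^ i) 1 * (r1 * D x κ) := by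
      nth_rewrite 1 [ea]
      rw [hD.mul, hr1, map_zpow]
    have e2 : D x b = D x (t ^ j) + single (π t ^ j) 1 * (r2 * D x κ) := by
      nth_rewrite 1 [eb]
      rw [hD.mul, hr2, map_zpow]
    have e3 := hD.comm' x a b (hcomm _ _)
    rw [e1, e2] at e3
    calc D x κ = _ := e3
      _ = ((1 - single (π b) 1) * D x (t ^ i) + (single (π a) 1 - 1) * D x (t ^ j)) +
          ρ * D x κ := by
          simp only [ρ]
          noncomm_ring
      _ = ρ * D x κ := by rw [← e0, zero_add]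
  have hε : aug (1 - ρ) = 1 := by
    simp only [ρ]
    simp [aug_single]
  have hne : (1 - ρ) ≠ 0 := by
    intro h0
    rw [h0, map_zero] at hε
    exact zero_ne_one hε
  have := hΓ.up
  have hzero : ∀ x, D x κ = 0 := by
    intro x
    have : (1 - ρ) * D x κ = 0 := by rw [sub_mul, one_mul, ← hκ x, sub_self]
    rcases mul_eq_zero.1 this with h0 | h0
    · exact absurd h0 hne
    · exact h0
  have hκmem := hD.inj κ hκπ hzero
  have hκH : κ ∈ H := by
    have := Subgroup.commutator_mem_commutator ha hb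
    exact (Subgroup.commutator_le.2 (fun g hg h hh => by
      rw [commutatorElement_def]
      exact H.mul_mem (H.mul_mem (H.mul_mem hg hh) (H.inv_mem hg)) (H.inv_mem hh))) this
  apply comm_le_of H _ a b hH _ (hV2 κ hκH hκmem)
  -- the second derived subgroup is normalized
  intro h hh m hm
  have hHH : ∀ g ∈ ⁅H, H⁆, h * g * h⁻¹ ∈ ⁅H, H⁆ := by
    intro g hg
    have h3 : g ∈ (⁅H, H⁆).map (MulAut.conj h⁻¹).toMonoidHom := by
      rw [Subgroup.map_commutator]
      have h4 : H.map (MulAut.conj h⁻¹).toMonoidHom = H := by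
        apply le_antisymm
        · rintro _ ⟨y, hy, rfl⟩
          show h⁻¹ * y * h⁻¹⁻¹ ∈ H
          exact H.mul_mem (H.mul_mem (H.inv_mem hh) hy) (H.inv_mem (H.inv_mem hh))
        · intro y hy
          refine ⟨h * y * h⁻¹, H.mul_mem (H.mul_mem hh hy) (H.inv_mem hh), ?_⟩
          show h⁻¹ * (h * y * h⁻¹) * h⁻¹⁻¹ = y
          group
      rw [h4]
      exact hg
    obtain ⟨y, hy, hyg⟩ := h3
    have : h * g * h⁻¹ = y := by
      rw [← hyg]
      show h * (h⁻¹ * y * h⁻¹⁻¹) * h⁻¹ = y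
      group
    rw [this]
    exact hy
  have h3 : h * m * h⁻¹ ∈ (⁅⁅H, H⁆, ⁅H, H⁆⁆).map (MulAut.conj h).toMonoidHom :=
    ⟨m, hm, rfl⟩
  rw [Subgroup.map_commutator] at h3
  have h4 : (⁅H, H⁆).map (MulAut.conj h).toMonoidHom ≤ ⁅H, H⁆ := by
    rintro _ ⟨y, hy, rfl⟩
    exact hHH y hy
  exact Subgroup.commutator_mono h4 h4 h3

end Pool.Agent.Poly
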