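import Mathlib
import Pool.Agent.Lib_helper1.Poly.LCS

/-!
Endomorphisms of nilpotent groups which are the identity on the abelianization.
-/

open scoped commutatorElement

namespace Pool.Agent.Poly

variable {M : Type*} [Group M]

lemma endo_step (f : M →* M) (hf : ∀ m, f m * m⁻¹ ∈ (⊤ : Subgroup M).lowerCentralSeries 1)
    (i : ℕ) : ∀ m ∈ (⊤ : Subgroup M).lowerCentralSeries i,
      f m * m⁻¹ ∈ (⊤ : Subgroup M).lowerCentralSeries (i + 1) := by
  induction i with
  | zero => intro m _; exact hf m
  | succ i ih =>
    set L := (⊤ : Subgroup M).lowerCentralSeries (i + 1 + 1) with hL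
    have hLn : L.Normal := inferInstance
    let q := QuotientGroup.mk' L
    have hq : ∀ g, q g = 1 ↔ g ∈ L := by
      intro g
      rw [← MonoidHom.mem_ker, QuotientGroup.ker_mk']
    -- central elements
    have hcen : ∀ z ∈ (⊤ : Subgroup M).lowerCentralSeries (i + 1), ∀ m, q z * q m = q m * q z := by
      intro z hz m
      rw [← commutatorElement_eq_one_iff_mul_comm, ← map_commutatorElement, hq, hL,
        Subgroup.lowerCentralSeries_succ]
      exact Subgroup.commutator_mem_commutator hz trivial
    have hsub : (⊤ : Subgroup M).lowerCentralSeries (i + 1) ≤ MonoidHom.eqLocus (q.comp f) q := by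
      rw [Subgroup.lowerCentralSeries_succ, Subgroup.commutator_le]
      intro g hg h _
      show q (f ⁅g, h⁆) = q ⁅g, h⁆
      obtain ⟨g', hg'⟩ : ∃ g', g' = f g * g⁻¹ := ⟨_, rfl⟩
      obtain ⟨h', hh'⟩ : ∃ h', h' = f h * h⁻¹ := ⟨_, rfl⟩
      have hg1 : f g = g' * g := by rw [hg']; group
      have hh1 : f h = h' * h := by rw [hh']; group
      have hg2 : g' ∈ (⊤ : Subgroup M).lowerCentralSeries (i + 1) := by rw [hg']; exact ih g hg
      have hh2 : h' ∈ (⊤ : Subgroup M).lowerCentralSeries 1 := by rw [hh']; exact hf h
      have c1 := hcen g' hg2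
      have c2 : q g * q h' = q h' * q g := by
        rw [← commutatorElement_eq_one_iff_mul_comm, ← map_commutatorElement, hq]
        have := comm_lcs_top 1 i (Subgroup.commutator_mem_commutator hg hh2)
        exact this
      have c3 := hcen ⁅g, h⁆ (by
        rw [Subgroup.lowerCentralSeries_succ]
        exact Subgroup.commutator_mem_commutator hg trivial)
      rw [map_commutatorElement, hg1, hh1, map_commutatorElement, map_commutatorElement,
        map_mul q g' g, map_mul q h' h]
      rw [map_commutatorElement] at c3
      -- ⁅g' g, h' h⁆ = ⁅g, h⁆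
      have e1 : ⁅q g' * q g, q h' * q h⁆ = ⁅q g, q h' * q h⁆ := by
        rw [commutatorElement_def, commutatorElement_def]
        have := c1 (g * (h' * h) * g⁻¹)
        simp only [map_mul, map_inv] at this
        calc q g' * q g * (q h' * q h) * (q g' * q g)⁻¹ * (q h' * q h)⁻¹
            = (q g' * (q g * (q h' * q h) * (q g)⁻¹)) * (q g')⁻¹ * (q h' * q h)⁻¹ := by group
          _ = (q g * (q h' * q h) * (q g)⁻¹ * q g') * (q g')⁻¹ * (q h' * q h)⁻¹ := by rw [this]
          _ = _ := by group
      have e2 : ⁅q g, q h' * q h⁆ = ⁅q g, q h⁆ := by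
        have e3 : ⁅q g, q h' * q h⁆ = (q g * q h') * (q g)⁻¹ * (q g * q h * (q g)⁻¹ * (q h)⁻¹) *
            (q h')⁻¹ := by
          rw [commutatorElement_def]; group
        rw [e3, c2, mul_inv_cancel_right, ← commutatorElement_def, ← c3 h', mul_inv_cancel_right]
      rw [e1, e2]
    intro m hm
    have h1 : q (f m) = q m := hsub hm
    rw [← hq, map_mul, h1, map_inv, mul_inv_cancel]

lemma endo_bij (f : M →* M) (hf : ∀ m, f m * m⁻¹ ∈ (⊤ : Subgroup M).lowerCentralSeries 1)
    (n : ℕ) (hn : (⊤ : Subgroup M).lowerCentralSeries n = ⊥) : Function.Bijective f := by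
  constructor
  · rw [injective_iff_map_eq_one]
    intro m hm
    have key : ∀ i, m ∈ (⊤ : Subgroup M).lowerCentralSeries i := by
      intro i
      induction i with
      | zero => rw [Subgroup.lowerCentralSeries_zero]; trivial
      | succ i ih =>
        have := endo_step f hf i m ih
        rw [hm, one_mul] at this
        exact (Subgroup.inv_mem_iff _).1 this
    have := key n
    rw [hn] at this
    exact Subgroup.mem_bot.1 this
  · have key : ∀ j i, i + j = n → (⊤ : Subgroup M).lowerCentralSeries i ≤ f.range := by
      intro j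
      induction j with
      | zero =>
        intro i hi
        rw [add_zero] at hi
        rw [hi, hn]
        exact bot_le
      | succ j ih =>
        intro i hi m hm
        have h1 := ih (i + 1) (by omega) (endo_step f hf i m hm)
        have h2 : m = (f m * m⁻¹)⁻¹ * f m := by group
        rw [h2]
        exact f.range.mul_mem (f.range.inv_mem h1) ⟨m, rfl⟩
    intro m
    have := key n 0 (by omega) (x := m) (by rw [Subgroup.lowerCentralSeries_zero]; trivial)
    exact this

end Pool.Agent.Poly
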