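import Mathlib
import Pool.Agent.Lib_helper1.Poly.MagData

/-!
Fox calculus and the Ore condition: relation modules of two-generator groups have rank one.
-/

open scoped commutatorElement

namespace Pool.Agent.Poly

open MonoidAlgebra (single)

section

variable {I Γ : Type*} [Group Γ]

/-- crossed homomorphisms to the group ring -/
def Crossed (ψ : FreeGroup I →* Γ) (E : FreeGroup I → MonoidAlgebra ℤ Γ) : Prop :=
  ∀ w w', E (w * w') = E w + single (ψ w) 1 * E w'

lemma Crossed.one {ψ : FreeGroup I →* Γ} {E : FreeGroup I → MonoidAlgebra ℤ Γ}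
    (h : Crossed ψ E) : E 1 = 0 := by
  have := h 1 1
  rw [mul_one, map_one, ← MonoidAlgebra.one_def, one_mul] at this
  exact left_eq_add.1 this

lemma Crossed.inv {ψ : FreeGroup I →* Γ} {E : FreeGroup I → MonoidAlgebra ℤ Γ}
    (h : Crossed ψ E) (w : FreeGroup I) : E w⁻¹ = -(single (ψ w)⁻¹ 1 * E w) := by
  have := h w⁻¹ w
  rw [inv_mul_cancel, h.one, map_inv] at this
  exact eq_neg_of_add_eq_zero_left this.symm

lemma fox_formula [Fintype I] {ψ : FreeGroup I →* Γ} {E : FreeGroup I → MonoidAlgebra ℤ Γ}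
    (h : Crossed ψ E) (w : FreeGroup I) :
    E w = ∑ i, toRing i (D ψ w) * E (FreeGroup.of i) := by
  classical
  induction w using FreeGroup.induction_on with
  | C1 => simp [h.one, D_one]
  | of j =>
    rw [D_of, Finset.sum_eq_single j]
    · rw [toRing_single, if_pos rfl, ← MonoidAlgebra.one_def, one_mul]
    · intro i _ hij
      rw [toRing_single, if_neg (Ne.symm hij), zero_mul]
    · intro hj
      exact absurd (Finset.mem_univ _) hj
  | inv_of j ih =>
    rw [h.inv, ih, Finset.mul_sum, ← Finset.sum_neg_distrib]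
    apply Finset.sum_congr rfl
    intro i _
    rw [D_inv, map_neg, toRing_act, neg_mul, mul_assoc]
  | mul w w' ih ih' =>
    rw [h w w', ih, ih', Finset.mul_sum, ← Finset.sum_add_distrib]
    apply Finset.sum_congr rfl
    intro i _
    rw [D_mul, map_add, toRing_act, add_mul, mul_assoc]

end

theorem ore_step {Γ : Type*} [Group Γ] (hΓ : Good Γ) (ψ : FreeGroup (Fin 2) →* Γ)
    (h0 : ψ (FreeGroup.of 0) ≠ 1) (w w0 : FreeGroup (Fin 2)) (hw : ψ w = 1) (hw0 : ψ w0 = 1) :
    ∃ p q : MonoidAlgebra ℤ Γ, (p ≠ 0 ∨ q ≠ 0) ∧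
      ∀ E : FreeGroup (Fin 2) → MonoidAlgebra ℤ Γ, Crossed ψ E → p * E w + q * E w0 = 0 := by
  have hup := hΓ.up
  obtain ⟨p, q, hpq, hrel⟩ := hΓ.fol.ore (toRing 1 (D ψ w)) (toRing 1 (D ψ w0))
  refine ⟨p, q, hpq, ?_⟩
  have hfund : ∀ w : FreeGroup (Fin 2), ψ w = 1 →
      toRing 0 (D ψ w) * (single (ψ (FreeGroup.of 0)) 1 - 1) =
        -(toRing 1 (D ψ w) * (single (ψ (FreeGroup.of 1)) 1 - 1)) := by
    intro w hw
    have hE : Crossed ψ (fun w => single (ψ w) 1 - 1) := by
      intro w w'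
      simp only
      rw [map_mul, mul_sub, MonoidAlgebra.single_mul_single, one_mul, mul_one]
      abel
    have := fox_formula hE w
    rw [hw, ← MonoidAlgebra.one_def, sub_self, Fin.sum_univ_two] at this
    exact eq_neg_of_add_eq_zero_left this.symm
  have hne : (single (ψ (FreeGroup.of 0)) (1 : ℤ) - 1) ≠ 0 := by
    intro h
    rw [sub_eq_zero, MonoidAlgebra.one_def] at h
    exact h0 (MonoidAlgebra.single_left_injective one_ne_zero h)
  have hrel0 : p * toRing 0 (D ψ w) + q * toRing 0 (D ψ w0) = 0 := by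
    have : (p * toRing 0 (D ψ w) + q * toRing 0 (D ψ w0)) *
        (single (ψ (FreeGroup.of 0)) 1 - 1) = 0 := by
      rw [add_mul, mul_assoc, mul_assoc, hfund w hw, hfund w0 hw0, mul_neg, mul_neg,
        ← mul_assoc, ← mul_assoc, ← neg_add, ← add_mul, hrel, zero_mul, neg_zero]
    rcases mul_eq_zero.1 this with h | h
    · exact h
    · exact absurd h hne
  intro E hE
  rw [fox_formula hE w, fox_formula hE w0, Fin.sum_univ_two, Fin.sum_univ_two]
  calc p * (toRing 0 (D ψ w) * E (FreeGroup.of 0) + toRing 1 (D ψ w) * E (FreeGroup.of 1)) +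
        q * (toRing 0 (D ψ w0) * E (FreeGroup.of 0) + toRing 1 (D ψ w0) * E (FreeGroup.of 1))
      = (p * toRing 0 (D ψ w) + q * toRing 0 (D ψ w0)) * E (FreeGroup.of 0) +
        (p * toRing 1 (D ψ w) + q * toRing 1 (D ψ w0)) * E (FreeGroup.of 1) := by
        noncomm_ring
    _ = 0 := by rw [hrel0, hrel, zero_mul, zero_mul, add_zero]

end Pool.Agent.Poly
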