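import Mathlib
import Pool.Agent.Lib_helper1.Poly.Good

/-!
The root argument in group rings of good groups.
-/

namespace Pool.Agent.Poly

open MonoidAlgebra (single)

section

variable {G : Type*} [Group G]

open Classical in
/-- sum of the coefficients on the coset `⟨x⟩ b` -/
noncomputable def cosum (x b : G) : MonoidAlgebra ℤ G →+ ℤ :=
  (Finsupp.liftAddHom fun h => if h * b⁻¹ ∈ Subgroup.zpowers x then AddMonoidHom.id ℤ else 0).comp
    (MonoidAlgebra.coeffAddEquiv (R := ℤ) (M := G)).toAddMonoidHom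

open Classical in
lemma cosum_eq (x b : G) (f : MonoidAlgebra ℤ G) : cosum x b f =
    f.coeff.sum fun h n => if h * b⁻¹ ∈ Subgroup.zpowers x then n else 0 := by
  unfold cosum
  rw [AddMonoidHom.comp_apply, Finsupp.liftAddHom_apply]
  apply Finsupp.sum_congr
  intro h _
  split_ifs <;> rfl

open Classical in
lemma cosum_single (x b h : G) (n : ℤ) : cosum x b (single h n) =
    if h * b⁻¹ ∈ Subgroup.zpowers x then n else 0 := by
  rw [cosum_eq, MonoidAlgebra.coeff_single, Finsupp.sum_single_index]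
  simp

lemma cosum_mul (x b : G) (f : MonoidAlgebra ℤ G) :
    cosum x b (single x 1 * f) = cosum x b f := by
  classical
  have : (cosum x b).comp (AddMonoidHom.mulLeft (single x 1)) = cosum x b := by
    apply MonoidAlgebra.addMonoidHom_ext
    intro h n
    rw [AddMonoidHom.comp_apply, AddMonoidHom.coe_mulLeft, MonoidAlgebra.single_mul_single,
      one_mul, cosum_single, cosum_single, mul_assoc]
    have : x * (h * b⁻¹) ∈ Subgroup.zpowers x ↔ h * b⁻¹ ∈ Subgroup.zpowers x :=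
      Subgroup.mul_mem_cancel_left _ (Subgroup.mem_zpowers x)
    simp only [this]
  exact DFunLike.congr_fun this f

/-- the root argument -/
theorem Good.root (hG : Good G) (a : G) (ha : a ≠ 1) (β : MonoidAlgebra ℤ G) (hβ : β ≠ 0) :
    ∃ m0 : ℕ, ∀ m ≥ m0, ∀ (z : G) (α : MonoidAlgebra ℤ G),
      (single (z ^ m) 1 - 1) * α = (single (a ^ m) 1 - 1) * β → ∃ k : ℤ, z ^ k = a := by
  classical
  have hβ' : β.coeff ≠ 0 := fun h => hβ (MonoidAlgebra.coeff_eq_zero.1 h)
  obtain ⟨b0, hb0⟩ := Finsupp.support_nonempty_iff.2 hβ'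
  -- thresholds
  have hth : ∀ a c : G, ∃ m0 : ℕ, ∀ m ≥ m0, ∀ z : G, z ^ m = a ^ m * c → c = 1 := by
    intro a c
    by_cases hc : c = 1
    · exact ⟨0, fun _ _ _ _ => hc⟩
    · obtain ⟨m0, hm0⟩ := hG.gap a c hc
      exact ⟨m0, fun m hm z hz => absurd hz (hm0 m hm z)⟩
  choose t ht using hth
  let f : G → ℕ := fun b => max (t 1 (b * b0⁻¹)) (max (t a (b * b0⁻¹)) (t 1 (b * b0⁻¹)⁻¹))
  refine ⟨β.coeff.support.sup f + 1, ?_⟩
  intro m hm z α heq
  have hm1 : 1 ≤ m := by omega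
  have hmf : ∀ b ∈ β.coeff.support, f b ≤ m := fun b hb => by
    have := Finset.le_sup (f := f) hb
    omega
  have T1 : ∀ b ∈ β.coeff.support, ∀ z : G, z ^ m = b * b0⁻¹ → b * b0⁻¹ = 1 := by
    intro b hb z hz
    apply ht 1 (b * b0⁻¹) m ((le_max_left _ _).trans (hmf b hb)) z
    rw [hz, one_pow, one_mul]
  have T2 : ∀ b ∈ β.coeff.support, ∀ z : G, z ^ m = a ^ m * (b * b0⁻¹) → b * b0⁻¹ = 1 := by
    intro b hb z hz
    exact ht a (b * b0⁻¹) m
      ((le_max_left _ _).trans ((le_max_right _ _).trans (hmf b hb))) z hz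
  have T3 : ∀ b ∈ β.coeff.support, ∀ z : G, z ^ m = (b * b0⁻¹)⁻¹ → (b * b0⁻¹)⁻¹ = 1 := by
    intro b hb z hz
    apply ht 1 (b * b0⁻¹)⁻¹ m
      ((le_max_right _ _).trans ((le_max_right _ _).trans (hmf b hb))) z
    rw [hz, one_pow, one_mul]
  by_contra hno
  push Not at hno
  set T := (single (a ^ m) 1 - 1) * β with hT
  have hTc : ∀ h, T.coeff h = β.coeff ((a ^ m)⁻¹ * h) - β.coeff h := by
    intro h
    rw [hT, sub_mul, one_mul, MonoidAlgebra.coeff_sub, Finsupp.sub_apply,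
      MonoidAlgebra.coeff_single_mul_apply, one_mul]
  have hzero : cosum (z ^ m) b0 T = 0 := by
    rw [← heq, sub_mul, one_mul, map_sub, cosum_mul, sub_self]
  have hclaim : ∀ h ∈ T.coeff.support, h * b0⁻¹ ∈ Subgroup.zpowers (z ^ m) → h = b0 := by
    intro h hh hz
    obtain ⟨j, hj⟩ := Subgroup.mem_zpowers_iff.1 hz
    have hj' : (z ^ j) ^ m = h * b0⁻¹ := by
      rw [← hj, ← zpow_natCast, ← zpow_natCast, ← zpow_mul, ← zpow_mul, mul_comm]
    rw [Finsupp.mem_support_iff, hTc] at hh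
    by_cases h1 : β.coeff h = 0
    · rw [h1, sub_zero] at hh
      have hb : (a ^ m)⁻¹ * h ∈ β.coeff.support := Finsupp.mem_support_iff.2 hh
      have e : h * b0⁻¹ = a ^ m * ((a ^ m)⁻¹ * h * b0⁻¹) := by group
      have h2 := T2 _ hb (z ^ j) (by rw [hj', e])
      rw [h2, mul_one] at e
      rw [e] at hj'
      exact absurd (hG.roots m hm1 _ _ hj') (hno j)
    · have h2 := T1 h (Finsupp.mem_support_iff.2 h1) (z ^ j) hj'
      exact mul_inv_eq_one.1 h2
  have hb0' : β.coeff ((a ^ m)⁻¹ * b0) = 0 := by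
    by_contra hne
    have h1 := T3 _ (Finsupp.mem_support_iff.2 hne) a (by group)
    have h2 : a ^ m = 1 := by
      have e : ((a ^ m)⁻¹ * b0 * b0⁻¹)⁻¹ = a ^ m := by group
      rw [← e, h1]
    exact ha (hG.roots m hm1 a 1 (by rw [h2, one_pow]))
  have hTb0 : T.coeff b0 ≠ 0 := by
    rw [hTc, hb0', zero_sub, neg_ne_zero]
    exact Finsupp.mem_support_iff.1 hb0
  apply hTb0
  rw [← hzero, cosum_eq, Finsupp.sum, Finset.sum_eq_single b0]
  · rw [if_pos]
    rw [mul_inv_cancel]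
    exact Subgroup.one_mem _
  · intro h hh hne
    rw [if_neg]
    intro hz
    exact hne (hclaim h hh hz)
  · intro h
    rw [Finsupp.notMem_support_iff.1 h]
    split_ifs <;> rfl

end

end Pool.Agent.Poly
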