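import Mathlib
import Pool.Agent.Lib_helper1.Poly.Ore
import Pool.Agent.Lib_helper1.Poly.Root
import Pool.Agent.Lib_helper1.Poly.Nilp

/-!
The main step.
-/

open scoped commutatorElement

namespace Pool.Agent.Poly

open MonoidAlgebra (single)

lemma single_sub_one_ne {G : Type*} [Group G] {g : G} (hg : g ≠ 1) :
    (single g (1 : ℤ) - 1) ≠ 0 := by
  intro h
  rw [sub_eq_zero, MonoidAlgebra.one_def] at h
  exact hg (MonoidAlgebra.single_left_injective one_ne_zero h)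

section

variable {X P Γ : Type*} [Group P] [Group Γ] {π : P →* Γ} {D : X → P → MonoidAlgebra ℤ Γ}

/-- from the four cases: the square of `φ` is the identity modulo the kernel of `π` -/
lemma sq_id (φ : P →* P) (H : Subgroup P) (a b : P) (ha : a ∈ H) (hb : b ∈ H)
    (hcong : ∀ p q, p ∈ H → q ∈ H → π p = π q → π (φ p) = π (φ q)) (g : P) (hg : g ∈ H)
    (h : (π (φ a) = π a ∧ (π (φ b) = π b ∨ π (φ b) = (π b)⁻¹)) ∨
      (π (φ a) = (π a)⁻¹ ∧ π (φ g) = (π g)⁻¹ ∧ (π (φ b) = π g * π b * (π g)⁻¹ ∨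
        π (φ b) = π g * (π b)⁻¹ * (π g)⁻¹)))
    (hφ : ∀ p, φ p ∈ H) :
    π (φ (φ a)) = π a ∧ π (φ (φ b)) = π b := by
  rcases h with ⟨h1, h2⟩ | ⟨h1, h3, h2⟩
  · refine ⟨?_, ?_⟩
    · rw [hcong (φ a) a (hφ a) ha h1, h1]
    · rcases h2 with h2 | h2
      · rw [hcong (φ b) b (hφ b) hb h2, h2]
      · rw [hcong (φ b) b⁻¹ (hφ b) (H.inv_mem hb) (by rw [h2, map_inv]), map_inv, map_inv, h2,
          inv_inv]
  · refine ⟨?_, ?_⟩
    · rw [hcong (φ a) a⁻¹ (hφ a) (H.inv_mem ha) (by rw [h1, map_inv]), map_inv, map_inv, h1,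
        inv_inv]
    · rcases h2 with h2 | h2
      · rw [hcong (φ b) (g * b * g⁻¹) (hφ b) (H.mul_mem (H.mul_mem hg hb) (H.inv_mem hg))
          (by rw [h2, map_mul, map_mul, map_inv])]
        simp only [map_mul, map_inv]
        rw [h2, h3]
        group
      · rw [hcong (φ b) (g * b⁻¹ * g⁻¹) (hφ b)
          (H.mul_mem (H.mul_mem hg (H.inv_mem hb)) (H.inv_mem hg))
          (by rw [h2, map_mul, map_mul, map_inv, map_inv])]
        simp only [map_mul, map_inv]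
        rw [h2, h3]
        group

lemma pm_of {G : Type*} [Group G] {z a : G} {k : ℤ} (hk : k = 1 ∨ k = -1) (h : z ^ k = a) :
    z = a ∨ z = a⁻¹ := by
  rcases hk with rfl | rfl
  · left; rw [← h, zpow_one]
  · right; rw [← h, zpow_neg, zpow_one, inv_inv]

/-- analysis of the equation `φ h = h` for a suitable element `h` -/
theorem exists_sq (hD : Mag π D) (hΓ : Good Γ) (H : Subgroup P) (a b v0 : P)
    (ha : a ∈ H) (hb : b ∈ H) (hv : v0 ∈ H) (hv0 : π v0 = 1) (x : X) (hx : D x v0 ≠ 0)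
    (hVC : ∀ h ∈ H, ∃ φ : P →* P, (∀ p, φ p ∈ H) ∧ φ h = h)
    (hker : ∀ φ : P →* P, (∀ p, φ p ∈ H) → ∀ p, π p = 1 → π (φ p) = 1)
    (hpa : ∀ z ∈ H, ∀ k : ℤ, π z ^ k = π a → k = 1 ∨ k = -1)
    (hpb : ∀ z ∈ H, ∀ k : ℤ, π z ^ k = π b → k = 1 ∨ k = -1) :
    ∃ χ : P →* P, (∀ p, χ p ∈ H) ∧ π (χ a) = π a ∧ π (χ b) = π b ∧
      ∀ y, D y (χ v0) = D y v0 := by
  have hup := hΓ.up
  have hA1 : π a ≠ 1 := by
    intro h
    have := hpa 1 H.one_mem 0 (by rw [h, zpow_zero])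
    omega
  have hB1 : π b ≠ 1 := by
    intro h
    have := hpb 1 H.one_mem 0 (by rw [h, zpow_zero])
    omega
  have hpow : ∀ g : Γ, g ≠ 1 → ∀ m : ℕ, 1 ≤ m → g ^ m ≠ 1 := by
    intro g hg m hm h
    exact hg (hΓ.roots m hm g 1 (by rw [h, one_pow]))
  obtain ⟨n2, hn2⟩ := hΓ.root (π b) hB1 (D x v0) hx
  set m2 := max n2 1 with hm2
  have hβ1 : (single (π b ^ m2) 1 - 1) * D x v0 ≠ 0 :=
    mul_ne_zero (single_sub_one_ne (hpow _ hB1 m2 (le_max_right _ _))) hx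
  obtain ⟨n1, hn1⟩ := hΓ.root (π a) hA1 _ hβ1
  set m1 := max n1 1 with hm1
  have hAm : (single (π a ^ m1) (1 : ℤ) - 1) ≠ 0 :=
    single_sub_one_ne (hpow _ hA1 m1 (le_max_right _ _))
  have hBm : (single (π b ^ m2) (1 : ℤ) - 1) ≠ 0 :=
    single_sub_one_ne (hpow _ hB1 m2 (le_max_right _ _))
  -- Fox derivatives of the commutator
  have hDh : ∀ (y : X) (p q v : P), π v = 1 → D y ⁅p ^ m1, ⁅q ^ m2, v⁆⁆ =
      (single (π p ^ m1) 1 - 1) * ((single (π q ^ m2) 1 - 1) * D y v) := by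
    intro y p q v hv
    have h1 : π ⁅q ^ m2, v⁆ = 1 := by
      rw [map_commutatorElement, hv, commutatorElement_one_right]
    rw [hD.comm y _ _ h1, hD.comm y _ _ hv, map_pow, map_pow]
  have hcomm : ∀ p ∈ H, ∀ q ∈ H, ⁅p, q⁆ ∈ H := by
    intro p hp q hq
    rw [commutatorElement_def]
    exact H.mul_mem (H.mul_mem (H.mul_mem hp hq) (H.inv_mem hp)) (H.inv_mem hq)
  obtain ⟨φ, hφH, hφ⟩ := hVC ⁅a ^ m1, ⁅b ^ m2, v0⁆⁆
    (hcomm _ (H.pow_mem ha _) _ (hcomm _ (H.pow_mem hb _) _ hv))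
  have hφv : π (φ v0) = 1 := hker φ hφH v0 hv0
  have hφe : ⁅(φ a) ^ m1, ⁅(φ b) ^ m2, φ v0⁆⁆ = ⁅a ^ m1, ⁅b ^ m2, v0⁆⁆ := by
    have := hφ
    simp only [map_commutatorElement, map_pow] at this
    exact this
  have heq : (single (π (φ a) ^ m1) 1 - 1) * ((single (π (φ b) ^ m2) 1 - 1) * D x (φ v0)) =
      (single (π a ^ m1) 1 - 1) * ((single (π b ^ m2) 1 - 1) * D x v0) := by
    rw [← hDh x a b v0 hv0, ← hDh x (φ a) (φ b) (φ v0) hφv, hφe]
  obtain ⟨k, hk⟩ := hn1 m1 (le_max_left _ _) _ _ heq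
  have hcong : ∀ p q, π p = π q → π (φ p) = π (φ q) := by
    intro p q hpq
    have h1 : π (p * q⁻¹) = 1 := by rw [map_mul, map_inv, hpq, mul_inv_cancel]
    have h2 := hker φ hφH _ h1
    rw [map_mul, map_mul, map_inv, map_inv] at h2
    exact mul_inv_eq_one.1 h2
  have hsq : π (φ (φ a)) = π a ∧ π (φ (φ b)) = π b := by
    apply sq_id φ H a b ha hb (fun p q _ _ h => hcong p q h) (a ^ m1) (H.pow_mem ha _) _ hφH
    rcases pm_of (hpa _ (hφH a) k hk) hk with hφa | hφa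
    · left
      refine ⟨hφa, ?_⟩
      rw [hφa] at heq
      have h2 := mul_left_cancel₀ hAm heq
      obtain ⟨k', hk'⟩ := hn2 m2 (le_max_left _ _) _ _ h2
      exact pm_of (hpb _ (hφH b) k' hk') hk'
    · right
      refine ⟨hφa, by rw [map_pow, map_pow, map_pow, hφa, inv_pow], ?_⟩
      rw [hφa] at heq
      set C := (π a ^ m1)⁻¹ * π (φ b) * π a ^ m1 with hC
      have hCH : C = π ((a ^ m1)⁻¹ * φ b * a ^ m1) := by
        rw [hC, map_mul, map_mul, map_inv, map_pow]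
      have hCm : C ^ m2 = (π a ^ m1)⁻¹ * π (φ b) ^ m2 * π a ^ m1 := by
        have := conj_pow (a := (π a ^ m1)⁻¹) (b := π (φ b)) (i := m2)
        rw [inv_inv] at this
        exact this
      have e1 : (single ((π a)⁻¹ ^ m1) (1 : ℤ) - 1) =
          (single (π a ^ m1) 1 - 1) * -(single (π a ^ m1)⁻¹ 1) := by
        rw [mul_neg, sub_mul, MonoidAlgebra.single_mul_single, mul_inv_cancel, one_mul, one_mul,
          inv_pow, MonoidAlgebra.one_def]
        abel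
      have e2 : -(single (π a ^ m1)⁻¹ (1 : ℤ)) * (single (π (φ b) ^ m2) 1 - 1) =
          (single (C ^ m2) 1 - 1) * -(single (π a ^ m1)⁻¹ 1) := by
        rw [neg_mul, mul_sub, MonoidAlgebra.single_mul_single, mul_neg, sub_mul,
          MonoidAlgebra.single_mul_single, mul_one, mul_one, one_mul, hCm, mul_assoc,
          mul_inv_cancel, mul_one]
      rw [e1, mul_assoc] at heq
      have h2 := mul_left_cancel₀ hAm heq
      rw [← mul_assoc, e2, mul_assoc] at h2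
      obtain ⟨k', hk'⟩ := hn2 m2 (le_max_left _ _) _ _ h2
      have hCm' := pm_of (hpb _ (H.mul_mem (H.mul_mem (H.inv_mem (H.pow_mem ha m1)) (hφH b))
        (H.pow_mem ha m1)) k' (by rw [← hCH]; exact hk')) hk'
      have h4 : π (φ b) = π (a ^ m1) * C * (π (a ^ m1))⁻¹ := by
        rw [hC, map_pow]; group
      rcases hCm' with h3 | h3
      · left; rw [h4, h3]
      · right; rw [h4, h3]
  refine ⟨φ.comp φ, fun p => hφH _, hsq.1, hsq.2, ?_⟩
  intro y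
  have hφφv : π (φ (φ v0)) = 1 := hker φ hφH _ hφv
  have h1 : ⁅(φ (φ a)) ^ m1, ⁅(φ (φ b)) ^ m2, φ (φ v0)⁆⁆ = ⁅a ^ m1, ⁅b ^ m2, v0⁆⁆ := by
    have := congrArg φ hφe
    simp only [map_commutatorElement, map_pow] at this
    exact this.trans hφe
  have h2 := congrArg (D y) h1
  rw [hDh y _ _ _ hφφv, hDh y _ _ _ hv0, hsq.1, hsq.2] at h2
  exact mul_left_cancel₀ hBm (mul_left_cancel₀ hAm h2)

end

end Pool.Agent.Poly
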