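import Mathlib
import Pool.Agent.Lib_helper1.Poly.MainStep

/-!
From an endomorphism which is the identity modulo the kernel to a retraction.
-/

open scoped commutatorElement

namespace Pool.Agent.Poly

open MonoidAlgebra (single)

section

variable {X P Γ : Type*} [Group P] [Group Γ] {π : P →* Γ} {D : X → P → MonoidAlgebra ℤ Γ}

lemma lcs_one_eq {G : Type*} [Group G] (N : Subgroup G) : N.lowerCentralSeries 1 = ⁅N, N⁆ := rfl

lemma mem_top_lcs {G : Type*} [Group G] (N : Subgroup G) (n : ℕ) (m : N) :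
    m ∈ (⊤ : Subgroup N).lowerCentralSeries n ↔ (m : G) ∈ N.lowerCentralSeries n := by
  rw [← Subgroup.top_subtype_lowerCentralSeries N n, Subgroup.mem_map]
  constructor
  · intro h
    exact ⟨m, h, rfl⟩
  · rintro ⟨b, hb, hb'⟩
    have : b = m := Subtype.ext hb'
    rwa [← this]

theorem fox_eq (hD : Mag π D) (hΓ : Good Γ) (H : Subgroup P) (a b v0 : P)
    (hH : H = Subgroup.closure {a, b}) (hv0H : v0 ∈ H) (hv0 : π v0 = 1)
    (ha1 : π a ≠ 1) (x : X) (hx : D x v0 ≠ 0)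
    (χ : P →* P) (hπχ : ∀ h ∈ H, π (χ h) = π h)
    (hχv : ∀ y, D y (χ v0) = D y v0) (v : P) (hvH : v ∈ H) (hv : π v = 1) (y : X) :
    D y (χ v) = D y v := by
  have hup := hΓ.up
  let θ : FreeGroup (Fin 2) →* P := FreeGroup.lift ![a, b]
  have hθ : θ.range = H := by
    simp only [θ]
    rw [FreeGroup.range_lift_eq_closure, hH]
    congr 1
    ext z
    simp
    tauto
  have hθH : ∀ w, θ w ∈ H := fun w => by rw [← hθ]; exact ⟨w, rfl⟩
  obtain ⟨w, hw⟩ : v ∈ θ.range := by rw [hθ]; exact hvH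
  obtain ⟨w0, hw0⟩ : v0 ∈ θ.range := by rw [hθ]; exact hv0H
  have h0 : (π.comp θ) (FreeGroup.of 0) ≠ 1 := by
    rw [MonoidHom.comp_apply]
    simp only [θ]
    rw [FreeGroup.lift_apply_of]
    exact ha1
  obtain ⟨p, q, hpq, hE⟩ := ore_step hΓ (π.comp θ) h0 w w0
    (by rw [MonoidHom.comp_apply, hw, hv]) (by rw [MonoidHom.comp_apply, hw0, hv0])
  have hE1 : ∀ y, Crossed (π.comp θ) (fun w => D y (θ w)) := by
    intro y w w'
    simp only
    rw [map_mul, hD.mul]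
    rfl
  have hE2 : ∀ y, Crossed (π.comp θ) (fun w => D y (χ (θ w))) := by
    intro y w w'
    simp only
    rw [map_mul, map_mul, hD.mul, hπχ _ (hθH w)]
    rfl
  have hp : p ≠ 0 := by
    intro hp0
    have hq : q ≠ 0 := by
      rcases hpq with h | h
      · exact absurd hp0 h
      · exact h
    have h1 : p * D x (θ w) + q * D x (θ w0) = 0 := hE (fun w => D x (θ w)) (hE1 x)
    rw [hp0, zero_mul, zero_add, hw0] at h1
    rcases mul_eq_zero.1 h1 with h | h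
    · exact hq h
    · exact hx h
  have h1 : p * D y (θ w) + q * D y (θ w0) = 0 := hE (fun w => D y (θ w)) (hE1 y)
  have h2 : p * D y (χ (θ w)) + q * D y (χ (θ w0)) = 0 := hE (fun w => D y (χ (θ w))) (hE2 y)
  rw [hw, hw0] at h1 h2
  rw [hχv] at h2
  have h3 : p * D y (χ v) = p * D y v := by
    rw [eq_neg_of_add_eq_zero_left h1, eq_neg_of_add_eq_zero_left h2]
  exact mul_left_cancel₀ hp h3

theorem retract_of_sq (hD : Mag π D) (hΓ : Good Γ) (H N : Subgroup P) (a b v0 : P)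
    (hH : H = Subgroup.closure {a, b}) (hNH : N ≤ H) (hNπ : ∀ n ∈ N, π n = 1)
    (hN1 : ∀ h ∈ H, π h = 1 → h ∈ N)
    (hN2 : ∀ v ∈ N, v ∈ ⁅π.ker, π.ker⁆ → v ∈ ⁅N, N⁆)
    (n : ℕ) (hn : N.lowerCentralSeries n = ⊥) (ha1 : π a ≠ 1) (hv0 : v0 ∈ N) (x : X)
    (hx : D x v0 ≠ 0)
    (χ : P →* P) (hχH : ∀ p, χ p ∈ H) (hχa : π (χ a) = π a) (hχb : π (χ b) = π b)
    (hχv : ∀ y, D y (χ v0) = D y v0) : ∃ ρ : P →* H, ∀ h : H, ρ h = h := by
  have hπχ : ∀ h ∈ H, π (χ h) = π h := by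
    intro h hh
    rw [hH] at hh
    have : Set.EqOn (π.comp χ) π (Subgroup.closure {a, b} : Subgroup P) := by
      apply MonoidHom.eqOn_closure
      rintro z (rfl | rfl)
      · exact hχa
      · exact hχb
    exact this hh
  have hDχ : ∀ v ∈ N, ∀ y, D y (χ v) = D y v := fun v hv y =>
    fox_eq hD hΓ H a b v0 hH (hNH hv0) (hNπ v0 hv0) ha1 x hx χ hπχ hχv v (hNH hv) (hNπ v hv) y
  have hχN : ∀ v ∈ N, χ v ∈ N := fun v hv =>
    hN1 _ (hχH v) (by rw [hπχ v (hNH hv), hNπ v hv])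
  have hmod : ∀ v ∈ N, χ v * v⁻¹ ∈ ⁅N, N⁆ := by
    intro v hv
    have h1 : π (χ v) = 1 := hNπ _ (hχN v hv)
    have h2 : π (χ v * v⁻¹) = 1 := by rw [map_mul, map_inv, h1, hNπ v hv, inv_one, one_mul]
    apply hN2 _ (N.mul_mem (hχN v hv) (N.inv_mem hv))
    apply hD.inj _ h2
    intro y
    rw [hD.mul, hD.inv, h1, hNπ v hv, inv_one, ← MonoidAlgebra.one_def, one_mul, one_mul,
      hDχ v hv, add_neg_cancel]
  let f : N →* N := (χ.comp N.subtype).codRestrict N (fun m => hχN m m.2)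
  have hf : Function.Bijective f := by
    apply endo_bij f _ n
    · rw [eq_bot_iff]
      intro m hm
      rw [mem_top_lcs, hn, Subgroup.mem_bot] at hm
      rw [Subgroup.mem_bot]
      exact Subtype.ext hm
    · intro m
      rw [mem_top_lcs]
      exact hmod m m.2
  let g : H →* H := (χ.comp H.subtype).codRestrict H (fun m => hχH m)
  have hg : Function.Bijective g := by
    constructor
    · rw [injective_iff_map_eq_one]
      intro h hh
      have h1 : χ h = 1 := congrArg Subtype.val hh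
      have h2 : π h = 1 := by rw [← hπχ h h.2, h1, map_one]
      have h3 : (h : P) ∈ N := hN1 h h.2 h2
      have h4 : f ⟨h, h3⟩ = 1 := Subtype.ext h1
      have h5 := (injective_iff_map_eq_one f).1 hf.1 _ h4
      have h6 : (h : P) = 1 := congrArg Subtype.val h5
      exact Subtype.ext h6
    · intro h
      have h1 : χ h * (h : P)⁻¹ ∈ N := by
        apply hN1 _ (H.mul_mem (hχH h) (H.inv_mem h.2))
        rw [map_mul, map_inv, hπχ h h.2, mul_inv_cancel]
      obtain ⟨m, hm⟩ := hf.2 ⟨_, h1⟩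
      have hm' : χ m = χ h * (h : P)⁻¹ := congrArg Subtype.val hm
      refine ⟨⟨(m : P)⁻¹ * h, H.mul_mem (H.inv_mem (hNH m.2)) h.2⟩, ?_⟩
      apply Subtype.ext
      show χ ((m : P)⁻¹ * h) = h
      rw [map_mul, map_inv, hm']
      group
  refine ⟨(MulEquiv.ofBijective g hg).symm.toMonoidHom.comp (χ.codRestrict H hχH), ?_⟩
  intro h
  show (((MulEquiv.ofBijective g hg).symm (g h) : H) : H) = h
  exact MulEquiv.symm_apply_apply _ _

/-- the main step -/
theorem main_step (hD : Mag π D) (hΓ : Good Γ) (H N : Subgroup P) (a b : P)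
    (hH : H = Subgroup.closure {a, b})
    (hVC : ∀ h ∈ H, ∃ φ : P →* P, (∀ p, φ p ∈ H) ∧ φ h = h)
    (hNH : N ≤ H) (hNπ : ∀ n ∈ N, π n = 1)
    (hN1 : ∀ h ∈ H, π h = 1 → h ∈ N)
    (hN2 : ∀ v ∈ N, v ∈ ⁅π.ker, π.ker⁆ → v ∈ ⁅N, N⁆)
    (n : ℕ) (hn : N.lowerCentralSeries n = ⊥) (hN4 : N ≠ ⊥)
    (hker : ∀ φ : P →* P, (∀ p, φ p ∈ H) → ∀ p, π p = 1 → π (φ p) = 1)
    (hpa : ∀ z ∈ H, ∀ k : ℤ, π z ^ k = π a → k = 1 ∨ k = -1)
    (hpb : ∀ z ∈ H, ∀ k : ℤ, π z ^ k = π b → k = 1 ∨ k = -1) :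
    ∃ ρ : P →* H, ∀ h : H, ρ h = h := by
  have ha : a ∈ H := by rw [hH]; exact Subgroup.subset_closure (by simp)
  have hb : b ∈ H := by rw [hH]; exact Subgroup.subset_closure (by simp)
  -- an element of `N` outside the commutator subgroup
  obtain ⟨v0, hv0, hv0'⟩ : ∃ v0 ∈ N, v0 ∉ ⁅N, N⁆ := by
    by_contra hcon
    push Not at hcon
    apply hN4
    have key : ∀ k, N ≤ N.lowerCentralSeries k := by
      intro k
      induction k with
      | zero => rw [Subgroup.lowerCentralSeries_zero]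
      | succ k ih =>
        rw [Subgroup.lowerCentralSeries_succ]
        exact (show N ≤ ⁅N, N⁆ from hcon).trans (Subgroup.commutator_mono ih le_rfl)
    rw [eq_bot_iff, ← hn]
    exact key n
  obtain ⟨x, hx⟩ : ∃ x, D x v0 ≠ 0 := by
    by_contra hcon
    push Not at hcon
    exact hv0' (hN2 v0 hv0 (hD.inj v0 (hNπ v0 hv0) hcon))
  have ha1 : π a ≠ 1 := by
    intro h
    have := hpa 1 H.one_mem 0 (by rw [h, zpow_zero])
    omega
  obtain ⟨χ, h1, h2, h3, h4⟩ := exists_sq hD hΓ H a b v0 ha hb (hNH hv0) (hNπ v0 hv0) x hx hVC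
    hker hpa hpb
  exact retract_of_sq hD hΓ H N a b v0 hH hNH hNπ hN1 hN2 n hn ha1 hv0 x hx χ h1 h2 h3 h4

end

end Pool.Agent.Poly
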