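import Mathlib
import Pool.Agent.Lib_helper1.Poly.Rank
import Pool.Agent.Lib_helper1.Poly.Retract
import Pool.Agent.Lib_helper1.Poly.Base

/-!
The proof of the theorem by induction on the length.
-/

open scoped commutatorElement

namespace Pool.Agent.Poly

section PS

variable {G K : Type*} [Group G] [Group K]

lemma map_polySeries (f : G →* K) (H : Subgroup G) (c : ℕ → ℕ) (i : ℕ) :
    (polySeries H c i).map f = polySeries (H.map f) c i := by
  induction i with
  | zero => exact Subgroup.map_lowerCentralSeries H f 1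
  | succ i ih =>
    show ((polySeries H c i).lowerCentralSeries (c (i + 1))).map f = _
    rw [Subgroup.map_lowerCentralSeries, ih]
    rfl

lemma polySeries_mono {H H' : Subgroup G} (h : H ≤ H') (c : ℕ → ℕ) (i : ℕ) :
    polySeries H c i ≤ polySeries H' c i := by
  induction i with
  | zero => exact Subgroup.lowerCentralSeries_mono 1 h
  | succ i ih => exact Subgroup.lowerCentralSeries_mono _ ih

lemma polySeries_antitone (H : Subgroup G) (c : ℕ → ℕ) : Antitone (polySeries H c) :=
  antitone_nat_of_succ_le fun i => Subgroup.lowerCentralSeries_le_self (polySeries H c i) _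

lemma polySeries_le (H : Subgroup G) (c : ℕ → ℕ) (i : ℕ) : polySeries H c i ≤ H :=
  (polySeries_antitone H c (Nat.zero_le i)).trans (Subgroup.lowerCentralSeries_le_self H 1)

/-- every element of `H` is fixed by an endomorphism with image in `H` -/
def Endo (H : Subgroup G) : Prop := ∀ h ∈ H, ∃ φ : G →* G, (∀ p, φ p ∈ H) ∧ φ h = h

lemma map_le_of {φ : G →* G} {H : Subgroup G} (hφ : ∀ p, φ p ∈ H) (c : ℕ → ℕ) (i : ℕ) {p : G}
    (hp : p ∈ polySeries (⊤ : Subgroup G) c i) : φ p ∈ polySeries H c i := by
  have h1 : φ p ∈ (polySeries (⊤ : Subgroup G) c i).map φ := Subgroup.mem_map_of_mem _ hp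
  rw [map_polySeries] at h1
  refine polySeries_mono ?_ c i h1
  rintro _ ⟨q, _, rfl⟩
  exact hφ q

lemma Endo.inter {H : Subgroup G} (hE : Endo H) (c : ℕ → ℕ) (i : ℕ) {h : G} (hh : h ∈ H)
    (hi : h ∈ polySeries (⊤ : Subgroup G) c i) : h ∈ polySeries H c i := by
  obtain ⟨φ, hφ, hφh⟩ := hE h hh
  rw [← hφh]
  exact map_le_of hφ c i hi

lemma Endo.inter' {H : Subgroup G} (hE : Endo H) (c : ℕ → ℕ) (i : ℕ) {h : G} (hh : h ∈ H)
    (hi : h ∈ ⁅polySeries (⊤ : Subgroup G) c i, polySeries (⊤ : Subgroup G) c i⁆) :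
    h ∈ ⁅polySeries H c i, polySeries H c i⁆ := by
  obtain ⟨φ, hφ, hφh⟩ := hE h hh
  have h1 : φ h ∈ (⁅polySeries (⊤ : Subgroup G) c i, polySeries (⊤ : Subgroup G) c i⁆).map φ :=
    Subgroup.mem_map_of_mem _ hi
  rw [Subgroup.map_commutator, hφh] at h1
  have h2 : (polySeries (⊤ : Subgroup G) c i).map φ ≤ polySeries H c i := by
    rintro _ ⟨q, hq, rfl⟩
    exact map_le_of hφ c i hq
  exact Subgroup.commutator_mono h2 h2 h1

end PS

section quotients

variable {F : Type*} [Group F]

lemma ker_pr {A B : Subgroup F} [A.Normal] [B.Normal] (h : B ≤ A) :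
    (pr h).ker = A.map (QuotientGroup.mk' B) := by
  ext x
  obtain ⟨f, rfl⟩ := QuotientGroup.mk_surjective x
  rw [MonoidHom.mem_ker, pr_mk, QuotientGroup.eq_one_iff, Subgroup.mem_map]
  constructor
  · intro hf
    exact ⟨f, hf, rfl⟩
  · rintro ⟨g, hg, hgf⟩
    have h1 : (QuotientGroup.mk g : F ⧸ B) = QuotientGroup.mk f := hgf
    rw [QuotientGroup.eq] at h1
    have := A.mul_mem hg (h h1)
    rwa [mul_inv_cancel_left] at this

lemma ker_pr_poly (c : ℕ → ℕ) {i j : ℕ} (hij : i ≤ j) :
    (pr (polySeries_antitone (⊤ : Subgroup F) c hij)).ker =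
      polySeries (⊤ : Subgroup (F ⧸ polySeries (⊤ : Subgroup F) c j)) c i := by
  rw [ker_pr, map_polySeries]
  congr 1
  exact Subgroup.map_top_of_surjective _ (QuotientGroup.mk'_surjective _)

lemma poly_bot (c : ℕ → ℕ) (j : ℕ) :
    polySeries (⊤ : Subgroup (F ⧸ polySeries (⊤ : Subgroup F) c j)) c j = ⊥ := by
  rw [← ker_pr_poly c le_rfl, eq_bot_iff]
  intro x hx
  obtain ⟨f, rfl⟩ := QuotientGroup.mk_surjective x
  rw [MonoidHom.mem_ker, pr_mk] at hx
  exact hx

lemma comm_zero (c : ℕ → ℕ) (x y : F ⧸ polySeries (⊤ : Subgroup F) c 0) : x * y = y * x := by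
  rw [← commutatorElement_eq_one_iff_mul_comm, ← Subgroup.mem_bot, ← poly_bot c 0]
  exact Subgroup.commutator_mem_commutator trivial trivial

end quotients

/-- elements of a subgroup generated by two elements, modulo commutators -/
lemma exists_zpow {P Γ : Type*} [Group P] [Group Γ] (π : P →* Γ)
    (hcomm : ∀ x y : Γ, x * y = y * x) (a b z : P) (hz : z ∈ Subgroup.closure {a, b}) :
    ∃ i j : ℤ, π z = π a ^ i * π b ^ j := by
  let _ : CommGroup Γ := { (inferInstance : Group Γ) with mul_comm := hcomm }
  have h1 : π z ∈ Subgroup.closure {π a, π b} := by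
    have h2 := Subgroup.mem_map_of_mem π hz
    rwa [MonoidHom.map_closure, Set.image_pair] at h2
  rw [Subgroup.mem_closure_pair] at h1
  obtain ⟨i, j, h⟩ := h1
  exact ⟨i, j, h.symm⟩

lemma primitive {P Γ : Type*} [Group P] [Group Γ] (π : P →* Γ)
    (hcomm : ∀ x y : Γ, x * y = y * x) (a b : P)
    (hind : ∀ p q : ℤ, π a ^ p * π b ^ q = 1 → p = 0 ∧ q = 0) (z : P)
    (hz : z ∈ Subgroup.closure {a, b}) (k : ℤ) :
    (π z ^ k = π a → k = 1 ∨ k = -1) ∧ (π z ^ k = π b → k = 1 ∨ k = -1) := by
  obtain ⟨i, j, hij⟩ := exists_zpow π hcomm a b z hz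
  let _ : CommGroup Γ := { (inferInstance : Group Γ) with mul_comm := hcomm }
  have hzk : π z ^ k = π a ^ (i * k) * π b ^ (j * k) := by
    rw [hij, zpow_mul, zpow_mul]
    exact mul_zpow _ _ _
  constructor
  · intro h
    rw [hzk] at h
    have h1 : π a ^ (i * k - 1) * π b ^ (j * k) = 1 := by
      rw [zpow_sub, zpow_one]
      have e : π a ^ (i * k) * (π a)⁻¹ * π b ^ (j * k) =
          π a ^ (i * k) * π b ^ (j * k) * (π a)⁻¹ := by
        rw [mul_assoc, mul_assoc, hcomm (π a)⁻¹]
      rw [e, h, mul_inv_cancel]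
    have h2 := (hind _ _ h1).1
    have h3 : i * k = 1 := by omega
    rcases Int.eq_one_or_neg_one_of_mul_eq_one' h3 with h | h
    · exact Or.inl h.2
    · exact Or.inr h.2
  · intro h
    rw [hzk] at h
    have h1 : π a ^ (i * k) * π b ^ (j * k - 1) = 1 := by
      rw [zpow_sub, zpow_one, ← mul_assoc, h, mul_inv_cancel]
    have h2 := (hind _ _ h1).2
    have h3 : j * k = 1 := by omega
    rcases Int.eq_one_or_neg_one_of_mul_eq_one' h3 with h | h
    · exact Or.inl h.2
    · exact Or.inr h.2

/-- the theorem for subgroups with many endomorphisms -/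
theorem endo_retract (r : ℕ) (c : ℕ → ℕ) (l : ℕ) (hc : ∀ i, 1 ≤ i → i ≤ l → 1 ≤ c i) :
    ∀ H : Subgroup (FreePolynilpotent r c l), (∃ a b, H = Subgroup.closure {a, b}) → Endo H →
      ∃ ρ : FreePolynilpotent r c l →* H, ∀ h : H, ρ h = h := by
  induction l with
  | zero =>
    intro H _ hE
    have hgood := good_poly (X := Fin r) c 0
    have hfg : Group.FG (FreePolynilpotent r c 0) := inferInstance
    let _ : CommGroup (FreePolynilpotent r c 0) :=
      { (inferInstance : Group (FreePolynilpotent r c 0)) with mul_comm := comm_zero c }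
    apply retract_of_pure H
    intro n hn x hx
    obtain ⟨φ, hφ, hφx⟩ := hE _ hx
    have h1 : φ x ^ n = x ^ n := by
      rw [← hφx]
      exact (map_pow φ x n).symm
    have h2 : φ x = x := hgood.roots n hn _ _ (by
      have := h1
      exact this)
    rw [← h2]
    exact hφ x
  | succ l ih =>
    intro H hab hE
    obtain ⟨a, b, hH⟩ := hab
    have ha : a ∈ H := by rw [hH]; exact Subgroup.subset_closure (by simp)
    have hb : b ∈ H := by rw [hH]; exact Subgroup.subset_closure (by simp)
    set F := FreeGroup (Fin r) with hF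
    let N' := polySeries (⊤ : Subgroup F) c (l + 1)
    let π : F ⧸ N' →* F ⧸ polySeries (⊤ : Subgroup F) c l :=
      pr (polySeries_antitone (⊤ : Subgroup F) c (Nat.le_succ l))
    have hπker : π.ker = polySeries (⊤ : Subgroup (F ⧸ N')) c l := ker_pr_poly c (Nat.le_succ l)
    have hπs : Function.Surjective π := pr_surjective _
    have hmemker : ∀ p, π p = 1 ↔ p ∈ polySeries (⊤ : Subgroup (F ⧸ N')) c l := by
      intro p
      rw [← MonoidHom.mem_ker, hπker]
    have hker : ∀ φ : F ⧸ N' →* F ⧸ N', (∀ p, φ p ∈ H) → ∀ p, π p = 1 → π (φ p) = 1 := by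
      intro φ hφ p hp
      rw [hmemker] at hp ⊢
      exact polySeries_mono le_top c l (map_le_of hφ c l hp)
    have hbot : polySeries H c (l + 1) = ⊥ := by
      rw [eq_bot_iff, ← poly_bot c (l + 1)]
      exact polySeries_mono le_top c _
    by_cases hN : polySeries H c l = ⊥
    · -- pass to the quotient
      have hHb : H.map π = Subgroup.closure {π a, π b} := by
        rw [hH, MonoidHom.map_closure, Set.image_pair]
      have hEb : Endo (H.map π) := by
        rintro _ ⟨h, hh, rfl⟩
        obtain ⟨φ, hφ, hφh⟩ := hE h hh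
        have hle : ∀ s ∈ polySeries (⊤ : Subgroup F) c l,
            (π.comp φ).comp (QuotientGroup.mk' N') s = 1 := by
          intro s hs
          show π (φ (QuotientGroup.mk s)) = 1
          apply hker φ hφ
          show π (QuotientGroup.mk s) = 1
          have : π (QuotientGroup.mk s) = QuotientGroup.mk s := rfl
          rw [this, QuotientGroup.eq_one_iff]
          exact hs
        let φb : F ⧸ polySeries (⊤ : Subgroup F) c l →* F ⧸ polySeries (⊤ : Subgroup F) c l :=
          QuotientGroup.lift _ ((π.comp φ).comp (QuotientGroup.mk' N')) hle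
        have hφb : ∀ p, φb (π p) = π (φ p) := by
          intro p
          obtain ⟨f, rfl⟩ := QuotientGroup.mk_surjective p
          rfl
        refine ⟨φb, ?_, ?_⟩
        · intro q
          obtain ⟨p, rfl⟩ := hπs q
          rw [hφb]
          exact Subgroup.mem_map_of_mem _ (hφ p)
        · rw [hφb, hφh]
      obtain ⟨ρ, hρ⟩ := ih (fun i h1 h2 => hc i h1 (by omega)) (H.map π) ⟨π a, π b, hHb⟩ hEb
      let e : H →* H.map π := (π.comp H.subtype).codRestrict (H.map π)
        (fun h => Subgroup.mem_map_of_mem _ h.2)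
      have he : Function.Bijective e := by
        constructor
        · rw [injective_iff_map_eq_one]
          intro h hh
          have h1 : π h = 1 := congrArg Subtype.val hh
          rw [hmemker] at h1
          have h2 := hE.inter c l h.2 h1
          rw [hN, Subgroup.mem_bot] at h2
          exact Subtype.ext h2
        · rintro ⟨_, h, hh, rfl⟩
          exact ⟨⟨h, hh⟩, rfl⟩
      refine ⟨((MulEquiv.ofBijective e he).symm.toMonoidHom.comp ρ).comp π, ?_⟩
      intro h
      have h1 : ρ (π h) = e h := Subtype.ext (hρ (e h) ▸ rfl)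
      show (((MulEquiv.ofBijective e he).symm (ρ (π h)) : H) : H) = h
      rw [h1]
      exact MulEquiv.symm_apply_apply (MulEquiv.ofBijective e he) h
    · -- the main case
      obtain ⟨D, hD⟩ := exists_mag (X := Fin r) (S := polySeries (⊤ : Subgroup F) c l)
        (N := N') (polySeries_antitone (⊤ : Subgroup F) c (Nat.le_succ l))
        (Subgroup.lowerCentralSeries_antitone _ (hc (l + 1) (by omega) le_rfl))
      have h0 : polySeries (⊤ : Subgroup F) c (l + 1) ≤
          ⁅polySeries (⊤ : Subgroup F) c 0, polySeries (⊤ : Subgroup F) c 0⁆ :=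
        (polySeries_antitone (⊤ : Subgroup F) c (by omega : 1 ≤ l + 1)).trans
          (Subgroup.lowerCentralSeries_antitone _ (hc 1 le_rfl (by omega)))
      let π0 : F ⧸ N' →* F ⧸ polySeries (⊤ : Subgroup F) c 0 :=
        pr (polySeries_antitone (⊤ : Subgroup F) c (Nat.zero_le (l + 1)))
      have hπ0ker : π0.ker = polySeries (⊤ : Subgroup (F ⧸ N')) c 0 :=
        ker_pr_poly c (Nat.zero_le (l + 1))
      have hmem0 : ∀ p, π0 p = 1 ↔ p ∈ polySeries (⊤ : Subgroup (F ⧸ N')) c 0 := by
        intro p
        rw [← MonoidHom.mem_ker, hπ0ker]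
      obtain ⟨D0, hD0⟩ := exists_mag (X := Fin r) (S := polySeries (⊤ : Subgroup F) c 0)
        (N := N') (polySeries_antitone (⊤ : Subgroup F) c (Nat.zero_le (l + 1))) h0
      have hind : ∀ p q : ℤ, π0 a ^ p * π0 b ^ q = 1 → p = 0 ∧ q = 0 := by
        intro p q hpq
        by_contra hcon
        have h1 := rank_exclusion hD0 (good_poly c 0) (comm_zero c) H a b hH
          (by
            intro h hh h1
            have h2 : h ∈ polySeries (⊤ : Subgroup (F ⧸ N')) c 0 := (hmem0 h).1 h1
            exact hE.inter c 0 hh h2)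
          (by
            intro h hh h1
            have h2 : h ∈ ⁅π0.ker, π0.ker⁆ := h1
            rw [hπ0ker] at h2
            exact hE.inter' c 0 hh h2) p q hcon hpq
        have h2 : ∀ i, polySeries H c 0 ≤ polySeries H c i := by
          intro i
          induction i with
          | zero => exact le_rfl
          | succ i ihi =>
            have h3 : ∀ k, polySeries H c 0 ≤ (polySeries H c i).lowerCentralSeries k := by
              intro k
              induction k with
              | zero => exact ihi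
              | succ k ihk =>
                rw [Subgroup.lowerCentralSeries_succ]
                exact (show polySeries H c 0 ≤ ⁅polySeries H c 0, polySeries H c 0⁆ from h1).trans
                  (Subgroup.commutator_mono ihk ihi)
            exact h3 (c (i + 1))
        apply hN
        rw [eq_bot_iff, ← hbot]
        exact (polySeries_antitone H c (Nat.zero_le l)).trans (h2 (l + 1))
      have hfac : ∀ p, π p = 1 → π0 p = 1 := by
        intro p hp
        rw [hmemker] at hp
        rw [hmem0]
        exact polySeries_antitone _ c (Nat.zero_le l) hp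
      have hfac' : ∀ z (k : ℤ) w, π z ^ k = π w → π0 z ^ k = π0 w := by
        intro z k w h
        have h1 : π (z ^ k * w⁻¹) = 1 := by rw [map_mul, map_zpow, map_inv, h, mul_inv_cancel]
        have h2 := hfac _ h1
        rw [map_mul, map_zpow, map_inv] at h2
        exact mul_inv_eq_one.1 h2
      have hprim := primitive π0 (comm_zero c) a b hind
      refine main_step hD (good_poly c l) H (polySeries H c l) a b hH hE (polySeries_le H c l)
        ?_ ?_ ?_ (c (l + 1)) hbot hN hker ?_ ?_
      · intro n hn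
        exact (hmemker n).2 (polySeries_mono le_top c l hn)
      · intro h hh h1
        exact hE.inter c l hh ((hmemker h).1 h1)
      · intro v hv h1
        have h2 : v ∈ ⁅π.ker, π.ker⁆ := h1
        rw [hπker] at h2
        exact hE.inter' c l (polySeries_le H c l hv) h2
      · intro z hz k hk
        rw [hH] at hz
        exact (hprim z hz k).1 (hfac' z k a hk)
      · intro z hz k hk
        rw [hH] at hz
        exact (hprim z hz k).2 (hfac' z k b hk)

/-- verbally closed subgroups have many endomorphisms -/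
theorem endo_of_vc (r : ℕ) (c : ℕ → ℕ) (l : ℕ) (H : Subgroup (FreePolynilpotent r c l))
    (hH : IsVerballyClosed H) : Endo H := by
  intro h hh
  obtain ⟨w, hw⟩ := QuotientGroup.mk_surjective h
  obtain ⟨g, hg⟩ := hH r w ⟨h, hh⟩ ⟨fun i => QuotientGroup.mk (FreeGroup.of i), by
    have : (FreeGroup.lift fun i => (QuotientGroup.mk (FreeGroup.of i) :
        FreePolynilpotent r c l)) = QuotientGroup.mk' _ := by
      apply FreeGroup.ext_hom
      intro i
      rw [FreeGroup.lift_apply_of]
      rfl
    rw [this]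
    exact hw⟩
  let f : FreeGroup (Fin r) →* FreePolynilpotent r c l := FreeGroup.lift fun i => (g i : _)
  have hf : f = H.subtype.comp (FreeGroup.lift g) := by
    apply FreeGroup.ext_hom
    intro i
    simp only [f]
    rw [FreeGroup.lift_apply_of, MonoidHom.comp_apply, FreeGroup.lift_apply_of]
    rfl
  have hfker : ∀ s ∈ polySeries (⊤ : Subgroup (FreeGroup (Fin r))) c l, f s = 1 := by
    intro s hs
    have h1 := Subgroup.mem_map_of_mem f hs
    rw [map_polySeries] at h1
    have h2 := polySeries_mono (le_top : (⊤ : Subgroup (FreeGroup (Fin r))).map f ≤ ⊤) c l h1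
    rw [poly_bot, Subgroup.mem_bot] at h2
    exact h2
  refine ⟨QuotientGroup.lift _ f hfker, ?_, ?_⟩
  · intro p
    obtain ⟨s, rfl⟩ := QuotientGroup.mk_surjective p
    show f s ∈ H
    rw [hf]
    exact (FreeGroup.lift g s).2
  · rw [← hw]
    show f w = _
    rw [hf, MonoidHom.comp_apply, hg, hw]
    rfl

lemma ac_of_retract {G : Type*} [Group G] {H : Subgroup G} (h : IsRetract H) :
    IsAlgebraicallyClosed H := by
  obtain ⟨ρ, hρ⟩ := h
  rintro n S ⟨g, hg⟩
  refine ⟨fun i => ρ (g i), fun w hw => ?_⟩
  have : Monoid.Coprod.lift (FreeGroup.lift fun i => ρ (g i)) (MonoidHom.id H) =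
      ρ.comp (Monoid.Coprod.lift (FreeGroup.lift g) H.subtype) := by
    apply Monoid.Coprod.hom_ext
    · apply FreeGroup.ext_hom
      intro i
      simp
    · ext x
      simp [hρ]
  rw [this, MonoidHom.comp_apply, hg w hw, map_one]

lemma vc_of_ac {G : Type*} [Group G] {H : Subgroup G} (h : IsAlgebraicallyClosed H) :
    IsVerballyClosed H := by
  rintro n w x ⟨g, hg⟩
  obtain ⟨g', hg'⟩ := h n {Monoid.Coprod.inl w * Monoid.Coprod.inr x⁻¹} ⟨g, by
    intro v hv
    rw [Finset.mem_singleton] at hv
    rw [hv, map_mul, Monoid.Coprod.lift_apply_inl, Monoid.Coprod.lift_apply_inr, hg]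
    simp⟩
  refine ⟨g', ?_⟩
  have h1 := hg' _ (Finset.mem_singleton_self _)
  rw [map_mul, Monoid.Coprod.lift_apply_inl, Monoid.Coprod.lift_apply_inr,
    MonoidHom.id_apply] at h1
  exact mul_inv_eq_one.1 h1

/-- For two-generated subgroups of free polynilpotent groups the three notions coincide. -/
theorem equiv_closed (r : ℕ) (c : ℕ → ℕ) (l : ℕ) (hc : ∀ i, 1 ≤ i → i ≤ l → 1 ≤ c i)
    (H : Subgroup (FreePolynilpotent r c l)) (hH : ∃ a b, H = Subgroup.closure {a, b}) :
    (IsRetract H ↔ IsAlgebraicallyClosed H) ∧ (IsAlgebraicallyClosed H ↔ IsVerballyClosed H) := by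
  have h3 : IsVerballyClosed H → IsRetract H := fun h =>
    endo_retract r c l hc H hH (endo_of_vc r c l H h)
  exact ⟨⟨ac_of_retract, fun h => h3 (vc_of_ac h)⟩, ⟨vc_of_ac, fun h => ac_of_retract (h3 h)⟩⟩

end Pool.Agent.Poly
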